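import Pool.Agent.Zk83.SB.LG3
import Pool.Agent.Zk69.SB.X1
import Pool.Agent.Zk86.SB.X3
import Pool.Agent.Zk86.SB.Y1

/-!
# Incongruence and large deviations, for couplings with an exponential moment
-/

set_option autoImplicit false

open MeasureTheory Filter Topology
open Pool.Agent.Zk58.EK
open Pool.Agent.Zk83.SB.LD (VolumeOrder SurfaceOrder)

namespace Pool.Agent.Zk83.SB.LDG

/-- For couplings with an exponential moment: there are no macroscopically different ground states if and only if
differences between ground states of cubes have large deviations of volume order, uniformly in the boundary conditions;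
otherwise there are large deviations of surface order for fixed boundary conditions. -/
theorem final (d : ℕ) (hd : 2 ≤ d) (S : Type) [MeasurableSpace S] (μ : Measure S) [IsProbabilityMeasure μ]
    (ψ : S → ℝ) (hψ : Measurable ψ) (a : ℝ) (ha : 0 < a) (hexp : Integrable (fun s => Real.exp (a * |ψ s|)) μ)
    (hat : ∀ t : ℝ, μ {s | ψ s = t} = 0) :
    (MacroUnique μ ψ d ↔ VolumeOrder μ ψ d) ∧ (MacroUnique μ ψ d ↔ ¬ SurfaceOrder μ ψ d) :=
  LG.volume_surface Pool.Agent.Zk69.SB.X1.t_X1 Pool.Agent.Zk86.SB.t_Y1 Pool.Agent.Zk86.SB.t_X3 hd hψ ha hexp hat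

end Pool.Agent.Zk83.SB.LDG

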