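import Pool.Agent.Zk83.SB.Stm2
import Pool.Agent.TH761.EB.Gen

/-!
# Costs of flips: continuity, and no ties for atomless couplings
-/

set_option autoImplicit false

open MeasureTheory ProbabilityTheory Filter Topology

namespace Pool.Agent.Zk83.SB

variable {d : ℕ}

/-- the bonds which touch `A` -/
noncomputable def touch (A : Finset (Site d)) : Finset (Bond d) :=
  (A ×ˢ Finset.univ) ∪ (A ×ˢ Finset.univ).image fun p : Site d × Fin d => (p.1 - Pi.single p.2 1, p.2)

lemma mem_touch (A : Finset (Site d)) (e : Bond d) (h : e.1 ∈ A ∨ tip e ∈ A) : e ∈ touch A := by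
  unfold touch
  rcases h with h | h
  · exact Finset.mem_union_left _ (Finset.mem_product.2 ⟨h, Finset.mem_univ _⟩)
  · refine Finset.mem_union_right _ (Finset.mem_image.2 ⟨(tip e, e.2), ?_, ?_⟩)
    · exact Finset.mem_product.2 ⟨h, Finset.mem_univ _⟩
    · simp only [tip, add_sub_cancel_right]

lemma cost_eq (J : Bond d → ℝ) (σ : Site d → ℝ) (A : Finset (Site d)) :
    cost J σ A = ∑ e ∈ touch A, J e * (σ e.1 * σ (tip e) - flipOn A σ e.1 * flipOn A σ (tip e)) := by
  unfold cost
  refine finsum_eq_sum_of_support_subset _ fun e he => ?_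
  rw [Function.mem_support] at he
  by_contra hno
  apply he
  have h1 : e.1 ∉ A := fun h => hno (mem_touch A e (Or.inl h))
  have h2 : tip e ∉ A := fun h => hno (mem_touch A e (Or.inr h))
  simp [flipOn, h1, h2]

theorem t_K : StK := by
  intro d A
  simp only [cost_eq]
  refine continuous_finsetSum _ fun e _ => ?_
  have hf : ∀ x : Site d, Continuous fun p : (Bond d → ℝ) × (Site d → ℝ) => flipOn A p.2 x := by
    intro x
    unfold flipOn
    by_cases hx : x ∈ A
    · simp only [hx, if_true]; fun_prop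
    · simp only [hx, if_false]; fun_prop
  have h1 := hf e.1
  have h2 := hf (tip e)
  fun_prop

/-- some bond leaves a nonempty finite set -/
lemma exists_leaving (hd : 1 ≤ d) (A : Finset (Site d)) (hA : A.Nonempty) :
    ∃ e : Bond d, e.1 ∈ A ∧ tip e ∉ A := by
  obtain ⟨x, hx, hmax⟩ := Finset.exists_max_image A (fun x => x ⟨0, hd⟩) hA
  refine ⟨(x, ⟨0, hd⟩), hx, fun h => ?_⟩
  have := hmax _ h
  simp only [tip, Pi.add_apply, Pi.single_eq_same] at this
  omega

lemma term_leaving (A : Finset (Site d)) (σ : Site d → ℝ) (e : Bond d) :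
    σ e.1 * σ (tip e) - flipOn A σ e.1 * flipOn A σ (tip e) =
      if (e.1 ∈ A ↔ tip e ∈ A) then 0 else 2 * (σ e.1 * σ (tip e)) := by
  unfold flipOn
  by_cases h1 : e.1 ∈ A <;> by_cases h2 : tip e ∈ A <;> simp only [h1, h2] <;> simp <;> ring

lemma cost_ne_zero (hd : 1 ≤ d) {J : Bond d → ℝ}
    (hJ : ∀ T1 T2 : Finset (Bond d), Disjoint T1 T2 → (∃ e, e ∈ T1 ∨ e ∈ T2) → ∑ e ∈ T1, J e ≠ ∑ e ∈ T2, J e)
    {σ : Site d → ℝ} (hσ : ∀ x, σ x = 1 ∨ σ x = -1) (A : Finset (Site d)) (hA : A.Nonempty) :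
    cost J σ A ≠ 0 := by
  classical
  set F := (touch A).filter fun e => ¬ (e.1 ∈ A ↔ tip e ∈ A) with hF
  have hcpm : ∀ e : Bond d, σ e.1 * σ (tip e) = 1 ∨ σ e.1 * σ (tip e) = -1 := by
    intro e
    rcases hσ e.1 with h | h <;> rcases hσ (tip e) with h' | h' <;> rw [h, h'] <;> simp
  have h1 : cost J σ A = 2 * ∑ e ∈ F, J e * (σ e.1 * σ (tip e)) := by
    rw [cost_eq, hF, Finset.sum_filter, Finset.mul_sum]
    refine Finset.sum_congr rfl fun e _ => ?_
    rw [term_leaving]
    by_cases h : (e.1 ∈ A ↔ tip e ∈ A)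
    · simp [h]
    · simp only [h, not_false_eq_true, if_true, if_false]
      ring
  rw [h1]
  intro h0
  have h0' : ∑ e ∈ F, J e * (σ e.1 * σ (tip e)) = 0 := by linarith
  obtain ⟨e0, he0, he0'⟩ := exists_leaving hd A hA
  have he0F : e0 ∈ F := by
    rw [hF, Finset.mem_filter]
    refine ⟨mem_touch A e0 (Or.inl he0), ?_⟩
    simp [he0, he0']
  refine hJ (F.filter fun e => σ e.1 * σ (tip e) = 1) (F.filter fun e => ¬ σ e.1 * σ (tip e) = 1)
    (Finset.disjoint_filter_filter_not _ _ _) ⟨e0, ?_⟩ ?_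
  · by_cases h : σ e0.1 * σ (tip e0) = 1
    · exact Or.inl (Finset.mem_filter.2 ⟨he0F, h⟩)
    · exact Or.inr (Finset.mem_filter.2 ⟨he0F, h⟩)
  · have h1 := Finset.sum_filter_add_sum_filter_not F (fun e => σ e.1 * σ (tip e) = 1)
      (fun e => J e * (σ e.1 * σ (tip e)))
    have h2 : ∑ e ∈ F.filter (fun e => σ e.1 * σ (tip e) = 1), J e * (σ e.1 * σ (tip e)) =
        ∑ e ∈ F.filter (fun e => σ e.1 * σ (tip e) = 1), J e :=
      Finset.sum_congr rfl fun e he => by rw [(Finset.mem_filter.1 he).2, mul_one]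
    have h3 : ∑ e ∈ F.filter (fun e => ¬ σ e.1 * σ (tip e) = 1), J e * (σ e.1 * σ (tip e)) =
        -∑ e ∈ F.filter (fun e => ¬ σ e.1 * σ (tip e) = 1), J e := by
      rw [← Finset.sum_neg_distrib]
      refine Finset.sum_congr rfl fun e he => ?_
      rcases hcpm e with h | h
      · exact absurd h (Finset.mem_filter.1 he).2
      · rw [h, mul_neg, mul_one]
    rw [h2, h3, h0'] at h1
    linarith

theorem t_N : StN := by
  classical
  intro d hd μ _ hat
  filter_upwards [Pool.Agent.TH761.EB.gen_ae μ hat (Bond d)] with J hJ σ hσ hc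
  refine ⟨hσ, fun ρ hρ hfin hne => ?_⟩
  set A : Finset (Site d) := hfin.toFinset with hA
  have hρA : ρ = flipOn A σ := by
    funext x
    unfold flipOn
    by_cases hx : x ∈ A
    · rw [if_pos hx]
      have h1 : ρ x ≠ σ x := by
        rw [hA, Set.Finite.mem_toFinset] at hx
        exact hx
      rcases hρ x with h | h <;> rcases hσ x with h' | h' <;> rw [h, h'] at h1 ⊢ <;> simp at h1 ⊢
    · rw [if_neg hx]
      by_contra h1
      apply hx
      rw [hA, Set.Finite.mem_toFinset]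
      exact h1
  have hAne : A.Nonempty := by
    by_contra h
    rw [Finset.not_nonempty_iff_eq_empty] at h
    apply hne
    rw [hρA, h]
    funext x
    simp [flipOn]
  have h1 : 0 < cost J σ A := lt_of_le_of_ne (hc A) (cost_ne_zero hd hJ hσ A hAne).symm
  rw [hρA]
  exact h1

end Pool.Agent.Zk83.SB
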