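import Pool.Agent.Zk83.SB.U6
import Pool.Agent.Zk58.EK.Chaos

/-!
# Bridge to the project EK of helper58
-/

set_option autoImplicit false

open MeasureTheory ProbabilityTheory Filter Topology

namespace Pool.Agent.Zk83.SB

variable {d : ℕ}

lemma tip_eq (e : Bond d) : Pool.Agent.Zk58.EK.tip e = tip e := rfl

lemma gs_of_EK {J : Bond d → ℝ} {σ : Site d → ℝ} (h : Pool.Agent.Zk58.EK.IsGroundState J σ) :
    IsGroundState J σ := by
  classical
  refine ⟨h.1, fun ρ hρ hfin hne => ?_⟩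
  set A : Finset (Site d) := hfin.toFinset with hA
  have hmem : ∀ x, x ∈ A ↔ ρ x ≠ σ x := fun x => by
    rw [hA, Set.Finite.mem_toFinset]
    rfl
  have hAne : A.Nonempty := by
    obtain ⟨x, hx⟩ := Function.ne_iff.1 hne
    exact ⟨x, (hmem x).2 hx⟩
  have hpos := h.2 A hAne
  have hin : ∀ x, x ∈ A → ρ x = -σ x := by
    intro x hx
    have h1 := (hmem x).1 hx
    rcases hρ x with h2 | h2 <;> rcases h.1 x with h3 | h3 <;> rw [h2, h3] at h1 ⊢
    · exact absurd rfl h1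
    · norm_num
    · exact absurd rfl h1
  have hout : ∀ x, x ∉ A → ρ x = σ x := by
    intro x hx
    by_contra h1
    exact hx ((hmem x).2 h1)
  have hterm : ∀ e : Bond d, J e * (σ e.1 * σ (tip e) - ρ e.1 * ρ (tip e)) =
      if e ∈ Pool.Agent.Zk58.EK.bdry A then 2 * (J e * (σ e.1 * σ (tip e))) else 0 := by
    intro e
    have hb : e ∈ Pool.Agent.Zk58.EK.bdry A ↔ ¬ (e.1 ∈ A ↔ tip e ∈ A) := by
      rw [Pool.Agent.Zk58.EK.mem_bdry]
      rfl
    by_cases h1 : e.1 ∈ A <;> by_cases h2 : tip e ∈ A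
    · rw [if_neg (by rw [hb]; simp [h1, h2]), hin _ h1, hin _ h2]; ring
    · rw [if_pos (by rw [hb]; simp [h1, h2]), hin _ h1, hout _ h2]; ring
    · rw [if_pos (by rw [hb]; simp [h1, h2]), hout _ h1, hin _ h2]; ring
    · rw [if_neg (by rw [hb]; simp [h1, h2]), hout _ h1, hout _ h2]; ring
  simp only [hterm]
  have hs : ∑ᶠ e : Bond d, (if e ∈ Pool.Agent.Zk58.EK.bdry A then 2 * (J e * (σ e.1 * σ (tip e))) else 0) =
      ∑ e ∈ Pool.Agent.Zk58.EK.bdry A, 2 * (J e * (σ e.1 * σ (tip e))) := by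
    rw [finsum_eq_sum_of_support_subset (s := Pool.Agent.Zk58.EK.bdry A)]
    · exact Finset.sum_congr rfl fun e he => if_pos he
    · intro e he
      by_contra h1
      exact he (if_neg h1)
  rw [hs, ← Finset.mul_sum]
  have : Pool.Agent.Zk58.EK.bs J σ A = ∑ e ∈ Pool.Agent.Zk58.EK.bdry A, J e * (σ e.1 * σ (tip e)) := rfl
  rw [← this]
  linarith

lemma cube_EK (n : ℕ) : Pool.Agent.Zk58.EK.cube (0 : Site d) n = cube d n := by
  unfold Pool.Agent.Zk58.EK.cube cube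
  simp

/-- translates of a local odd observable -/
lemma oddObs_of_EK {k R : ℕ} {F : (Bond d → ℝ) → Pool.Agent.Zk58.EK.Cfg d k → ℝ}
    (hloc : Pool.Agent.Zk58.EK.IsLocal R F) (hmeas : ∀ σ, Measurable fun X => F X σ)
    (hbd : ∀ X σ, |F X σ| ≤ 1) (hodd : ∀ X σ, F X (fun a x => -σ a x) = -F X σ) :
    OddObs d k R (fun x J σ => F (Pool.Agent.Zk58.EK.th x J) (Pool.Agent.Zk58.EK.sh x σ)) := by
  refine ⟨fun x σ => ?_, fun x J J' σ σ' hJ hσ => ?_, fun x J σ => ?_, fun x J σ => hbd _ _⟩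
  · have : Measurable (Pool.Agent.Zk58.EK.th x : (Bond d → ℝ) → (Bond d → ℝ)) := measurable_mJ x
    exact (hmeas (Pool.Agent.Zk58.EK.sh x σ)).comp this
  · have hball : ∀ y ∈ Pool.Agent.Zk58.EK.cube (0 : Site d) R, y + x ∈ ball x R := by
      intro y hy j
      rw [Pool.Agent.Zk58.EK.mem_cube] at hy
      have h1 := hy j
      simp only [Pi.zero_apply, zero_add] at h1
      simp only [Pi.add_apply, add_sub_cancel_right]
      rw [abs_of_nonneg h1.1]
      exact h1.2.le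
    refine hloc _ _ _ _ (fun e he => ?_) fun a y hy => hσ a _ (hball y hy)
    rw [Pool.Agent.Zk58.EK.mem_bonds] at he
    refine hJ (e.1 + x, e.2) (hball _ he.1) ?_
    rw [tip_add]
    exact hball _ he.2
  · exact hodd _ _

/-- for odd observables the averages over the cubes vanish for all ground states -/
theorem zero_avg (hH : StH) (hR2 : StR2) (hG2 : StG2) (hd : 1 ≤ d) (μ : Measure ℝ) [IsProbabilityMeasure μ]
    (hsym : μ.map (fun x => -x) = μ) {k R : ℕ} {F : (Bond d → ℝ) → Pool.Agent.Zk58.EK.Cfg d k → ℝ}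
    (hloc : Pool.Agent.Zk58.EK.IsLocal R F) (hmeas : ∀ σ, Measurable fun X => F X σ)
    (hbd : ∀ X σ, |F X σ| ≤ 1) (hodd : ∀ X σ, F X (fun a x => -σ a x) = -F X σ) :
    ∀ᵐ X ∂(Pool.Agent.Zk58.EK.PX d μ), ∀ σ : Pool.Agent.Zk58.EK.Cfg d k,
      (∀ a, Pool.Agent.Zk58.EK.IsGroundState X (σ a)) →
      Tendsto (fun n : ℕ => Pool.Agent.Zk58.EK.En F X (Pool.Agent.Zk58.EK.cube 0 n) σ / (n : ℝ) ^ d)
        atTop (𝓝 0) := by
  have h := uniform_as hH hR2 hG2 hd (Measure.infinitePi fun _ : Bond d => μ)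
    (inv_iid 0 μ hsym).gauge _ (oddObs_of_EK hloc hmeas hbd hodd)
  filter_upwards [h] with X hX σ hσ
  rw [Metric.tendsto_nhds]
  intro ε hε
  filter_upwards [hX ε hε, eventually_gt_atTop 0] with n hn hn0
  have h1 := hn σ fun a => box_of_gs (gs_of_EK (hσ a)) _
  have hpos : (0 : ℝ) < (n : ℝ) ^ d := by positivity
  rw [Real.dist_eq, sub_zero, abs_div, abs_of_pos hpos, div_lt_iff₀ hpos, cube_EK]
  exact h1

end Pool.Agent.Zk83.SB
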