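import Pool.Agent.Zk58.EK.Base

/-!
# Statement of the module on the energy (uses the project EK of helper58)
-/

set_option autoImplicit false

open MeasureTheory Filter Topology
open Pool.Agent.Zk58.EK

namespace Pool.Agent.Zk83.SB

/-- If the averages of `F` over the cubes tend to `0` for all tuples of ground states, then the energy of the system
perturbed by `t F` has derivative `0` at `t = 0`, and the averages of `F` are small for all nearly optimal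
configurations. -/
def StE : Prop :=
  ∀ (d : ℕ), 2 ≤ d → ∀ (S : Type) [MeasurableSpace S] (μ : Measure S) [IsProbabilityMeasure μ] (ψ : S → ℝ),
    Measurable ψ → MemLp ψ 2 μ → (∀ t : ℝ, μ {s | ψ s = t} = 0) →
    ∀ (k R : ℕ) (F : (Bond d → S) → Cfg d k → ℝ), Good μ R F →
    (∀ᵐ X ∂(PX d μ), ∀ σ : Cfg d k, (∀ a, IsGroundState (fun e => ψ (X e)) (σ a)) →
      Tendsto (fun n : ℕ => En F X (cube 0 n) σ / (n : ℝ) ^ d) atTop (𝓝 0)) →
    ∃ g : ℝ → ℝ, ConvexOn ℝ Set.univ g ∧ HasDerivAt g 0 0 ∧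
      (∀ (t : ℝ) (c : ℕ → Site d), ∀ᵐ X ∂(PX d μ),
        Tendsto (fun n : ℕ => maxE ψ F t X (c n) n / (n : ℝ) ^ d) atTop (𝓝 (g t))) ∧
      ∀ ε : ℝ, 0 < ε → ∃ δ : ℝ, 0 < δ ∧ ∀ c : ℕ → Site d, ∀ᵐ X ∂(PX d μ), ∀ᶠ n : ℕ in atTop,
        (∀ σ : Cfg d k, NearOptAt ψ F 0 δ X (c n) n σ → |En F X (cube (c n) n) σ| ≤ ε * (n : ℝ) ^ d) ∧
        ∀ (J' : Fin k → Bond d → ℝ) (σ : Cfg d k), (∀ a, CubeGS (J' a) (c n) n (σ a)) →
          (∀ a, ∑ e ∈ cube (fun i => c n i - 1) (n + 1) ×ˢ (Finset.univ : Finset (Fin d)),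
            |J' a e - ψ (X e)| ≤ δ * (n : ℝ) ^ d) →
          |En F X (cube (c n) n) σ| ≤ ε * (n : ℝ) ^ d

end Pool.Agent.Zk83.SB
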