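import Pool.Agent.Zk83.SB.B1
import Pool.Agent.Zk83.SB.Stm7

/-!
# The energy is differentiable in the direction of odd observables
-/

set_option autoImplicit false

open MeasureTheory ProbabilityTheory Filter Topology

namespace Pool.Agent.Zk83.SB

variable {d : ℕ}

theorem energy (hE : StE) (hH : StH) (hR2 : StR2) (hG2 : StG2) (hd : 2 ≤ d) (μ : Measure ℝ)
    [IsProbabilityMeasure μ] (h2 : MemLp (fun s : ℝ => s) 2 μ) (hat : ∀ t, μ {t} = 0)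
    (hsym : μ.map (fun x => -x) = μ) (k R : ℕ) (F : (Bond d → ℝ) → Pool.Agent.Zk58.EK.Cfg d k → ℝ)
    (hloc : Pool.Agent.Zk58.EK.IsLocal R F) (hmeas : ∀ σ, Measurable fun X => F X σ)
    (hbd : ∀ X σ, |F X σ| ≤ 1) (hodd : ∀ X σ, F X (fun a x => -σ a x) = -F X σ) :
    ∃ g : ℝ → ℝ, ConvexOn ℝ Set.univ g ∧ HasDerivAt g 0 0 ∧
      (∀ (t : ℝ) (c : ℕ → Site d), ∀ᵐ X ∂(Pool.Agent.Zk58.EK.PX d μ),
        Tendsto (fun n : ℕ => Pool.Agent.Zk58.EK.maxE (fun s : ℝ => s) F t X (c n) n / (n : ℝ) ^ d)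
          atTop (𝓝 (g t))) ∧
      ∀ ε : ℝ, 0 < ε → ∃ δ : ℝ, 0 < δ ∧ ∀ c : ℕ → Site d, ∀ᵐ X ∂(Pool.Agent.Zk58.EK.PX d μ),
        ∀ᶠ n : ℕ in atTop,
        (∀ σ : Pool.Agent.Zk58.EK.Cfg d k,
          Pool.Agent.Zk58.EK.NearOptAt (fun s : ℝ => s) F 0 δ X (c n) n σ →
            |Pool.Agent.Zk58.EK.En F X (Pool.Agent.Zk58.EK.cube (c n) n) σ| ≤ ε * (n : ℝ) ^ d) ∧
        ∀ (J' : Fin k → Bond d → ℝ) (σ : Pool.Agent.Zk58.EK.Cfg d k),
          (∀ a, Pool.Agent.Zk58.EK.CubeGS (J' a) (c n) n (σ a)) →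
          (∀ a, ∑ e ∈ Pool.Agent.Zk58.EK.cube (fun i => c n i - 1) (n + 1) ×ˢ (Finset.univ : Finset (Fin d)),
            |J' a e - X e| ≤ δ * (n : ℝ) ^ d) →
          |Pool.Agent.Zk58.EK.En F X (Pool.Agent.Zk58.EK.cube (c n) n) σ| ≤ ε * (n : ℝ) ^ d := by
  have hgood : Pool.Agent.Zk58.EK.Good μ R F := by
    refine ⟨hloc, fun σ _ => hmeas σ, fun σ _ => ?_⟩
    exact MemLp.of_bound (hmeas σ).aestronglyMeasurable 1
      (Eventually.of_forall fun x => by rw [Real.norm_eq_abs]; exact hbd x σ)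
  have h := hE d hd ℝ μ (fun s : ℝ => s) measurable_id h2 (fun t => by simpa using hat t) k R F hgood
    (zero_avg hH hR2 hG2 (by omega) μ hsym hloc hmeas hbd hodd)
  exact h

end Pool.Agent.Zk83.SB
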