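import Pool.Agent.Zk83.SB.Main

/-!
# Symmetry breaking forces uncountably many ground states: the theorem for kernels
-/

set_option autoImplicit false

open MeasureTheory ProbabilityTheory Filter Topology

namespace Pool.Agent.Zk83.SB

variable {d : ℕ}

/-- a translation invariant set (possibly not measurable) which meets `S` in a set of positive outer measure contains
generic points that visit `S` along the given translations infinitely often -/
lemma exists_point {w : Site d} {P : Measure (Bond d → ℝ)} [IsProbabilityMeasure P] (hP : Inv w P) (A : Set (Bond d → ℝ))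
    (hA : ∀ v J, J ∈ A → mJ v J ∈ A) (S : Set (Bond d → ℝ)) (hS : MeasurableSet S) (hSA : P (A ∩ S) ≠ 0)
    (c : ℕ → ℕ) (Q : (Bond d → ℝ) → Prop) (hQ : ∀ᵐ J ∂P, Q J) :
    ∃ J ∈ A, (∃ᶠ i in atTop, mJ (c i • w) J ∈ S) ∧ Q J := by
  set B := toMeasurable P A with hB
  have hBm : MeasurableSet B := measurableSet_toMeasurable _ _
  have hAB : A ⊆ B := subset_toMeasurable _ _
  have hPB : P B = P A := measure_toMeasurable _
  have hinv : ∀ n : ℕ, (mJ (n • w) ⁻¹' B : Set (Bond d → ℝ)) =ᵐ[P] B := by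
    intro n
    set v := n • w with hvdef
    have hm : MeasurableSet (mJ v ⁻¹' B) := (measurable_mJ v) hBm
    have hv : P (mJ v ⁻¹' B) = P A := by
      rw [hvdef, (hP.mp_move n).measure_preimage hBm.nullMeasurableSet, hPB]
    have hle : P A ≤ P (mJ v ⁻¹' B ∩ B) :=
      measure_mono fun J hJ => ⟨hAB (hA v J hJ), hAB hJ⟩
    have e1 : (mJ v ⁻¹' B ∩ B : Set (Bond d → ℝ)) =ᵐ[P] mJ v ⁻¹' B :=
      ae_eq_of_subset_of_measure_ge Set.inter_subset_left (by rw [hv]; exact hle)
        (hm.inter hBm).nullMeasurableSet (measure_ne_top _ _)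
    have e2 : (mJ v ⁻¹' B ∩ B : Set (Bond d → ℝ)) =ᵐ[P] B :=
      ae_eq_of_subset_of_measure_ge Set.inter_subset_right (by rw [hPB]; exact hle)
        (hm.inter hBm).nullMeasurableSet (measure_ne_top _ _)
    exact e1.symm.trans e2
  set L : Set (Bond d → ℝ) := {J | ∃ᶠ i in atTop, mJ (c i • w) J ∈ S} with hL
  have hLeq : L = ⋂ n : ℕ, ⋃ i : ℕ, ⋃ (_ : n ≤ i), mJ (c i • w) ⁻¹' S := by
    ext J
    simp only [hL, Set.mem_ofPred_eq, Set.mem_iInter, Set.mem_iUnion, Set.mem_preimage, exists_prop,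
      frequently_atTop]
  have hLm : MeasurableSet L := by
    rw [hLeq]
    exact MeasurableSet.iInter fun n => MeasurableSet.iUnion fun i => MeasurableSet.iUnion fun _ =>
      (measurable_mJ _) hS
  have hsi : ∀ i, P (B ∩ mJ (c i • w) ⁻¹' S) = P (A ∩ S) := by
    intro i
    have h1 : P (B ∩ mJ (c i • w) ⁻¹' S) = P (mJ (c i • w) ⁻¹' B ∩ mJ (c i • w) ⁻¹' S) :=
      measure_congr ((hinv (c i)).symm.inter (ae_eq_refl _))
    rw [h1, ← Set.preimage_inter, (hP.mp_move _).measure_preimage (hBm.inter hS).nullMeasurableSet]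
    exact Measure.measure_toMeasurable_inter hS (measure_ne_top _ _)
  have hBL : P (A ∩ S) ≤ P (B ∩ L) := by
    set t : ℕ → Set (Bond d → ℝ) := fun n => B ∩ ⋃ i : ℕ, ⋃ (_ : n ≤ i), mJ (c i • w) ⁻¹' S with ht
    have htm : ∀ n, MeasurableSet (t n) := fun n => hBm.inter (MeasurableSet.iUnion fun i =>
      MeasurableSet.iUnion fun _ => (measurable_mJ _) hS)
    have hanti : Antitone t := by
      intro m n hmn J hJ
      refine ⟨hJ.1, ?_⟩
      have h2 := hJ.2
      simp only [Set.mem_iUnion, exists_prop] at h2 ⊢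
      obtain ⟨i, hi, h⟩ := h2
      exact ⟨i, hmn.trans hi, h⟩
    have hlim := tendsto_measure_iInter_atTop (μ := P) (fun n => (htm n).nullMeasurableSet) hanti
      ⟨0, measure_ne_top _ _⟩
    have hint : (⋂ n, t n) = B ∩ L := by
      rw [hLeq]
      ext J
      simp only [ht, Set.mem_iInter, Set.mem_inter_iff]
      constructor
      · intro h
        exact ⟨(h 0).1, fun n => (h n).2⟩
      · intro h n
        exact ⟨h.1, h.2 n⟩
    rw [hint] at hlim
    refine ge_of_tendsto' hlim fun n => ?_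
    rw [← hsi n]
    refine measure_mono fun J hJ => ⟨hJ.1, ?_⟩
    simp only [Set.mem_iUnion, exists_prop]
    exact ⟨n, le_refl n, hJ.2⟩
  have hAL : P (A ∩ L) ≠ 0 := by
    rw [← Measure.measure_toMeasurable_inter hLm (measure_ne_top P A)]
    intro h0
    rw [← hB] at h0
    exact hSA (le_antisymm (hBL.trans h0.le) zero_le)
  by_contra hno
  push Not at hno
  apply hAL
  have hsub : A ∩ L ⊆ {J | ¬ Q J} := fun J hJ => hno J hJ.1 hJ.2
  exact measure_mono_null hsub hQ

lemma cov_nsmul {w : Site d} {P : Measure (Bond d → ℝ)} [IsProbabilityMeasure P] (hP : Inv w P)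
    (κ : Kernel (Bond d → ℝ) (Site d → ℝ)) [IsMarkovKernel κ]
    (hcov1 : ∀ᵐ J ∂P, κ (mJ w J) = (κ J).map (mS w)) (n : ℕ) :
    ∀ᵐ J ∂P, κ (mJ (n • w) J) = (κ J).map (mS (n • w)) := by
  induction n with
  | zero =>
    refine Eventually.of_forall fun J => ?_
    have : (mS ((0 : ℕ) • w) : (Site d → ℝ) → (Site d → ℝ)) = id := by
      funext σ
      rw [zero_smul, mS_zero, id]
    rw [this, Measure.map_id, zero_smul, mJ_zero]
  | succ n ih =>
    have h1 := hP.mp_move1.quasiMeasurePreserving.ae ih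
    filter_upwards [h1, hcov1] with J h1 h2
    rw [mJ_mJ, ← succ_nsmul] at h1
    rw [h1, h2, Measure.map_map (measurable_mS _) (measurable_mS _)]
    congr 1
    funext σ
    rw [Function.comp_apply, mS_mS, ← succ_nsmul]

/-- **Theorem for kernels.** -/
theorem core (hB : StB) (hC : StC) (hI : StI) {w : Site d} (hw : w ≠ 0) {P : Measure (Bond d → ℝ)}
    [IsProbabilityMeasure P] (hP : Inv w P) (κ : Kernel (Bond d → ℝ) (Site d → ℝ)) [IsMarkovKernel κ]
    (hcov1 : ∀ᵐ J ∂P, κ (mJ w J) = (κ J).map (mS w))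
    (hgs : ∀ᵐ J ∂P, ∀ᵐ σ ∂(κ J), IsGroundState J σ) :
    ∀ᵐ J ∂P, (GS J).Countable → (κ J).map (fun σ => -σ) = κ J := by
  have hcov := cov_nsmul hP κ hcov1
  by_contra hno
  rw [ae_iff] at hno
  -- one window and one number
  have hex : ∃ (W : Finset (Site d)) (k : ℕ),
      P ({J | (GS J).Countable} ∩ {J | 3 * (1 / ((k : ℝ) + 1)) < |fC κ W 1 J - fC κ W (-1) J|}) ≠ 0 := by
    by_contra h0
    push Not at h0
    apply hno
    have hsub : {J | ¬ ((GS J).Countable → (κ J).map (fun σ => -σ) = κ J)} ⊆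
        {J | ¬ ∀ᵐ σ ∂(κ J), IsGroundState J σ} ∪ ⋃ W : Finset (Site d), ⋃ k : ℕ,
          ({J | (GS J).Countable} ∩ {J | 3 * (1 / ((k : ℝ) + 1)) < |fC κ W 1 J - fC κ W (-1) J|}) := by
      intro J hJ
      simp only [Set.mem_ofPred_eq] at hJ
      push Not at hJ
      by_cases hg : ∀ᵐ σ ∂(κ J), IsGroundState J σ
      · right
        have hne : ¬ ∀ W : Finset (Site d), (κ J) {σ | ∀ x ∈ W, σ x = 1} = (κ J) {σ | ∀ x ∈ W, σ x = -1} := by
          intro hall
          exact hJ.2 (hC (Site d) (κ J) (by filter_upwards [hg] with σ hσ using hσ.1) hall)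
        push Not at hne
        obtain ⟨W, hW⟩ := hne
        have hne2 : fC κ W 1 J - fC κ W (-1) J ≠ 0 := by
          intro h
          apply hW
          have h2 : (κ J).real (Cyl W 1) = (κ J).real (Cyl W (-1)) := sub_eq_zero.1 h
          exact (measureReal_eq_measureReal_iff (measure_ne_top _ _) (measure_ne_top _ _)).1 h2
        have hpos := abs_pos.2 hne2
        obtain ⟨k, hk⟩ := exists_nat_one_div_lt (div_pos hpos (by norm_num : (0 : ℝ) < 3))
        simp only [Set.mem_iUnion]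
        refine ⟨W, k, hJ.1, ?_⟩
        simp only [Set.mem_ofPred_eq]
        rw [lt_div_iff₀ (by norm_num)] at hk
        linarith
      · left
        exact hg
    refine measure_mono_null hsub (measure_union_null hgs ?_)
    exact measure_iUnion_null fun W => measure_iUnion_null fun k => h0 W k
  obtain ⟨W, k, hWk⟩ := hex
  set η : ℝ := 1 / ((k : ℝ) + 1) with hη
  have hηpos : 0 < η := by positivity
  obtain ⟨R1, hR1⟩ := close hB hw hP (fC κ W 1) (measurable_fC κ W 1) (fC_01 κ W 1)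
  obtain ⟨R2, hR2⟩ := close hB hw hP (fC κ W (-1)) (measurable_fC κ W (-1)) (fC_01 κ W (-1))
  obtain ⟨R3, hR3⟩ := finset_subset_ball W
  set r : ℕ → ℕ := fun i => R1 i + R2 i + R3 + 1 with hr
  have hc1 := hR1 r (fun i => by simp only [hr]; omega) η hηpos
  have hc2 := hR2 r (fun i => by simp only [hr]; omega) η hηpos
  have hW : ∀ i, ∀ x ∈ W, x ∈ ball (0 : Site d) (r i) := fun i x hx =>
    ball_mono (by simp only [hr]; omega) (hR3 x hx)
  have hgood : ∀ᵐ J ∂P, (∀ᵐ σ ∂(κ J), IsGroundState J σ) ∧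
      ∀ i, κ (mJ (ctr w r i) J) = (κ J).map (mS (ctr w r i)) :=
    hgs.and (ae_all_iff.2 fun i => hcov _)
  have hfl := flips hP hgood r
  have hSm : MeasurableSet {J | 3 * η < |fC κ W 1 J - fC κ W (-1) J|} :=
    measurableSet_lt measurable_const ((measurable_fC κ W 1).sub (measurable_fC κ W (-1))).abs
  obtain ⟨J, hJA, hJf, h1, h2, h3⟩ := exists_point hP {J | (GS J).Countable}
    (fun v J hJ => countable_move v hJ) _ hSm hWk (pos r) _ (hc1.and (hc2.and hfl))
  refine contra hI W hηpos hw r hW J hJA hJf ?_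
  filter_upwards [h1, h2, h3] with U h1 h2 h3
  exact ⟨h3, h1, h2⟩

end Pool.Agent.Zk83.SB
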