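import Pool.Agent.Zk83.SB.Core

/-!
# Joint laws of couplings and ground states
-/

set_option autoImplicit false

open MeasureTheory ProbabilityTheory Filter Topology
open scoped ENNReal

namespace Pool.Agent.Zk83.SB

variable {d : ℕ}

lemma fst_eq {P : Measure (Bond d → ℝ)} (Q : Measure ((Bond d → ℝ) × (Site d → ℝ))) (h1 : Q.map Prod.fst = P) :
    Q.fst = P := h1

lemma apply_eq {P : Measure (Bond d → ℝ)} [IsProbabilityMeasure P]
    (Q : Measure ((Bond d → ℝ) × (Site d → ℝ))) [IsProbabilityMeasure Q] (h1 : Q.map Prod.fst = P)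
    {s : Set ((Bond d → ℝ) × (Site d → ℝ))} (hs : MeasurableSet s) :
    Q s = ∫⁻ J, Q.condKernel J {σ | (J, σ) ∈ s} ∂P := by
  conv_lhs => rw [← Q.disintegrate Q.condKernel]
  rw [Measure.compProd_apply hs, fst_eq Q h1]
  rfl

/-- the conditional law of the ground state is covariant -/
lemma cond_cov {v : Site d} {P : Measure (Bond d → ℝ)} [IsProbabilityMeasure P] (hP : Inv v P)
    (Q : Measure ((Bond d → ℝ) × (Site d → ℝ))) [IsProbabilityMeasure Q] (h1 : Q.map Prod.fst = P)
    (hinv : Q.map (fun p => (mJ v p.1, mS v p.2)) = Q) :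
    ∀ᵐ J ∂P, Q.condKernel (mJ v J) = (Q.condKernel J).map (mS v) := by
  set κ := Q.condKernel with hκ
  set κ' : Kernel (Bond d → ℝ) (Site d → ℝ) := (κ.comap (mJ (-v)) (measurable_mJ (-v))).map (mS v) with hκ'
  have : IsMarkovKernel κ' := Kernel.IsMarkovKernel.map _ (measurable_mS v)
  have hκ'a : ∀ J, κ' J = (κ (mJ (-v) J)).map (mS v) := by
    intro J
    rw [hκ', Kernel.map_apply _ (measurable_mS v), Kernel.comap_apply]
  have key : Q = Q.fst ⊗ₘ κ' := by
    ext s hs
    have hmv : Measurable fun p : (Bond d → ℝ) × (Site d → ℝ) => (mJ v p.1, mS v p.2) := by fun_prop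
    have hL : Q s = ∫⁻ J, κ J {σ | (mJ v J, mS v σ) ∈ s} ∂P := by
      conv_lhs => rw [← hinv]
      rw [Measure.map_apply hmv hs, apply_eq Q h1 (hmv hs)]
      rfl
    rw [hL, Measure.compProd_apply hs, fst_eq Q h1]
    have hg : Measurable fun J => κ' J (Prod.mk J ⁻¹' s) := Kernel.measurable_kernel_prodMk_left hs
    rw [← hP.mp_move1.lintegral_comp hg]
    refine lintegral_congr fun J => ?_
    rw [hκ'a, mJ_mJ, neg_add_cancel, mJ_zero, Measure.map_apply (measurable_mS v) (measurable_prodMk_left hs)]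
    rfl
  have hae := eq_condKernel_of_measure_eq_compProd κ' key
  rw [fst_eq Q h1] at hae
  have hae2 := hP.mp_move1.quasiMeasurePreserving.ae hae
  filter_upwards [hae2] with J hJ
  rw [← hJ, hκ'a, mJ_mJ, neg_add_cancel, mJ_zero]

lemma cond_gs {P : Measure (Bond d → ℝ)} [IsProbabilityMeasure P]
    (Q : Measure ((Bond d → ℝ) × (Site d → ℝ))) [IsProbabilityMeasure Q] (h1 : Q.map Prod.fst = P)
    (hgs : ∀ᵐ p ∂Q, IsGroundState p.1 p.2) :
    ∀ᵐ J ∂P, ∀ᵐ σ ∂(Q.condKernel J), IsGroundState J σ := by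
  have h : ∀ᵐ p ∂(Q.fst ⊗ₘ Q.condKernel), IsGroundState p.1 p.2 := by
    rw [Q.disintegrate Q.condKernel]; exact hgs
  have := Measure.ae_ae_of_ae_compProd h
  rwa [fst_eq Q h1] at this

/-- flip invariance of the conditional laws -/
lemma cond_flip (hB : StB) (hC : StC) (hI : StI) {w : Site d} (hw : w ≠ 0) {P : Measure (Bond d → ℝ)} [IsProbabilityMeasure P]
    (hP : Inv w P) (hcount : ∀ᵐ J ∂P, (GS J).Countable)
    (Q : Measure ((Bond d → ℝ) × (Site d → ℝ))) [IsProbabilityMeasure Q] (h1 : Q.map Prod.fst = P)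
    (hinv : Q.map (fun p => (mJ w p.1, mS w p.2)) = Q) (hgs : ∀ᵐ p ∂Q, IsGroundState p.1 p.2) :
    ∀ᵐ J ∂P, (Q.condKernel J).map (fun σ => -σ) = Q.condKernel J := by
  have h := core hB hC hI hw hP Q.condKernel (cond_cov hP Q h1 hinv) (cond_gs Q h1 hgs)
  filter_upwards [h, hcount] with J h h' using h h'

theorem joint (hB : StB) (hC : StC) (hI : StI) {w : Site d} (hw : w ≠ 0) {P : Measure (Bond d → ℝ)} [IsProbabilityMeasure P]
    (hP : Inv w P) (hcount : ∀ᵐ J ∂P, (GS J).Countable)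
    (Q : Measure ((Bond d → ℝ) × (Site d → ℝ))) [IsProbabilityMeasure Q] (h1 : Q.map Prod.fst = P)
    (hinv : Q.map (fun p => (mJ w p.1, mS w p.2)) = Q) (hgs : ∀ᵐ p ∂Q, IsGroundState p.1 p.2) :
    Q.map (fun p => (p.1, -p.2)) = Q := by
  have hflip := cond_flip hB hC hI hw hP hcount Q h1 hinv hgs
  ext s hs
  have hm : Measurable fun p : (Bond d → ℝ) × (Site d → ℝ) => (p.1, -p.2) := by fun_prop
  rw [Measure.map_apply hm hs, apply_eq Q h1 (hm hs), apply_eq Q h1 hs]
  refine lintegral_congr_ae ?_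
  filter_upwards [hflip] with J hJ
  have h2 : MeasurableSet {σ : Site d → ℝ | (J, σ) ∈ s} := measurable_prodMk_left hs
  have hn : Measurable fun σ : Site d → ℝ => -σ := by fun_prop
  calc Q.condKernel J {σ | (J, σ) ∈ (fun p : (Bond d → ℝ) × (Site d → ℝ) => (p.1, -p.2)) ⁻¹' s}
      = (Q.condKernel J).map (fun σ => -σ) {σ | (J, σ) ∈ s} := by
        rw [Measure.map_apply hn h2]; rfl
    _ = Q.condKernel J {σ | (J, σ) ∈ s} := by rw [hJ]

/-- a flip invariant law on a pair -/
lemma pair_law (ν : Measure (Site d → ℝ)) [IsProbabilityMeasure ν] (σ : Site d → ℝ) (hne : σ ≠ -σ)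
    (hs : ∀ᵐ τ ∂ν, τ = σ ∨ τ = -σ) (hf : ν.map (fun σ => -σ) = ν) :
    ν = (1 / 2 : ℝ≥0∞) • Measure.dirac σ + (1 / 2 : ℝ≥0∞) • Measure.dirac (-σ) := by
  have hn : Measurable fun σ : Site d → ℝ => -σ := by fun_prop
  have hab : ν {-σ} = ν {σ} := by
    conv_lhs => rw [← hf]
    rw [Measure.map_apply hn (measurableSet_singleton _)]
    congr 1
    ext τ
    simp
  have h1 : ν = ν.restrict ({σ} ∪ {-σ}) := by
    symm
    refine Measure.restrict_eq_self_of_ae_mem ?_
    filter_upwards [hs] with τ hτ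
    exact hτ
  have hdisj : Disjoint ({σ} : Set (Site d → ℝ)) {-σ} := by
    rw [Set.disjoint_singleton]; exact hne
  have h2 : ν = ν {σ} • Measure.dirac σ + ν {-σ} • Measure.dirac (-σ) := by
    conv_lhs => rw [h1, Measure.restrict_union hdisj (measurableSet_singleton _),
      Measure.restrict_singleton, Measure.restrict_singleton]
  have h3 : ν {σ} + ν {σ} = 1 := by
    have := congrArg (fun m : Measure (Site d → ℝ) => m Set.univ) h2
    simp only [Measure.coe_add, Measure.coe_smul, Pi.add_apply, Pi.smul_apply, measure_univ, smul_eq_mul,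
      mul_one] at this
    rw [hab] at this
    exact this.symm
  have h4 : ν {σ} = 1 / 2 := by
    rw [← two_mul] at h3
    rw [ENNReal.eq_div_iff (by norm_num) (by norm_num)]
    exact h3
  rw [hab, h4] at h2
  exact h2

theorem unique_law (hB : StB) (hC : StC) (hI : StI) {w : Site d} (hw : w ≠ 0) {P : Measure (Bond d → ℝ)} [IsProbabilityMeasure P]
    (hP : Inv w P) (hone : ∀ᵐ J ∂P, ∃ σ, ∀ τ, IsGroundState J τ → τ = σ ∨ τ = -σ)
    (Q Q' : Measure ((Bond d → ℝ) × (Site d → ℝ))) [IsProbabilityMeasure Q] [IsProbabilityMeasure Q']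
    (h1 : Q.map Prod.fst = P) (h1' : Q'.map Prod.fst = P)
    (hinv : Q.map (fun p => (mJ w p.1, mS w p.2)) = Q)
    (hinv' : Q'.map (fun p => (mJ w p.1, mS w p.2)) = Q')
    (hgs : ∀ᵐ p ∂Q, IsGroundState p.1 p.2) (hgs' : ∀ᵐ p ∂Q', IsGroundState p.1 p.2) : Q = Q' := by
  have hcount : ∀ᵐ J ∂P, (GS J).Countable := by
    filter_upwards [hone] with J ⟨σ, hσ⟩
    refine ((Set.countable_singleton (-σ)).insert σ).mono fun τ hτ => ?_
    exact hσ τ hτ
  have e1 := cond_flip hB hC hI hw hP hcount Q h1 hinv hgs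
  have e2 := cond_flip hB hC hI hw hP hcount Q' h1' hinv' hgs'
  have g1 := cond_gs Q h1 hgs
  have g2 := cond_gs Q' h1' hgs'
  have hk : ∀ᵐ J ∂P, Q.condKernel J = Q'.condKernel J := by
    filter_upwards [hone, e1, e2, g1, g2] with J ⟨σ, hσ⟩ e1 e2 g1 g2
    obtain ⟨τ, hτ⟩ := g1.exists
    have hne : σ ≠ -σ := by
      intro h0
      have h3 := congrFun h0 0
      have h4 : σ 0 = 0 := by
        simp only [Pi.neg_apply] at h3
        linarith
      have h5 : τ 0 = 0 := by
        rcases hσ τ hτ with h | h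
        · rw [h, h4]
        · rw [h, Pi.neg_apply, h4, neg_zero]
      rcases hτ.1 0 with h | h <;> rw [h5] at h <;> norm_num at h
    rw [pair_law (Q.condKernel J) σ hne (by filter_upwards [g1] with τ hτ using hσ τ hτ) e1,
      pair_law (Q'.condKernel J) σ hne (by filter_upwards [g2] with τ hτ using hσ τ hτ) e2]
  ext s hs
  rw [apply_eq Q h1 hs, apply_eq Q' h1' hs]
  refine lintegral_congr_ae ?_
  filter_upwards [hk] with J hJ
  rw [hJ]

/-- a measurable covariant choice of a ground state -/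
theorem choice (hB : StB) (hC : StC) (hI : StI) {w : Site d} (hw : w ≠ 0) {P : Measure (Bond d → ℝ)} [IsProbabilityMeasure P]
    (hP : Inv w P) (S : (Bond d → ℝ) → (Site d → ℝ)) (hS : Measurable S)
    (hcov : ∀ᵐ J ∂P, S (mJ w J) = mS w (S J)) (hgs : ∀ᵐ J ∂P, IsGroundState J (S J)) :
    ∀ᵐ J ∂P, ¬ (GS J).Countable := by
  have hmain := core hB hC hI hw hP (Kernel.deterministic S hS) ?_ ?_
  · filter_upwards [hmain, hgs] with J hJ hg hc
    have h0 := hJ hc
    have hn : Measurable fun σ : Site d → ℝ => -σ := by fun_prop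
    rw [Kernel.deterministic_apply, Measure.map_dirac' hn] at h0
    have h1 : -S J = S J := by
      have := congrArg (fun m : Measure (Site d → ℝ) => m {S J}) h0
      by_contra hne
      simp only [Measure.dirac_apply' _ (measurableSet_singleton _), Set.indicator, Set.mem_singleton_iff, hne,
        if_false, if_true, Pi.one_apply] at this
      exact zero_ne_one this
    have h2 := congrFun h1 0
    rcases hg.1 0 with h | h <;> · rw [Pi.neg_apply, h] at h2; norm_num at h2
  · filter_upwards [hcov] with J hJ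
    rw [Kernel.deterministic_apply, Kernel.deterministic_apply, hJ, Measure.map_dirac' (measurable_mS w)]
  · filter_upwards [hgs] with J hJ
    rw [Kernel.deterministic_apply]
    rw [ae_dirac_eq]
    exact hJ

end Pool.Agent.Zk83.SB
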