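import Pool.Agent.Zk83.SB.ZZ
import Pool.Agent.Zk83.SB.Joint

/-!
# The dichotomy for iid couplings
-/

set_option autoImplicit false

open MeasureTheory ProbabilityTheory Filter Topology

namespace Pool.Agent.Zk83.SB

variable {d : ℕ}

lemma flip_move (ν : Measure (Site d → ℝ)) (v : Site d) :
    (ν.map (mS v)).map (fun σ => -σ) = ν.map (mS v) ↔ ν.map (fun σ => -σ) = ν := by
  have hn : Measurable fun σ : Site d → ℝ => -σ := by fun_prop
  have hcomm : (ν.map (mS v)).map (fun σ => -σ) = (ν.map (fun σ => -σ)).map (mS v) := by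
    rw [Measure.map_map hn (measurable_mS v), Measure.map_map (measurable_mS v) hn]
    rfl
  have hback : ∀ m : Measure (Site d → ℝ), (m.map (mS v)).map (mS (-v)) = m := by
    intro m
    rw [Measure.map_map (measurable_mS _) (measurable_mS _)]
    have : (mS (-v) ∘ mS v : (Site d → ℝ) → (Site d → ℝ)) = id := by
      funext σ
      rw [Function.comp_apply, mS_mS, neg_add_cancel, mS_zero, id]
    rw [this, Measure.map_id]
  rw [hcomm]
  refine ⟨fun h => ?_, fun h => by rw [h]⟩
  have := congrArg (fun m : Measure (Site d → ℝ) => m.map (mS (-v))) h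
  simp only [hback] at this
  exact this

theorem dichotomy (hB : StB) (hC : StC) (hI : StI) {w : Site d} (hw : w ≠ 0)
    (μ : Measure ℝ) [IsProbabilityMeasure μ] (hsym : μ.map (fun x => -x) = μ)
    (κ : Kernel (Bond d → ℝ) (Site d → ℝ)) [IsMarkovKernel κ]
    (hcov1 : ∀ᵐ J ∂(Measure.infinitePi fun _ : Bond d => μ), κ (mJ w J) = (κ J).map (mS w))
    (hgs : ∀ᵐ J ∂(Measure.infinitePi fun _ : Bond d => μ), ∀ᵐ σ ∂(κ J), IsGroundState J σ) :
    (∀ᵐ J ∂(Measure.infinitePi fun _ : Bond d => μ), (κ J).map (fun σ => -σ) = κ J) ∨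
      ∀ᵐ J ∂(Measure.infinitePi fun _ : Bond d => μ), ¬ (GS J).Countable := by
  set P := Measure.infinitePi fun _ : Bond d => μ with hPdef
  have hP : Inv w P := inv_iid w μ hsym
  have hn : Measurable fun σ : Site d → ℝ => -σ := by fun_prop
  set A : Set (Bond d → ℝ) := ⋃ W : Finset (Site d), {J | fC κ W 1 J ≠ fC κ W (-1) J} with hAdef
  have hAm : MeasurableSet A := by
    refine MeasurableSet.iUnion fun W => ?_
    exact (measurableSet_eq_fun (measurable_fC κ W 1) (measurable_fC κ W (-1))).compl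
  have hA : ∀ᵐ J ∂P, (J ∈ A ↔ ¬ (κ J).map (fun σ => -σ) = κ J) := by
    filter_upwards [hgs] with J hg
    rw [← not_iff_not, not_not]
    constructor
    · intro hJ
      refine hC (Site d) (κ J) (by filter_upwards [hg] with σ hσ using hσ.1) fun W => ?_
      by_contra hne
      apply hJ
      simp only [hAdef, Set.mem_iUnion, Set.mem_ofPred_eq]
      refine ⟨W, fun h => hne ?_⟩
      exact (measureReal_eq_measureReal_iff (measure_ne_top _ _) (measure_ne_top _ _)).1 h
    · intro hf hJ
      simp only [hAdef, Set.mem_iUnion, Set.mem_ofPred_eq] at hJ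
      obtain ⟨W, hW⟩ := hJ
      apply hW
      unfold fC
      rw [measureReal_eq_measureReal_iff (measure_ne_top _ _) (measure_ne_top _ _)]
      conv_lhs => rw [← hf]
      rw [Measure.map_apply hn (measurableSet_Cyl W 1)]
      congr 1
      ext σ
      simp only [Set.mem_preimage, Cyl, Set.mem_ofPred_eq, Pi.neg_apply]
      refine forall₂_congr fun x _ => ?_
      constructor <;> intro h <;> linarith
  have hinv : ∀ n : ℕ, (mJ (n • w) ⁻¹' A : Set (Bond d → ℝ)) =ᵐ[P] A := by
    intro n
    have h2 := (hP.mp_move n).quasiMeasurePreserving.ae hA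
    filter_upwards [hA, h2, cov_nsmul hP κ hcov1 n] with J h1 h2 h3
    have h4 : (mJ (n • w) J ∈ A) = (J ∈ A) := by
      rw [eq_iff_iff, h2, h1, h3, flip_move]
    exact h4
  rcases zero_one hw μ A hAm hinv with h | h
  · left
    have h' : ∀ᵐ J ∂P, J ∉ A := by
      rw [ae_iff]
      simpa using h
    filter_upwards [h', hA] with J h1 h2
    by_contra h3
    exact h1 (h2.2 h3)
  · right
    have h' : ∀ᵐ J ∂P, J ∈ A := by
      rw [ae_iff]
      exact (prob_compl_eq_zero_iff hAm).2 h
    filter_upwards [h', hA, core hB hC hI hw hP κ hcov1 hgs] with J h1 h2 h3 h4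
    exact h2.1 h1 (h3 h4)

end Pool.Agent.Zk83.SB
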