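import Pool.Agent.Zk69.SB.L

/-!
# Limit laws of asymptotic ground states which break the flip symmetry

Adapted from `Pool/Agent/Zk69/SB/L.lean` (helper69): one vector, asymptotic translation invariance.
-/

set_option autoImplicit false

open MeasureTheory ProbabilityTheory Filter Topology
open Pool.Agent.Zk69.SB

namespace Pool.Agent.Zk83.SB

/-- limit laws (adapted from `Zk69.SB.t_L`) -/
theorem limit_law (hK : StK) (d : ℕ) (Vs : Set (Site d)) (P : Measure (Bond d → ℝ)) [IsProbabilityMeasure P]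
    (Q : ℕ → Measure ((Bond d → ℝ) × (Site d → ℝ))) (hQ : ∀ n, IsProbabilityMeasure (Q n))
    (h1 : ∀ f : BoundedContinuousFunction (Bond d → ℝ) ℝ,
      Tendsto (fun n => ∫ p, f p.1 ∂(Q n)) atTop (𝓝 (∫ J, f J ∂P)))
    (hinv : ∀ v ∈ Vs, ∀ f : BoundedContinuousFunction ((Bond d → ℝ) × (Site d → ℝ)) ℝ,
      Tendsto (fun n => ∫ p, f (mJ v p.1, mS v p.2) ∂(Q n) - ∫ p, f p ∂(Q n)) atTop (𝓝 0))
    (hsg : ∀ n, ∀ᵐ p ∂(Q n), ∀ x, p.2 x = 1 ∨ p.2 x = -1)
    (hcost : ∀ A : Finset (Site d), ∀ δ : ℝ, 0 < δ →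
      Tendsto (fun n => (Q n).real {p | cost p.1 p.2 A < -δ}) atTop (𝓝 0))
    (g : BoundedContinuousFunction ((Bond d → ℝ) × (Site d → ℝ)) ℝ)
    (hg : ¬ Tendsto (fun n => ∫ p, g p ∂(Q n) - ∫ p, g (p.1, -p.2) ∂(Q n)) atTop (𝓝 0)) :
    ∃ K : Measure ((Bond d → ℝ) × (Site d → ℝ)), IsProbabilityMeasure K ∧ K.map Prod.fst = P ∧
      (∀ v ∈ Vs, K.map (fun p => (mJ v p.1, mS v p.2)) = K) ∧
      (∀ᵐ p ∂K, ∀ x, p.2 x = 1 ∨ p.2 x = -1) ∧ (∀ᵐ p ∂K, ∀ A : Finset (Site d), 0 ≤ cost p.1 p.2 A) ∧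
      ∫ p, g p ∂K ≠ ∫ p, g (p.1, -p.2) ∂K := by
  -- a subsequence without convergence
  obtain ⟨c, hc, φ, hφ, hD⟩ : ∃ c : ℝ, 0 < c ∧ ∃ φ : ℕ → ℕ, StrictMono φ ∧ ∀ k,
      c ≤ |∫ p, g p ∂(Q (φ k)) - ∫ p, g (p.1, -p.2) ∂(Q (φ k))| := by
    rw [Metric.tendsto_atTop] at hg
    push Not at hg
    obtain ⟨c, hc, h⟩ := hg
    obtain ⟨φ, hφ, h'⟩ := Filter.extraction_of_frequently_atTop
      (P := fun n => c ≤ dist (∫ p, g p ∂(Q n) - ∫ p, g (p.1, -p.2) ∂(Q n)) 0)
      (Filter.frequently_atTop.2 fun N => by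
        obtain ⟨n, hn, h2⟩ := h N
        exact ⟨n, hn, h2⟩)
    refine ⟨c, hc, φ, hφ, fun k => ?_⟩
    have := h' k
    rwa [Real.dist_eq, sub_zero] at this
  let Pp : ProbabilityMeasure (Bond d → ℝ) := ⟨P, inferInstance⟩
  let Qp : ℕ → ProbabilityMeasure ((Bond d → ℝ) × (Site d → ℝ)) := fun n => ⟨Q n, hQ n⟩
  have hQp : ∀ n, ((Qp n : ProbabilityMeasure _) : Measure ((Bond d → ℝ) × (Site d → ℝ))) = Q n :=
    fun _ => rfl
  have h1' : Tendsto (fun n => (Qp n).map (f := Prod.fst) measurable_fst.aemeasurable) atTop (𝓝 Pp) := by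
    rw [ProbabilityMeasure.tendsto_iff_forall_integral_tendsto]
    intro f
    have h3 : ∀ n, ∫ x, f x ∂(((Qp n).map (f := Prod.fst) measurable_fst.aemeasurable :
        ProbabilityMeasure (Bond d → ℝ)) : Measure (Bond d → ℝ)) = ∫ p, f p.1 ∂(Q n) := by
      intro n
      rw [ProbabilityMeasure.toMeasure_map, integral_map measurable_fst.aemeasurable
        f.continuous.measurable.aestronglyMeasurable]
      rfl
    simp only [h3]
    exact h1 f
  let C : Set (Site d → ℝ) := {σ | ∀ x, σ x = 1 ∨ σ x = -1}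
  have hCe : C = Set.pi Set.univ (fun _ => ({1, -1} : Set ℝ)) := by
    ext σ
    simp [C, Set.mem_pi]
  have hCc : IsCompact C := by
    rw [hCe]
    exact isCompact_univ_pi fun _ => (Set.toFinite _).isCompact
  have h2 : ∀ n, ((Qp n : ProbabilityMeasure _) : Measure ((Bond d → ℝ) × (Site d → ℝ)))
      (Prod.snd ⁻¹' Cᶜ) = 0 := by
    intro n
    rw [hQp]
    exact ae_iff.1 (hsg n)
  obtain ⟨K, ψ, hψ, hlim⟩ := seq_limit Pp Qp h1' C hCc h2 φ
  have hsub : StrictMono (fun k => φ (ψ k)) := hφ.comp hψ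
  have hint : ∀ f : BoundedContinuousFunction ((Bond d → ℝ) × (Site d → ℝ)) ℝ,
      Tendsto (fun k => ∫ p, f p ∂(Q (φ (ψ k)))) atTop
        (𝓝 (∫ p, f p ∂(K : Measure ((Bond d → ℝ) × (Site d → ℝ))))) := by
    intro f
    exact (ProbabilityMeasure.tendsto_iff_forall_integral_tendsto.1 hlim) f
  refine ⟨K, inferInstance, ?_, ?_, ?_, ?_, ?_⟩
  · -- the first marginal
    have : IsProbabilityMeasure ((K : Measure ((Bond d → ℝ) × (Site d → ℝ))).map Prod.fst) :=
      Measure.isProbabilityMeasure_map measurable_fst.aemeasurable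
    refine ext_of_forall_integral_eq_of_IsFiniteMeasure fun f => ?_
    rw [integral_map measurable_fst.aemeasurable f.continuous.measurable.aestronglyMeasurable]
    have h3 := hint (f.compContinuous ⟨Prod.fst, continuous_fst⟩)
    have h4 := (h1 f).comp hsub.tendsto_atTop
    exact tendsto_nhds_unique h3 h4
  · -- translation invariance
    intro v hv
    have hcm : Continuous (fun p : (Bond d → ℝ) × (Site d → ℝ) => (mJ v p.1, mS v p.2)) := by
      unfold mJ mS
      fun_prop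
    have : IsProbabilityMeasure ((K : Measure ((Bond d → ℝ) × (Site d → ℝ))).map
        (fun p => (mJ v p.1, mS v p.2))) :=
      Measure.isProbabilityMeasure_map hcm.measurable.aemeasurable
    refine ext_of_forall_integral_eq_of_IsFiniteMeasure fun f => ?_
    rw [integral_map hcm.measurable.aemeasurable f.continuous.measurable.aestronglyMeasurable]
    have h3 := hint (f.compContinuous ⟨_, hcm⟩)
    have h4 := hint f
    have h5 := (hinv v hv f).comp hsub.tendsto_atTop
    exact sub_eq_zero.1 (tendsto_nhds_unique (h3.sub h4) h5)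
  · -- signs
    have hcl : IsClosed (Prod.snd ⁻¹' C : Set ((Bond d → ℝ) × (Site d → ℝ))) :=
      hCc.isClosed.preimage continuous_snd
    have h3 := ProbabilityMeasure.limsup_measure_closed_le_of_tendsto hlim hcl
    have h4 : ∀ k, (Q (φ (ψ k))) (Prod.snd ⁻¹' C) = 1 := by
      intro k
      have := hQ (φ (ψ k))
      rw [← prob_compl_eq_zero_iff hcl.measurableSet]
      exact h2 (φ (ψ k))
    have h5 : (K : Measure ((Bond d → ℝ) × (Site d → ℝ))) (Prod.snd ⁻¹' C) = 1 := by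
      refine le_antisymm prob_le_one ?_
      refine le_trans ?_ h3
      have h6 : (fun k => ((Qp (φ (ψ k)) : ProbabilityMeasure _) :
          Measure ((Bond d → ℝ) × (Site d → ℝ))) (Prod.snd ⁻¹' C)) = fun _ => 1 := funext h4
      rw [h6, limsup_const]
    have h7 := (prob_compl_eq_zero_iff hcl.measurableSet).2 h5
    exact ae_iff.2 h7
  · -- the cost
    rw [ae_all_iff]
    intro A
    have hm : ∀ m : ℕ, ∀ᵐ p ∂(K : Measure ((Bond d → ℝ) × (Site d → ℝ))),
        -(1 / ((m : ℝ) + 1)) ≤ cost p.1 p.2 A := by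
      intro m
      have hpos : (0 : ℝ) < 1 / ((m : ℝ) + 1) := by positivity
      have hop : IsOpen {p : (Bond d → ℝ) × (Site d → ℝ) | cost p.1 p.2 A < -(1 / ((m : ℝ) + 1))} :=
        isOpen_lt (hK d A) continuous_const
      have h3 := ProbabilityMeasure.le_liminf_measure_open_of_tendsto hlim hop
      have h4 : Tendsto (fun k => (Q (φ (ψ k)))
          {p : (Bond d → ℝ) × (Site d → ℝ) | cost p.1 p.2 A < -(1 / ((m : ℝ) + 1))}) atTop (𝓝 0) := by
        have h5 := ENNReal.tendsto_ofReal ((hcost A _ hpos).comp hsub.tendsto_atTop)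
        rw [ENNReal.ofReal_zero] at h5
        refine h5.congr fun k => ?_
        have := hQ (φ (ψ k))
        simp only [Function.comp]
        rw [ofReal_measureReal]
      have h6 : (K : Measure ((Bond d → ℝ) × (Site d → ℝ)))
          {p | cost p.1 p.2 A < -(1 / ((m : ℝ) + 1))} = 0 := by
        refine le_antisymm (h3.trans ?_) zero_le
        exact h4.liminf_eq.le
      rw [ae_iff]
      simpa only [not_le] using h6
    filter_upwards [ae_all_iff.2 hm] with p hp
    by_contra hneg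
    push Not at hneg
    obtain ⟨m, hm'⟩ := exists_nat_one_div_lt (neg_pos.2 hneg)
    have := hp m
    linarith
  · -- the symmetry is broken
    have hcf : Continuous (fun p : (Bond d → ℝ) × (Site d → ℝ) => (p.1, -p.2)) := by fun_prop
    have h3 := hint g
    have h4 := hint (g.compContinuous ⟨_, hcf⟩)
    have h5 := (h3.sub h4).abs
    have h6 : c ≤ |∫ p, g p ∂(K : Measure ((Bond d → ℝ) × (Site d → ℝ))) -
        ∫ p, g (p.1, -p.2) ∂(K : Measure ((Bond d → ℝ) × (Site d → ℝ)))| :=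
      ge_of_tendsto' h5 fun k => hD (ψ k)
    intro h7
    rw [h7, sub_self, abs_zero] at h6
    linarith

end Pool.Agent.Zk83.SB
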