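import Pool.Agent.Zk83.SB.Sym

/-!
# Statements of the modules on limits (asymptotic ground states)
-/

set_option autoImplicit false

open MeasureTheory ProbabilityTheory Filter Topology

namespace Pool.Agent.Zk83.SB

/-- the configuration `σ` with the spins in `A` flipped -/
def flipOn {d : ℕ} (A : Finset (Site d)) (σ : Site d → ℝ) : Site d → ℝ := fun x => if x ∈ A then -σ x else σ x

/-- the increase of the energy when the spins in `A` are flipped -/
noncomputable def cost {d : ℕ} (J : Bond d → ℝ) (σ : Site d → ℝ) (A : Finset (Site d)) : ℝ :=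
  ∑ᶠ e : Bond d, J e * (σ e.1 * σ (tip e) - flipOn A σ e.1 * flipOn A σ (tip e))

/-- For iid atomless couplings no change at finitely many sites leaves the energy unchanged. -/
def StN : Prop :=
  ∀ (d : ℕ), 1 ≤ d → ∀ (μ : Measure ℝ) [IsProbabilityMeasure μ], (∀ x, μ {x} = 0) →
    ∀ᵐ J ∂(Measure.infinitePi fun _ : Bond d => μ), ∀ σ : Site d → ℝ, (∀ x, σ x = 1 ∨ σ x = -1) →
      (∀ A : Finset (Site d), 0 ≤ cost J σ A) → IsGroundState J σ

/-- the cost is a continuous function of couplings and configuration -/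
def StK : Prop :=
  ∀ (d : ℕ) (A : Finset (Site d)), Continuous fun p : (Bond d → ℝ) × (Site d → ℝ) => cost p.1 p.2 A

/-- A limit law of asymptotic ground states which breaks the flip symmetry, if there is no convergence. -/
def StL : Prop :=
  ∀ (d : ℕ) (P : Measure (Bond d → ℝ)) [IsProbabilityMeasure P]
    (Q : ℕ → Measure ((Bond d → ℝ) × (Site d → ℝ))), (∀ n, IsProbabilityMeasure (Q n)) →
    (∀ f : BoundedContinuousFunction (Bond d → ℝ) ℝ,
      Tendsto (fun n => ∫ p, f p.1 ∂(Q n)) atTop (𝓝 (∫ J, f J ∂P))) →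
    (∀ n v, (Q n).map (fun p => (mJ v p.1, mS v p.2)) = Q n) →
    (∀ n, ∀ᵐ p ∂(Q n), ∀ x, p.2 x = 1 ∨ p.2 x = -1) →
    (∀ A : Finset (Site d), ∀ δ : ℝ, 0 < δ →
      Tendsto (fun n => (Q n).real {p | cost p.1 p.2 A < -δ}) atTop (𝓝 0)) →
    ∀ g : BoundedContinuousFunction ((Bond d → ℝ) × (Site d → ℝ)) ℝ,
      ¬ Tendsto (fun n => ∫ p, g p ∂(Q n) - ∫ p, g (p.1, -p.2) ∂(Q n)) atTop (𝓝 0) →
      ∃ K : Measure ((Bond d → ℝ) × (Site d → ℝ)), IsProbabilityMeasure K ∧ K.map Prod.fst = P ∧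
        (∀ v, K.map (fun p => (mJ v p.1, mS v p.2)) = K) ∧
        (∀ᵐ p ∂K, ∀ x, p.2 x = 1 ∨ p.2 x = -1) ∧ (∀ᵐ p ∂K, ∀ A : Finset (Site d), 0 ≤ cost p.1 p.2 A) ∧
        ∫ p, g p ∂K ≠ ∫ p, g (p.1, -p.2) ∂K

end Pool.Agent.Zk83.SB
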