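import Pool.Agent.Zk83.SB.Joint
import Pool.Agent.Zk83.SB.Stm2
import Pool.Agent.Zk83.SB.LL

/-!
# Limits: asymptotic ground states do not break the flip symmetry if there are countably many ground states
-/

set_option autoImplicit false

open MeasureTheory ProbabilityTheory Filter Topology
open scoped ENNReal

namespace Pool.Agent.Zk83.SB

variable {d : ℕ}

/-- the cost of the flip of finite sets is asymptotically nonnegative -/
def Asymptotic (Q : ℕ → Measure ((Bond d → ℝ) × (Site d → ℝ))) : Prop :=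
  ∀ A : Finset (Site d), ∀ δ : ℝ, 0 < δ → Tendsto (fun n => (Q n).real {p | cost p.1 p.2 A < -δ}) atTop (𝓝 0)

lemma one_le_of_ne {w : Site d} (hw : w ≠ 0) : 1 ≤ d := by
  obtain ⟨i, -⟩ := Function.ne_iff.1 hw
  exact Nat.succ_le_of_lt i.pos

theorem limits (hB : StB) (hC : StC) (hI : StI) (hN : StN) (hK : StK) {w : Site d} (hw : w ≠ 0)
    (μ : Measure ℝ) [IsProbabilityMeasure μ] (hat : ∀ x, μ {x} = 0) (hsym : μ.map (fun x => -x) = μ)
    (hcount : ∀ᵐ J ∂(Measure.infinitePi fun _ : Bond d => μ), (GS J).Countable)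
    (Q : ℕ → Measure ((Bond d → ℝ) × (Site d → ℝ))) (hQ : ∀ n, IsProbabilityMeasure (Q n))
    (hmarg : ∀ f : BoundedContinuousFunction (Bond d → ℝ) ℝ,
      Tendsto (fun n => ∫ p, f p.1 ∂(Q n)) atTop (𝓝 (∫ J, f J ∂(Measure.infinitePi fun _ : Bond d => μ))))
    (hinv : ∀ f : BoundedContinuousFunction ((Bond d → ℝ) × (Site d → ℝ)) ℝ,
      Tendsto (fun n => ∫ p, f (mJ w p.1, mS w p.2) ∂(Q n) - ∫ p, f p ∂(Q n)) atTop (𝓝 0))
    (hs : ∀ n, ∀ᵐ p ∂(Q n), ∀ x, p.2 x = 1 ∨ p.2 x = -1) (ha : Asymptotic Q)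
    (g : BoundedContinuousFunction ((Bond d → ℝ) × (Site d → ℝ)) ℝ) :
    Tendsto (fun n => ∫ p, g p ∂(Q n) - ∫ p, g (p.1, -p.2) ∂(Q n)) atTop (𝓝 0) := by
  by_contra hno
  obtain ⟨K, hKp, hK1, hKinv, hKs, hKc, hKg⟩ := limit_law hK d {w} _ Q hQ hmarg (fun v hv => by rw [Set.mem_singleton_iff.1 hv]; exact hinv) hs ha g hno
  apply hKg
  have hP := inv_iid w μ hsym
  have hgs : ∀ᵐ p ∂K, IsGroundState p.1 p.2 := by
    have h1 := hN d (one_le_of_ne hw) μ hat
    rw [← hK1] at h1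
    have h2 := ae_of_ae_map measurable_fst.aemeasurable h1
    filter_upwards [h2, hKs, hKc] with p h2 h3 h4 using h2 p.2 h3 h4
  have hj := joint hB hC hI hw hP hcount K hK1 (hKinv w rfl) hgs
  have hm : Measurable fun p : (Bond d → ℝ) × (Site d → ℝ) => (p.1, -p.2) := by fun_prop
  conv_lhs => rw [← hj]
  rw [integral_map hm.aemeasurable g.continuous.aestronglyMeasurable]

/-- vanishing external fields -/
theorem asymptotic_field (Q : ℕ → Measure ((Bond d → ℝ) × (Site d → ℝ)))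
    (ε : ℕ → ℝ) (hε : Tendsto ε atTop (𝓝 0))
    (hs : ∀ n, ∀ᵐ p ∂(Q n), ∀ x, p.2 x = 1 ∨ p.2 x = -1)
    (h : ∀ A : Finset (Site d), ∀ᶠ n in atTop, ∀ᵐ p ∂(Q n), ∃ b : Site d → ℝ, (∀ x, |b x| ≤ ε n) ∧
      0 ≤ cost p.1 p.2 A + 2 * ∑ x ∈ A, b x * p.2 x) : Asymptotic Q := by
  intro A δ hδ
  refine (tendsto_congr' ?_).2 tendsto_const_nhds
  have h1 : Tendsto (fun n => 2 * ((A.card : ℝ) * ε n)) atTop (𝓝 0) := by
    have := (hε.const_mul (A.card : ℝ)).const_mul 2
    simpa using this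
  filter_upwards [h1.eventually (gt_mem_nhds hδ), h A] with n hn hA'
  have h0 : Q n {p | cost p.1 p.2 A < -δ} = 0 := by
    have : ∀ᵐ p ∂(Q n), ¬ (cost p.1 p.2 A < -δ) := by
      filter_upwards [hA', hs n] with p hp hsp
      obtain ⟨b, hb, h2⟩ := hp
      have h3 : ∑ x ∈ A, b x * p.2 x ≤ (A.card : ℝ) * ε n := by
        rw [← nsmul_eq_mul]
        refine Finset.sum_le_card_nsmul _ _ _ fun x _ => ?_
        have h4 := abs_le.1 (hb x)
        rcases hsp x with h5 | h5 <;> rw [h5] <;> linarith [h4.1, h4.2]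
      linarith
    rw [ae_iff] at this
    simpa using this
  rw [measureReal_def, h0, ENNReal.toReal_zero]

/-- The joint law of couplings and spins is a Gibbs law at inverse temperature `β` in the finite set `A`: flipping the
spins in a subset of `A` changes the law by the Boltzmann factor. -/
def IsGibbs (β : ℝ) (A : Finset (Site d)) (Q : Measure ((Bond d → ℝ) × (Site d → ℝ))) : Prop :=
  ∀ B ⊆ A, Q.map (fun p => (p.1, flipOn B p.2)) =
    Q.withDensity fun p => ENNReal.ofReal (Real.exp (-β * cost p.1 p.2 B))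

lemma flipOn_flipOn (A : Finset (Site d)) (σ : Site d → ℝ) : flipOn A (flipOn A σ) = σ := by
  funext x
  unfold flipOn
  split_ifs <;> simp

lemma cost_flip (J : Bond d → ℝ) (σ : Site d → ℝ) (A : Finset (Site d)) :
    cost J (flipOn A σ) A = -cost J σ A := by
  unfold cost
  rw [← finsum_neg_distrib, flipOn_flipOn]
  refine finsum_congr fun e => ?_
  ring

lemma measurable_flipOn (A : Finset (Site d)) : Measurable (flipOn A : (Site d → ℝ) → (Site d → ℝ)) := by
  refine measurable_pi_lambda _ fun x => ?_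
  unfold flipOn
  by_cases hx : x ∈ A
  · simp only [hx, if_true]; fun_prop
  · simp only [hx, if_false]; fun_prop

lemma gibbs_bound (hK : StK) {β : ℝ} (hβ : 0 < β) (Q : Measure ((Bond d → ℝ) × (Site d → ℝ)))
    [IsProbabilityMeasure Q] (A : Finset (Site d)) (hQ : IsGibbs β A Q) {δ : ℝ} :
    Q.real {p | cost p.1 p.2 A < -δ} ≤ Real.exp (-(β * δ)) := by
  set s : Set ((Bond d → ℝ) × (Site d → ℝ)) := {p | cost p.1 p.2 A < -δ} with hs
  have hcm : Measurable fun p : (Bond d → ℝ) × (Site d → ℝ) => cost p.1 p.2 A := (hK d A).measurable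
  have hsm : MeasurableSet s := measurableSet_lt hcm measurable_const
  have hT : Measurable fun p : (Bond d → ℝ) × (Site d → ℝ) => (p.1, flipOn A p.2) :=
    measurable_fst.prodMk ((measurable_flipOn A).comp measurable_snd)
  have h1 : (Q.map (fun p => (p.1, flipOn A p.2))) s ≤ 1 := by
    rw [Measure.map_apply hT hsm]
    exact prob_le_one
  rw [hQ A (Finset.Subset.refl A), withDensity_apply _ hsm] at h1
  have h2 : ENNReal.ofReal (Real.exp (β * δ)) * Q s ≤
      ∫⁻ p in s, ENNReal.ofReal (Real.exp (-β * cost p.1 p.2 A)) ∂Q := by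
    rw [← setLIntegral_const]
    refine setLIntegral_mono' hsm fun p hp => ?_
    refine ENNReal.ofReal_le_ofReal (Real.exp_le_exp.2 ?_)
    have hp' : cost p.1 p.2 A < -δ := hp
    nlinarith
  have h3 : ENNReal.ofReal (Real.exp (β * δ)) * Q s ≤ 1 := h2.trans h1
  have h4 : Real.exp (β * δ) * Q.real s ≤ 1 := by
    have := ENNReal.toReal_mono ENNReal.one_ne_top h3
    rw [ENNReal.toReal_mul, ENNReal.toReal_ofReal (Real.exp_pos _).le, ENNReal.toReal_one] at this
    exact this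
  rw [Real.exp_neg, ← one_div, le_div_iff₀ (Real.exp_pos _), mul_comm]
  exact h4

/-- low temperatures -/
theorem asymptotic_gibbs (hK : StK) (Q : ℕ → Measure ((Bond d → ℝ) × (Site d → ℝ)))
    (hQ : ∀ n, IsProbabilityMeasure (Q n)) (β : ℕ → ℝ) (hβ : Tendsto β atTop atTop)
    (h : ∀ A : Finset (Site d), ∀ᶠ n in atTop, IsGibbs (β n) A (Q n)) : Asymptotic Q := by
  intro A δ hδ
  have h1 : Tendsto (fun n => Real.exp (-(β n * δ))) atTop (𝓝 0) := by
    refine Real.tendsto_exp_atBot.comp ?_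
    exact tendsto_neg_atTop_atBot.comp (hβ.atTop_mul_const hδ)
  refine tendsto_of_tendsto_of_tendsto_of_le_of_le' tendsto_const_nhds h1
    (Eventually.of_forall fun n => measureReal_nonneg) ?_
  filter_upwards [hβ.eventually_gt_atTop 0, h A] with n hn hA
  exact gibbs_bound hK hn (Q n) A hA

end Pool.Agent.Zk83.SB
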