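import Pool.Agent.Zk83.SB.D
import Pool.Agent.Zk83.SB.Lim

/-!
# The dichotomy for joint laws and for limits, iid couplings
-/

set_option autoImplicit false

open MeasureTheory ProbabilityTheory Filter Topology

namespace Pool.Agent.Zk83.SB

variable {d : ℕ}

theorem joint_iid (hB : StB) (hC : StC) (hI : StI) {w : Site d} (hw : w ≠ 0)
    (μ : Measure ℝ) [IsProbabilityMeasure μ] (hsym : μ.map (fun x => -x) = μ)
    (Q : Measure ((Bond d → ℝ) × (Site d → ℝ))) [IsProbabilityMeasure Q]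
    (h1 : Q.map Prod.fst = Measure.infinitePi fun _ : Bond d => μ)
    (hinv : Q.map (fun p => (mJ w p.1, mS w p.2)) = Q) (hgs : ∀ᵐ p ∂Q, IsGroundState p.1 p.2) :
    Q.map (fun p => (p.1, -p.2)) = Q ∨
      ∀ᵐ J ∂(Measure.infinitePi fun _ : Bond d => μ), ¬ (GS J).Countable := by
  have hP := inv_iid w μ hsym
  rcases dichotomy hB hC hI hw μ hsym Q.condKernel (cond_cov hP Q h1 hinv) (cond_gs Q h1 hgs) with h | h
  · left
    ext s hs
    have hm : Measurable fun p : (Bond d → ℝ) × (Site d → ℝ) => (p.1, -p.2) := by fun_prop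
    rw [Measure.map_apply hm hs, apply_eq Q h1 (hm hs), apply_eq Q h1 hs]
    refine lintegral_congr_ae ?_
    filter_upwards [h] with J hJ
    have h2 : MeasurableSet {σ : Site d → ℝ | (J, σ) ∈ s} := measurable_prodMk_left hs
    have hn : Measurable fun σ : Site d → ℝ => -σ := by fun_prop
    calc Q.condKernel J {σ | (J, σ) ∈ (fun p : (Bond d → ℝ) × (Site d → ℝ) => (p.1, -p.2)) ⁻¹' s}
        = (Q.condKernel J).map (fun σ => -σ) {σ | (J, σ) ∈ s} := by
          rw [Measure.map_apply hn h2]; rfl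
      _ = Q.condKernel J {σ | (J, σ) ∈ s} := by rw [hJ]
  · exact Or.inr h

theorem limits_iid (hB : StB) (hC : StC) (hI : StI) (hN : StN) (hK : StK) {w : Site d} (hw : w ≠ 0)
    (μ : Measure ℝ) [IsProbabilityMeasure μ] (hat : ∀ x, μ {x} = 0) (hsym : μ.map (fun x => -x) = μ)
    (Q : ℕ → Measure ((Bond d → ℝ) × (Site d → ℝ))) (hQ : ∀ n, IsProbabilityMeasure (Q n))
    (hmarg : ∀ f : BoundedContinuousFunction (Bond d → ℝ) ℝ,
      Tendsto (fun n => ∫ p, f p.1 ∂(Q n)) atTop (𝓝 (∫ J, f J ∂(Measure.infinitePi fun _ : Bond d => μ))))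
    (hinv : ∀ f : BoundedContinuousFunction ((Bond d → ℝ) × (Site d → ℝ)) ℝ,
      Tendsto (fun n => ∫ p, f (mJ w p.1, mS w p.2) ∂(Q n) - ∫ p, f p ∂(Q n)) atTop (𝓝 0))
    (hs : ∀ n, ∀ᵐ p ∂(Q n), ∀ x, p.2 x = 1 ∨ p.2 x = -1) (ha : Asymptotic Q) :
    (∀ g : BoundedContinuousFunction ((Bond d → ℝ) × (Site d → ℝ)) ℝ,
      Tendsto (fun n => ∫ p, g p ∂(Q n) - ∫ p, g (p.1, -p.2) ∂(Q n)) atTop (𝓝 0)) ∨
      ∀ᵐ J ∂(Measure.infinitePi fun _ : Bond d => μ), ¬ (GS J).Countable := by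
  by_cases hall : ∀ g : BoundedContinuousFunction ((Bond d → ℝ) × (Site d → ℝ)) ℝ,
      Tendsto (fun n => ∫ p, g p ∂(Q n) - ∫ p, g (p.1, -p.2) ∂(Q n)) atTop (𝓝 0)
  · exact Or.inl hall
  right
  push Not at hall
  obtain ⟨g, hno⟩ := hall
  obtain ⟨K, hKp, hK1, hKinv, hKs, hKc, hKg⟩ := limit_law hK d {w} _ Q hQ hmarg (fun v hv => by rw [Set.mem_singleton_iff.1 hv]; exact hinv) hs ha g hno
  have hgs : ∀ᵐ p ∂K, IsGroundState p.1 p.2 := by
    have h1 := hN d (one_le_of_ne hw) μ hat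
    rw [← hK1] at h1
    have h2 := ae_of_ae_map measurable_fst.aemeasurable h1
    filter_upwards [h2, hKs, hKc] with p h2 h3 h4 using h2 p.2 h3 h4
  rcases joint_iid hB hC hI hw μ hsym K hK1 (hKinv w rfl) hgs with hj | hj
  · exfalso
    apply hKg
    have hm : Measurable fun p : (Bond d → ℝ) × (Site d → ℝ) => (p.1, -p.2) := by fun_prop
    conv_lhs => rw [← hj]
    rw [integral_map hm.aemeasurable g.continuous.aestronglyMeasurable]
  · exact hj

end Pool.Agent.Zk83.SB
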