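import Mathlib

/-!
# Statements of the modules of `MP_37ff18_mp.SymmetryBreaking`

`StB`, `StC`, `StI` below are proved in separate files.
-/

set_option autoImplicit false

open MeasureTheory ProbabilityTheory Filter Topology

namespace Pool.Agent.Zk83.SB

/-- Local approximation. A bounded measurable function of countably many coordinates changes little in the mean under
every measure preserving map which does not change the coordinates of a suitable finite set `F`. -/
def StB : Prop :=
  ∀ (ι : Type) [Countable ι] (P : Measure (ι → ℝ)) [IsProbabilityMeasure P] (f : (ι → ℝ) → ℝ),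
    Measurable f → (∀ x, 0 ≤ f x ∧ f x ≤ 1) → ∀ ε : ℝ, 0 < ε →
    ∃ F : Finset ι, ∀ T : (ι → ℝ) → (ι → ℝ), MeasurePreserving T P P → (∀ x, ∀ i ∈ F, T x i = x i) →
      ∫ x, |f (T x) - f x| ∂P ≤ ε

/-- A law of spin configurations which gives the same probability to `σ = 1` on `W` and to `σ = -1` on `W`, for all
finite sets `W`, is invariant under the global flip. -/
def StC : Prop :=
  ∀ (S : Type) [Countable S] (ν : Measure (S → ℝ)) [IsProbabilityMeasure ν],
    (∀ᵐ σ ∂ν, ∀ x, σ x = 1 ∨ σ x = -1) →
    (∀ W : Finset S, ν {σ | ∀ x ∈ W, σ x = 1} = ν {σ | ∀ x ∈ W, σ x = -1}) →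
    ν.map (fun σ => -σ) = ν

/-- independent fair coins -/
noncomputable def coin : Measure (ℕ → Bool) :=
  Measure.infinitePi fun _ : ℕ => (PMF.bernoulli (1 / 2) (by norm_num)).toMeasure

instance : IsProbabilityMeasure coin := by unfold coin; infer_instance

/-- Probability measures on one countable set `G` cannot be separated for almost all sequences of coins: `lam U` gives
`E i` a probability within `η` of `b i` or `a i`, according to the `i`-th coin, for all large `i`, and `a i` and `b i`
differ by more than `3 η` for infinitely many `i`. -/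
def StI : Prop :=
  ∀ (X : Type) [MeasurableSpace X] [MeasurableSingletonClass X] (G : Set X), G.Countable →
    ∀ (lam : (ℕ → Bool) → Measure X), (∀ U, IsProbabilityMeasure (lam U)) →
    ∀ (E : ℕ → Set X), (∀ i, MeasurableSet (E i)) → ∀ (a b : ℕ → ℝ) (η : ℝ), 0 < η →
    (∃ᶠ i in atTop, 3 * η < |a i - b i|) →
    ¬ ∀ᵐ U ∂coin, (∀ᵐ x ∂(lam U), x ∈ G) ∧
      ∀ᶠ i in atTop, |(lam U).real (E i) - (if U i then b i else a i)| ≤ η

end Pool.Agent.Zk83.SB
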