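import Pool.Agent.Zk83.SB.Sym
import Pool.Agent.Zk83.SB.Stm

/-!
# Sparse disjoint boxes and the gauge transformations that flip the spins in them
-/

set_option autoImplicit false

open MeasureTheory ProbabilityTheory Filter Topology

namespace Pool.Agent.Zk83.SB

variable {d : ℕ}

/-- the box of radius `r` around `c` -/
def ball (c : Site d) (r : ℕ) : Set (Site d) := {x | ∀ j, |x j - c j| ≤ r}

lemma finset_subset_ball (W : Finset (Site d)) : ∃ R : ℕ, ∀ x ∈ W, x ∈ ball 0 R := by
  classical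
  refine ⟨W.sup fun x => Finset.univ.sup fun j => (x j).natAbs, fun x hx j => ?_⟩
  have h1 : (x j).natAbs ≤ Finset.univ.sup fun j => (x j).natAbs :=
    Finset.le_sup (f := fun j => (x j).natAbs) (Finset.mem_univ j)
  have h2 : (Finset.univ.sup fun j => (x j).natAbs) ≤ W.sup fun x => Finset.univ.sup fun j => (x j).natAbs :=
    Finset.le_sup (f := fun x : Site d => Finset.univ.sup fun j => (x j).natAbs) hx
  have h3 : (x j).natAbs ≤ W.sup fun x => Finset.univ.sup fun j => (x j).natAbs := h1.trans h2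
  simp only [Pi.zero_apply, sub_zero]
  rw [Int.abs_eq_natAbs]
  exact_mod_cast h3

/-- the positions of the centres -/
def pos (r : ℕ → ℕ) (n : ℕ) : ℕ := ∑ k ∈ Finset.range n, (r k + r (k + 1) + 1)

lemma pos_lt (r : ℕ → ℕ) {i j : ℕ} (h : i < j) : pos r i + r i + r j + 1 ≤ pos r j := by
  induction j, h using Nat.le_induction with
  | base =>
    have h1 : pos r (i + 1) = pos r i + (r i + r (i + 1) + 1) := by
      simp only [pos, Finset.sum_range_succ]
    rw [Nat.succ_eq_add_one, h1]
    omega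
  | succ j hj ih =>
    have : pos r (j + 1) = pos r j + (r j + r (j + 1) + 1) := by
      simp only [pos, Finset.sum_range_succ]
    omega

/-- the centres -/
def ctr (w : Site d) (r : ℕ → ℕ) (n : ℕ) : Site d := pos r n • w

lemma disj_aux (r : ℕ → ℕ) {i j : ℕ} (hij : i < j) {x c : ℤ} (hc : c ≠ 0)
    (h1 : |x - (pos r i : ℤ) * c| ≤ r i) (h2 : |x - (pos r j : ℤ) * c| ≤ r j) : False := by
  have h := pos_lt r hij
  have h3 : |((pos r j : ℤ) - pos r i) * c| ≤ r i + r j := by
    have e : ((pos r j : ℤ) - pos r i) * c = (x - (pos r i : ℤ) * c) - (x - (pos r j : ℤ) * c) := by ring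
    rw [e]
    exact (abs_sub _ _).trans (add_le_add h1 h2)
  rw [abs_mul] at h3
  have h4 : 1 ≤ |c| := Int.one_le_abs hc
  have h5 : ((r i : ℤ) + r j + 1) ≤ |(pos r j : ℤ) - pos r i| := by
    rw [abs_of_nonneg (by omega)]
    omega
  nlinarith

lemma disj {w : Site d} (hw : w ≠ 0) (r : ℕ → ℕ) {i j : ℕ} (x : Site d) (hi : x ∈ ball (ctr w r i) (r i))
    (hj : x ∈ ball (ctr w r j) (r j)) : i = j := by
  obtain ⟨i₀, hi₀⟩ := Function.ne_iff.1 hw
  have h1 := hi i₀
  have h2 := hj i₀
  simp only [ctr, Pi.smul_apply, nsmul_eq_mul] at h1 h2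
  by_contra hne
  rcases lt_or_gt_of_ne hne with h | h
  · exact disj_aux r h hi₀ h1 h2
  · exact disj_aux r h hi₀ h2 h1

open Classical in
/-- the sign which is `-1` in the boxes with `U i = true` -/
noncomputable def eps (w : Site d) (r : ℕ → ℕ) (U : ℕ → Bool) (x : Site d) : ℝ :=
  if ∃ i, U i = true ∧ x ∈ ball (ctr w r i) (r i) then -1 else 1

lemma eps_sign (w : Site d) (r : ℕ → ℕ) (U : ℕ → Bool) : IsSign (eps w r U) := by
  intro x
  unfold eps
  split_ifs
  · exact Or.inr rfl
  · exact Or.inl rfl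

lemma eps_ball {w : Site d} (hw : w ≠ 0) (r : ℕ → ℕ) (U : ℕ → Bool) (i : ℕ) (x : Site d)
    (hx : x ∈ ball (ctr w r i) (r i)) : eps w r U x = if U i then -1 else 1 := by
  unfold eps
  by_cases h : U i = true
  · rw [if_pos ⟨i, h, hx⟩, if_pos h]
  · rw [if_neg h, if_neg]
    rintro ⟨j, hj, hxj⟩
    exact h (by rwa [disj hw r x hx hxj])

lemma mem_ball_add {c x : Site d} {r : ℕ} (h : x ∈ ball 0 r) : x + c ∈ ball c r := by
  intro j
  have := h j
  simpa using this

lemma eps_near {w : Site d} (hw : w ≠ 0) (r : ℕ → ℕ) (U : ℕ → Bool) (i : ℕ) (x : Site d)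
    (hx : x ∈ ball 0 (r i)) : mS (ctr w r i) (eps w r U) x = if U i then -1 else 1 :=
  eps_ball hw r U i _ (mem_ball_add hx)

lemma tip_mem {e : Bond d} {R : ℕ} (h : e.1 ∈ ball 0 R) : tip e ∈ ball 0 (R + 1) := by
  intro j
  have h1 := h j
  simp only [Pi.zero_apply, sub_zero] at h1 ⊢
  simp only [tip, Pi.add_apply]
  by_cases hj : j = e.2
  · subst hj
    rw [Pi.single_eq_same]
    push_cast
    exact (abs_add_le _ _).trans (by rw [abs_one]; linarith)
  · rw [Pi.single_eq_of_ne hj, add_zero]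
    push_cast
    linarith

lemma ball_mono {c : Site d} {r s : ℕ} (h : r ≤ s) : ball c r ⊆ ball c s := by
  intro x hx j
  exact (hx j).trans (by exact_mod_cast h)

/-- near the `i`-th centre the gauge transformation does not change the couplings -/
lemma gJ_near {w : Site d} (hw : w ≠ 0) (r : ℕ → ℕ) (U : ℕ → Bool) (i : ℕ) {R : ℕ} (hR : R + 1 ≤ r i) (J : Bond d → ℝ)
    (e : Bond d) (he : e.1 ∈ ball 0 R) : gJ (mS (ctr w r i) (eps w r U)) J e = J e := by
  unfold gJ
  rw [eps_near hw r U i e.1 (ball_mono (by omega) he), eps_near hw r U i (tip e) (ball_mono hR (tip_mem he))]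
  split_ifs <;> ring

lemma measurable_eps (w : Site d) (r : ℕ → ℕ) (x : Site d) : Measurable fun U => eps w r U x := by
  unfold eps
  refine Measurable.ite ?_ measurable_const measurable_const
  have : {U : ℕ → Bool | ∃ i, U i = true ∧ x ∈ ball (ctr w r i) (r i)} =
      ⋃ i : ℕ, {U : ℕ → Bool | U i = true ∧ x ∈ ball (ctr w r i) (r i)} := by
    ext U; simp
  rw [this]
  refine MeasurableSet.iUnion fun i => ?_
  by_cases hx : x ∈ ball (ctr w r i) (r i)
  · have : {U : ℕ → Bool | U i = true ∧ x ∈ ball (ctr w r i) (r i)} = (fun U : ℕ → Bool => U i) ⁻¹' {true} := by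
      ext U; simp [hx]
    rw [this]
    exact (measurable_pi_apply i) (measurableSet_singleton _)
  · have : {U : ℕ → Bool | U i = true ∧ x ∈ ball (ctr w r i) (r i)} = ∅ := by
      ext U; simp [hx]
    rw [this]
    exact MeasurableSet.empty

lemma measurable_flip (w : Site d) (r : ℕ → ℕ) :
    Measurable fun p : (Bond d → ℝ) × (ℕ → Bool) => gJ (eps w r p.2) p.1 := by
  unfold gJ
  refine measurable_pi_lambda _ fun e => ?_
  have h1 : Measurable fun p : (Bond d → ℝ) × (ℕ → Bool) => eps w r p.2 e.1 :=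
    (measurable_eps w r e.1).comp measurable_snd
  have h2 : Measurable fun p : (Bond d → ℝ) × (ℕ → Bool) => eps w r p.2 (tip e) :=
    (measurable_eps w r (tip e)).comp measurable_snd
  have h3 : Measurable fun p : (Bond d → ℝ) × (ℕ → Bool) => p.1 e := (measurable_pi_apply e).comp measurable_fst
  exact h3.mul (h1.mul h2)

end Pool.Agent.Zk83.SB
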