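import Pool.Agent.Zk83.SB.Stm8
import Pool.Agent.Zk58.EK.Chaos

/-!
# Volume order and surface order large deviations

`MacroUnique` (no incongruent ground states) holds if and only if large differences between ground states of cubes have
probabilities of volume order. Otherwise they have probabilities of at least surface order for suitable fixed boundary
conditions.
-/

set_option autoImplicit false

open MeasureTheory ProbabilityTheory Filter Topology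
open Pool.Agent.Zk58.EK

namespace Pool.Agent.Zk83.SB.LD

/-- Volume order: in the cube `[0, n)^d` any two ground states, for all boundary conditions, which may depend on the
couplings, differ on less than `ε n ^ d` bonds, with probability at least `1 - exp (-c n ^ d)`. -/
def VolumeOrder {S : Type} [MeasurableSpace S] (μ : Measure S) (ψ : S → ℝ) (d : ℕ) : Prop :=
  ∀ ε : ℝ, 0 < ε → ∃ c : ℝ, 0 < c ∧ ∃ n₀ : ℕ, ∀ n ≥ n₀,
    (PX d μ) {X | ∃ ρ τ : Site d → ℝ, CubeGS (fun e => ψ (X e)) 0 n ρ ∧ CubeGS (fun e => ψ (X e)) 0 n τ ∧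
      ε * (n : ℝ) ^ d ≤ dif 0 n ρ τ} ≤ ENNReal.ofReal (Real.exp (-(c * (n : ℝ) ^ d)))

/-- Surface order: for some fixed boundary conditions `η`, `η'` the ground states in the cube differ on at least
`ε n ^ d` bonds with probability at least `exp (-K n ^ (d - 1))`. -/
def SurfaceOrder {S : Type} [MeasurableSpace S] (μ : Measure S) (ψ : S → ℝ) (d : ℕ) : Prop :=
  ∃ ε : ℝ, 0 < ε ∧ ∃ K : ℝ, ∃ n₀ : ℕ, ∀ n ≥ n₀, ∃ η η' : Site d → ℝ,
    (∀ x, η x = 1 ∨ η x = -1) ∧ (∀ x, η' x = 1 ∨ η' x = -1) ∧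
    ENNReal.ofReal (Real.exp (-(K * (n : ℝ) ^ (d - 1)))) ≤
      (PX d μ) {X | ∃ ρ τ : Site d → ℝ, CubeGS (fun e => ψ (X e)) 0 n ρ ∧ CubeGS (fun e => ψ (X e)) 0 n τ ∧
        (∀ x, x ∉ cube (0 : Site d) n → ρ x = η x ∧ τ x = η' x) ∧ ε * (n : ℝ) ^ d ≤ dif 0 n ρ τ}

variable {d k : ℕ} {S : Type} [MeasurableSpace S] {μ : Measure S} [IsProbabilityMeasure μ]
  {ψ : S → ℝ} {R : ℕ} {F : (Bond d → S) → Cfg d k → ℝ}

theorem F0_bd {M : ℝ} (hM : ∀ s, |ψ s| ≤ M) (X : Bond d → S) {σ : Cfg d k} (hσ : IsConf σ) :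
    |F0 ψ X σ| ≤ k * (d * M) := by
  unfold F0
  calc |∑ a, ∑ i, ψ (X (0, i)) * (σ a 0 * σ a (tip ((0, i) : Bond d)))|
      ≤ ∑ a, |∑ i, ψ (X (0, i)) * (σ a 0 * σ a (tip ((0, i) : Bond d)))| := Finset.abs_sum_le_sum_abs _ _
    _ ≤ ∑ _a : Fin k, ∑ _i : Fin d, M := by
        refine Finset.sum_le_sum fun a _ => (Finset.abs_sum_le_sum_abs _ _).trans ?_
        refine Finset.sum_le_sum fun i _ => ?_
        rw [abs_mul, abs_one (hσ a 0) (hσ a _), mul_one]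
        exact hM _
    _ = k * (d * M) := by
        simp only [Finset.sum_const, Finset.card_univ, Fintype.card_fin, nsmul_eq_mul]

theorem Tn_bd {M : ℝ} (hM0 : 0 ≤ M) (hM : ∀ s, |ψ s| ≤ M) (X : Bond d → S) (c : Site d) (n : ℕ) :
    Tn ψ X c n ≤ M * d * (((n : ℝ) + 1) ^ d - ((n - 1 : ℕ) : ℝ) ^ d) := by
  unfold Tn
  calc ∑ e ∈ Ex c n ×ˢ (Finset.univ : Finset (Fin d)), |ψ (X e)|
      ≤ ∑ _e ∈ Ex c n ×ˢ (Finset.univ : Finset (Fin d)), M := Finset.sum_le_sum fun e _ => hM _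
    _ = M * d * (Ex c n).card := by
        rw [Finset.sum_const, Finset.card_product, Finset.card_univ, Fintype.card_fin, nsmul_eq_mul]
        push_cast
        ring
    _ ≤ _ := mul_le_mul_of_nonneg_left (Ex_card c) (by positivity)

theorem exp_small {c : ℝ} (hc : 0 < c) (hd : 1 ≤ d) : ∃ n₀ : ℕ, ∀ n ≥ n₀,
    6 * Real.exp (-(c * (n : ℝ) ^ d)) ≤ Real.exp (-(c / 2 * (n : ℝ) ^ d)) := by
  obtain ⟨N, hN⟩ := exists_nat_gt (4 / c)
  refine ⟨N + 1, fun n hn => ?_⟩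
  have h1 : (N : ℝ) + 1 ≤ n := by exact_mod_cast hn
  have hn1 : (1 : ℝ) ≤ n := by
    have : (0 : ℝ) ≤ N := Nat.cast_nonneg N
    linarith
  have h2 : (n : ℝ) ≤ (n : ℝ) ^ d := le_self_pow₀ hn1 (by omega)
  have h3 : 4 ≤ c * (n : ℝ) ^ d := by
    rw [div_lt_iff₀ hc] at hN
    nlinarith
  have h6 : (6 : ℝ) ≤ Real.exp 2 := by
    have h7 := Real.exp_one_gt_d9
    have h8 : Real.exp 2 = Real.exp 1 * Real.exp 1 := by rw [← Real.exp_add]; norm_num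
    rw [h8]
    nlinarith
  have h9 : Real.exp (-(c / 2 * (n : ℝ) ^ d)) =
      Real.exp (c / 2 * (n : ℝ) ^ d) * Real.exp (-(c * (n : ℝ) ^ d)) := by
    rw [← Real.exp_add]
    congr 1
    ring
  rw [h9]
  refine mul_le_mul_of_nonneg_right (h6.trans (Real.exp_le_exp.2 ?_)) (Real.exp_pos _).le
  linarith

/-- exponential version of `near_tail`, for ground states of cubes -/
theorem near_exp (hX1 : StX1) (hd : 1 ≤ d) (hψ : Measurable ψ) {M : ℝ} (hM : ∀ s, |ψ s| ≤ M)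
    (hF : Good μ R F) {CF : ℝ} (hFb : ∀ X σ, IsConf σ → |F X σ| ≤ CF) {l r η t0 : ℝ}
    (hη : 0 < η) (ht0 : 0 < t0)
    (hr : ∀ t : ℝ, 0 < t → t ≤ t0 → gg μ ψ R F t - gg μ ψ R F 0 ≤ (r + η / 2) * t)
    (hl : ∀ t : ℝ, 0 < t → t ≤ t0 → (l - η / 2) * t ≤ gg μ ψ R F 0 - gg μ ψ R F (-t)) :
    ∃ c : ℝ, 0 < c ∧ ∃ n₀ : ℕ, ∀ n ≥ n₀,
      (PX d μ).real {X | ∃ σ : Cfg d k, (∀ a, CubeGS (fun e => ψ (X e)) 0 n (σ a)) ∧
        ¬ ((l - η) * (n : ℝ) ^ d ≤ En F X (cube 0 n) σ ∧ En F X (cube 0 n) σ ≤ (r + η) * (n : ℝ) ^ d)} ≤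
        Real.exp (-(c * (n : ℝ) ^ d)) := by
  have hψ2 : MemLp ψ 2 μ := MemLp.of_bound hψ.aestronglyMeasurable M
    (Eventually.of_forall fun s => by rw [Real.norm_eq_abs]; exact hM s)
  have hM0 : 0 ≤ M := by
    have : Nonempty S := by
      by_contra hS
      rw [not_nonempty_iff] at hS
      have h1 : μ Set.univ = 1 := measure_univ
      rw [Set.univ_eq_empty_iff.2 hS, measure_empty] at h1
      exact zero_ne_one h1
    obtain ⟨s⟩ := this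
    exact (abs_nonneg _).trans (hM s)
  set ε : ℝ := η * t0 / 8 with hε
  have hε0 : 0 < ε := by positivity
  have hb : ∀ t : ℝ, ∀ X σ, IsConf σ → |FT ψ F t X σ| ≤ k * (d * M) + |t| * CF := by
    intro t X σ hσ
    unfold FT
    refine (abs_add_le _ _).trans (add_le_add (F0_bd hM X hσ) ?_)
    rw [abs_mul]
    exact mul_le_mul_of_nonneg_left (hFb X σ hσ) (abs_nonneg _)
  obtain ⟨c1, hc1, n1, h1⟩ := hX1 d k (R + 2) hd S μ _ _ (FT_good hψ hψ2 hF t0) (hb t0) ε hε0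
  obtain ⟨c2, hc2, n2, h2⟩ := hX1 d k (R + 2) hd S μ _ _ (FT_good hψ hψ2 hF (-t0)) (hb (-t0)) ε hε0
  obtain ⟨c3, hc3, n3, h3⟩ := hX1 d k (R + 2) hd S μ _ _ (FT_good hψ hψ2 hF 0) (hb 0) ε hε0
  have l1 : Tendsto (fun n : ℕ => (((n : ℝ) + 1) ^ d - ((n - 1 : ℕ) : ℝ) ^ d) /
      (n : ℝ) ^ d * (4 * k * (M * d))) atTop (𝓝 0) := by
    simpa using (ratio_lim d).mul_const (4 * k * (M * d))
  obtain ⟨n4, hn4⟩ := eventually_atTop.1 (l1.eventually (gt_mem_nhds hε0))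
  set c : ℝ := min c1 (min c2 c3) with hcdef
  have hc : 0 < c := lt_min hc1 (lt_min hc2 hc3)
  obtain ⟨n5, hn5⟩ := exp_small (d := d) hc hd
  refine ⟨c / 2, by positivity, n1 + n2 + n3 + n4 + n5 + 1, fun n hn => ?_⟩
  have hn' : (0 : ℝ) < (n : ℝ) ^ d := by
    have : 0 < n := by omega
    positivity
  refine le_trans ?_ (hn5 n (by omega))
  set B1 := {X | ε * (n : ℝ) ^ d ≤ |Mx (R + 2) (FT ψ F t0) X 0 n - (n : ℝ) ^ d *
      gl μ (R + 2) (FT ψ F t0)|} with hB1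
  set B2 := {X | ε * (n : ℝ) ^ d ≤ |Mx (R + 2) (FT ψ F (-t0)) X 0 n - (n : ℝ) ^ d *
      gl μ (R + 2) (FT ψ F (-t0))|} with hB2
  set B3 := {X | ε * (n : ℝ) ^ d ≤ |Mx (R + 2) (FT ψ F 0) X 0 n - (n : ℝ) ^ d *
      gl μ (R + 2) (FT ψ F 0)|} with hB3
  have hsub : {X | ∃ σ : Cfg d k, (∀ a, CubeGS (fun e => ψ (X e)) 0 n (σ a)) ∧
        ¬ ((l - η) * (n : ℝ) ^ d ≤ En F X (cube 0 n) σ ∧ En F X (cube 0 n) σ ≤ (r + η) * (n : ℝ) ^ d)} ⊆
      B1 ∪ (B2 ∪ B3) := by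
    intro X hX
    by_contra hno
    simp only [hB1, hB2, hB3, Set.mem_union, Set.mem_ofPred_eq, not_or, not_le] at hno
    obtain ⟨x1, x2, x3⟩ := hno
    obtain ⟨σ, hσ, hbad⟩ := hX
    apply hbad
    change |Mx (R + 2) (FT ψ F t0) X 0 n - (n : ℝ) ^ d * gg μ ψ R F t0| < _ at x1
    change |Mx (R + 2) (FT ψ F (-t0)) X 0 n - (n : ℝ) ^ d * gg μ ψ R F (-t0)| < _ at x2
    change |Mx (R + 2) (FT ψ F 0) X 0 n - (n : ℝ) ^ d * gg μ ψ R F 0| < _ at x3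
    have e1 := hr t0 ht0 le_rfl
    have e2 := hl t0 ht0 le_rfl
    have hconf : IsConf σ := fun a x => (hσ a).1 x
    have hbox : BoxGS (fun e => ψ (X e)) 0 n σ := ⟨hconf, fun a A hA => (hσ a).2 A hA⟩
    have hTn : (k : ℝ) * (4 * Tn ψ X 0 n) ≤ ε * (n : ℝ) ^ d := by
      have q1 := Tn_bd (d := d) hM0 hM X 0 n
      have q2 := hn4 n (by omega)
      rw [div_mul_eq_mul_div, div_lt_iff₀ hn'] at q2
      have hk : (0 : ℝ) ≤ k := Nat.cast_nonneg k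
      calc (k : ℝ) * (4 * Tn ψ X 0 n)
          ≤ k * (4 * (M * d * (((n : ℝ) + 1) ^ d - ((n - 1 : ℕ) : ℝ) ^ d))) := by gcongr
        _ = (((n : ℝ) + 1) ^ d - ((n - 1 : ℕ) : ℝ) ^ d) * (4 * k * (M * d)) := by ring
        _ ≤ ε * (n : ℝ) ^ d := q2.le
    have hmax : ∀ τ : Cfg d k, IsConf τ →
        En (F0 ψ) X (cube 0 n) τ ≤ En (F0 ψ) X (cube 0 n) σ + ε * (n : ℝ) ^ d := by
      intro τ hτ
      have := En_near ψ X 0 n hbox hτ
      unfold Tn at hTn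
      linarith
    have a1 := En_le_Mx (FT_good hψ hψ2 hF t0).loc X 0 n hconf
    have a2 := En_le_Mx (FT_good hψ hψ2 hF (-t0)).loc X 0 n hconf
    rw [En_FT] at a1 a2
    have a3 : Mx (R + 2) (FT ψ F 0) X 0 n ≤ En (F0 ψ) X (cube 0 n) σ + ε * (n : ℝ) ^ d := by
      obtain ⟨A, hA⟩ := exists_Mx (R + 2) (FT ψ F 0) X 0 n
      rw [hA, En_FT, zero_mul, add_zero]
      exact hmax _ (conf_sp A)
    rw [abs_lt] at x1 x2 x3
    have f1 := mul_le_mul_of_nonneg_right e1 hn'.le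
    have f2 := mul_le_mul_of_nonneg_right e2 hn'.le
    have g1 : t0 * En F X (cube 0 n) σ ≤ t0 * ((r + η) * (n : ℝ) ^ d) := by
      have : ε * (n : ℝ) ^ d = η * t0 / 8 * (n : ℝ) ^ d := by rw [hε]
      nlinarith [x1.1, x1.2, x3.1, x3.2, f1, mul_pos (mul_pos hη ht0) hn']
    have g2 : t0 * ((l - η) * (n : ℝ) ^ d) ≤ t0 * En F X (cube 0 n) σ := by
      have : ε * (n : ℝ) ^ d = η * t0 / 8 * (n : ℝ) ^ d := by rw [hε]
      nlinarith [x2.1, x2.2, x3.1, x3.2, f2, mul_pos (mul_pos hη ht0) hn']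
    exact ⟨le_of_mul_le_mul_left g2 ht0, le_of_mul_le_mul_left g1 ht0⟩
  have hm : ∀ ci : ℝ, c ≤ ci → 2 * Real.exp (-(ci * (n : ℝ) ^ d)) ≤ 2 * Real.exp (-(c * (n : ℝ) ^ d)) := by
    intro ci hci
    have : c * (n : ℝ) ^ d ≤ ci * (n : ℝ) ^ d := mul_le_mul_of_nonneg_right hci hn'.le
    have := Real.exp_le_exp.2 (neg_le_neg this)
    linarith
  calc (PX d μ).real _ ≤ (PX d μ).real (B1 ∪ (B2 ∪ B3)) := measureReal_mono hsub
    _ ≤ (PX d μ).real B1 + ((PX d μ).real B2 + (PX d μ).real B3) :=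
        (measureReal_union_le _ _).trans (add_le_add le_rfl (measureReal_union_le _ _))
    _ ≤ 2 * Real.exp (-(c1 * (n : ℝ) ^ d)) + (2 * Real.exp (-(c2 * (n : ℝ) ^ d)) +
        2 * Real.exp (-(c3 * (n : ℝ) ^ d))) :=
        add_le_add (h1 n (by omega)) (add_le_add (h2 n (by omega)) (h3 n (by omega)))
    _ ≤ 6 * Real.exp (-(c * (n : ℝ) ^ d)) := by
        have := hm c1 (min_le_left _ _)
        have := hm c2 ((min_le_right _ _).trans (min_le_left _ _))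
        have := hm c3 ((min_le_right _ _).trans (min_le_right _ _))
        linarith

theorem Fov_bd (X : Bond d → S) {σ : Cfg d 2} (hσ : IsConf σ) : |Fov d S X σ| ≤ d := by
  unfold Fov
  calc |∑ i, (σ 0 0 * σ 0 (tip ((0, i) : Bond d))) * (σ 1 0 * σ 1 (tip ((0, i) : Bond d)))|
      ≤ ∑ i : Fin d, |(σ 0 0 * σ 0 (tip ((0, i) : Bond d))) * (σ 1 0 * σ 1 (tip ((0, i) : Bond d)))| :=
        Finset.abs_sum_le_sum_abs _ _
    _ = ∑ _i : Fin d, (1 : ℝ) := by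
        refine Finset.sum_congr rfl fun i _ => ?_
        rw [abs_mul, abs_one (hσ 0 0) (hσ 0 _), abs_one (hσ 1 0) (hσ 1 _), one_mul]
    _ = d := by simp

theorem pair_gs {J : Bond d → ℝ} {n : ℕ} {ρ τ : Site d → ℝ} (h1 : CubeGS J 0 n ρ) (h2 : CubeGS J 0 n τ)
    (a : Fin 2) : CubeGS J 0 n ((![ρ, τ] : Cfg d 2) a) := by
  fin_cases a
  · exact h1
  · exact h2

theorem gs_cube {J : Bond d → ℝ} {τ : Site d → ℝ} (hτ : IsGroundState J τ) (n : ℕ) : CubeGS J 0 n τ := by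
  refine ⟨hτ.1, fun A _ => ?_⟩
  have h2 := GSs_WGS (k := 1) (J := J) (σ := fun _ => τ) fun _ => hτ
  exact h2.2 0 A

/-- if the left derivative is maximal then there is uniqueness with exponentially small failure probability -/
theorem vol_of_le (hX1 : StX1) (hd : 1 ≤ d) (hψ : Measurable ψ) {M : ℝ} (hM : ∀ s, |ψ s| ≤ M) {l r : ℝ}
    (hl : (d : ℝ) ≤ l)
    (hlr : ∀ ε : ℝ, 0 < ε → ∃ t0 : ℝ, 0 < t0 ∧ ∀ t : ℝ, 0 < t → t ≤ t0 →
      gg μ ψ 2 (Fov d S) (0 + t) - gg μ ψ 2 (Fov d S) 0 ≤ (r + ε) * t ∧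
        (l - ε) * t ≤ gg μ ψ 2 (Fov d S) 0 - gg μ ψ 2 (Fov d S) (0 - t)) : VolumeOrder μ ψ d := by
  intro ε hε
  obtain ⟨t0, ht0, h⟩ := hlr (ε / 2) (by linarith)
  obtain ⟨c, hc, n₀, h1⟩ := near_exp (μ := μ) (F := Fov d S) (R := 2) (l := l) (r := r) hX1 hd hψ hM Fov_good
    (fun X σ hσ => Fov_bd X hσ) hε ht0 (fun t h1 h2 => by simpa using (h t h1 h2).1)
    (fun t h1 h2 => by simpa using (h t h1 h2).2)
  refine ⟨c, hc, n₀ + 1, fun n hn => ?_⟩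
  have hn' : (0 : ℝ) < (n : ℝ) ^ d := by
    have : 0 < n := by omega
    positivity
  have hsub : {X : Bond d → S | ∃ ρ τ : Site d → ℝ, CubeGS (fun e => ψ (X e)) 0 n ρ ∧
      CubeGS (fun e => ψ (X e)) 0 n τ ∧ ε * (n : ℝ) ^ d ≤ dif 0 n ρ τ} ⊆
      {X | ∃ σ : Cfg d 2, (∀ a, CubeGS (fun e => ψ (X e)) 0 n (σ a)) ∧
        ¬ ((l - ε) * (n : ℝ) ^ d ≤ En (Fov d S) X (cube 0 n) σ ∧
          En (Fov d S) X (cube 0 n) σ ≤ (r + ε) * (n : ℝ) ^ d)} := by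
    rintro X ⟨ρ, τ, hρ, hτ, hdif⟩
    refine ⟨![ρ, τ], pair_gs hρ hτ, fun hcon => ?_⟩
    have h2 := hcon.1
    rw [En_Fov X 0 n (fun a x => (pair_gs hρ hτ a).1 x)] at h2
    simp only [Matrix.cons_val_zero, Matrix.cons_val_one] at h2
    nlinarith
  refine (measure_mono hsub).trans ?_
  rw [← ofReal_measureReal (measure_ne_top _ _)]
  exact ENNReal.ofReal_le_ofReal (h1 n (by omega))

theorem vol_macro (hd : 1 ≤ d) (h : VolumeOrder μ ψ d) : MacroUnique μ ψ d := by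
  have key : ∀ m : ℕ, ∀ᵐ X ∂(PX d μ), ∀ᶠ n : ℕ in atTop, X ∉ {X : Bond d → S | ∃ ρ τ : Site d → ℝ,
      CubeGS (fun e => ψ (X e)) 0 n ρ ∧ CubeGS (fun e => ψ (X e)) 0 n τ ∧
      1 / ((m : ℝ) + 1) * (n : ℝ) ^ d ≤ dif 0 n ρ τ} := by
    intro m
    obtain ⟨c, hc, n₀, hn₀⟩ := h (1 / ((m : ℝ) + 1)) (by positivity)
    set Bad : ℕ → Set (Bond d → S) := fun n => {X : Bond d → S | ∃ ρ τ : Site d → ℝ,
      CubeGS (fun e => ψ (X e)) 0 n ρ ∧ CubeGS (fun e => ψ (X e)) 0 n τ ∧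
      1 / ((m : ℝ) + 1) * (n : ℝ) ^ d ≤ dif 0 n ρ τ} with hBad
    have hsum : ∑' n : ℕ, (PX d μ) (Bad (n + (n₀ + 1))) ≠ ⊤ := by
      have h1 : Summable fun n : ℕ => Real.exp (-c * (n : ℝ)) := by
        have := Real.summable_exp_nat_mul_iff.2 (neg_neg_of_pos hc)
        simpa [mul_comm] using this
      have h2 : Summable fun n : ℕ => Real.exp (-c * ((n + (n₀ + 1) : ℕ) : ℝ)) :=
        (summable_nat_add_iff (f := fun n : ℕ => Real.exp (-c * (n : ℝ))) (n₀ + 1)).2 h1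
      refine ne_top_of_le_ne_top h2.tsum_ofReal_ne_top (ENNReal.tsum_le_tsum fun n => ?_)
      refine (hn₀ (n + (n₀ + 1)) (by omega)).trans ?_
      refine ENNReal.ofReal_le_ofReal (Real.exp_le_exp.2 ?_)
      have h3 : ((n + (n₀ + 1) : ℕ) : ℝ) ≤ ((n + (n₀ + 1) : ℕ) : ℝ) ^ d := by
        refine le_self_pow₀ ?_ (by omega)
        have : 1 ≤ n + (n₀ + 1) := by omega
        exact_mod_cast this
      nlinarith
    have hae := ae_eventually_notMem hsum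
    filter_upwards [hae] with X hX
    obtain ⟨N, hN⟩ := eventually_atTop.1 hX
    refine eventually_atTop.2 ⟨N + (n₀ + 1), fun n hn => ?_⟩
    have h4 := hN (n - (n₀ + 1)) (by omega)
    have h5 : n - (n₀ + 1) + (n₀ + 1) = n := by omega
    rwa [h5] at h4
  filter_upwards [ae_all_iff.2 key] with X hX ρ τ hρ hτ
  rw [Metric.tendsto_nhds]
  intro ε hε
  obtain ⟨m, hm⟩ := exists_nat_one_div_lt hε
  filter_upwards [hX m, eventually_gt_atTop 0] with n hn hn0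
  have hn' : (0 : ℝ) < (n : ℝ) ^ d := by positivity
  rw [Real.dist_eq, sub_zero, abs_of_nonneg (by positivity), div_lt_iff₀ hn']
  by_contra hcon
  push Not at hcon
  exact hn ⟨ρ, τ, gs_cube hρ n, gs_cube hτ n, le_trans (mul_le_mul_of_nonneg_right hm.le hn'.le) hcon⟩

theorem macro_vol (hX1 : StX1) (hd : 2 ≤ d) (hψ : Measurable ψ) {M : ℝ} (hM : ∀ s, |ψ s| ≤ M)
    (hat : ∀ t : ℝ, μ {s | ψ s = t} = 0) (h : MacroUnique μ ψ d) : VolumeOrder μ ψ d := by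
  have hψ2 : MemLp ψ 2 μ := MemLp.of_bound hψ.aestronglyMeasurable M
    (Eventually.of_forall fun s => by rw [Real.norm_eq_abs]; exact hM s)
  have hBU := ess_boundary hd hψ hψ2 (diff_ess hd hψ hψ2 hat h)
  have hG : Good μ 2 (Fov d S) := Fov_good
  obtain ⟨-, h0⟩ := cvx (gg μ ψ 2 (Fov d S)) (gg_convex hψ hψ2 hG)
  obtain ⟨l, r, hle, hR, hL, hD, hr1, hl1, hlr⟩ := h0 0
  refine vol_of_le hX1 (by omega) hψ hM (l := l) (r := r) ?_ hlr
  by_contra hcon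
  rw [not_le] at hcon
  have hη : (0 : ℝ) < (d - l) / 4 := by linarith
  have h1 := freq_of_tendsto (prob_att hd hψ hψ2 hat hG hr1 hl1 hlr (fun _ => 0) hη)
  obtain ⟨X, hX1, hX2⟩ := (h1.and (hBU fun _ => 0)).exists
  obtain ⟨n, ⟨hn1, hn2⟩, hn3⟩ := ((hX1.and_eventually (hX2 _ hη)).and_eventually
    (eventually_gt_atTop 0)).exists
  simp only [Set.mem_ofPred_eq, not_not] at hn1
  obtain ⟨σ, τ, -, hτ, -, h2⟩ := hn1
  have h3 := hn2 (τ 0) (τ 1) (gs_cube (hτ 0) n) (gs_cube (hτ 1) n)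
  rw [En_Fov X 0 n (GSs_WGS hτ).1] at h2
  have h4 : (0 : ℝ) < (n : ℝ) ^ d := by positivity
  nlinarith

theorem surface (hX1 : StX1) (hX3 : StX3) (hd : 2 ≤ d) (hψ : Measurable ψ) {M : ℝ} (hM : ∀ s, |ψ s| ≤ M)
    (hat : ∀ t : ℝ, μ {s | ψ s = t} = 0) (h : ¬ MacroUnique μ ψ d) : SurfaceOrder μ ψ d := by
  have hψ2 : MemLp ψ 2 μ := MemLp.of_bound hψ.aestronglyMeasurable M
    (Eventually.of_forall fun s => by rw [Real.norm_eq_abs]; exact hM s)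
  have hG : Good μ 2 (Fov d S) := Fov_good
  obtain ⟨-, h0⟩ := cvx (gg μ ψ 2 (Fov d S)) (gg_convex hψ hψ2 hG)
  obtain ⟨l, r, hle, hR, hL, hD, hr1, hl1, hlr⟩ := h0 0
  have hl : l < d := by
    by_contra hcon
    push Not at hcon
    exact h (vol_macro (by omega) (vol_of_le hX1 (by omega) hψ hM hcon hlr))
  have hη : (0 : ℝ) < (d - l) / 2 := by linarith
  have hp := prob_att hd hψ hψ2 hat hG hr1 hl1 hlr (fun _ => 0) hη
  obtain ⟨K, hK⟩ := hX3 d (by omega)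
  obtain ⟨n1, hn1⟩ := eventually_atTop.1 (hp.eventually (gt_mem_nhds (show (0 : ENNReal) < 1 / 2 by norm_num)))
  refine ⟨(d - l) / 4, by linarith, K, n1 + 1, fun n hn => ?_⟩
  refine hK S μ ψ ((d - l) / 4) n (by omega) ?_
  have hlt := hn1 n (by omega)
  set E : Set (Bond d → S) := {X | ∃ ρ τ : Site d → ℝ, CubeGS (fun e => ψ (X e)) 0 n ρ ∧
      CubeGS (fun e => ψ (X e)) 0 n τ ∧ (d - l) / 4 * (n : ℝ) ^ d ≤ dif 0 n ρ τ} with hE
  have hsub : Eᶜ ⊆ {X | ¬ ∃ σ τ : Cfg d 2, GSs (fun e => ψ (X e)) σ ∧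
      GSs (fun e => ψ (X e)) τ ∧ (r - (d - l) / 2) * (n : ℝ) ^ d ≤ En (Fov d S) X (cube 0 n) σ ∧
        En (Fov d S) X (cube 0 n) τ ≤ (l + (d - l) / 2) * (n : ℝ) ^ d} := by
    intro X hX hcon
    obtain ⟨σ, τ, -, hτ, -, h2⟩ := hcon
    apply hX
    refine ⟨τ 0, τ 1, gs_cube (hτ 0) n, gs_cube (hτ 1) n, ?_⟩
    rw [En_Fov X 0 n (GSs_WGS hτ).1] at h2
    have h4 : (0 : ℝ) ≤ (n : ℝ) ^ d := by positivity
    nlinarith
  have h5 : (PX d μ) Eᶜ < 1 / 2 := lt_of_le_of_lt (measure_mono hsub) hlt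
  have h6 : (1 : ENNReal) ≤ (PX d μ) E + (PX d μ) Eᶜ := by
    have : (PX d μ) Set.univ = 1 := measure_univ
    rw [← this, ← Set.union_compl_self E]
    exact measure_union_le _ _
  by_contra hcon
  push Not at hcon
  have h7 : (PX d μ) E + (PX d μ) Eᶜ < 1 / 2 + 1 / 2 := ENNReal.add_lt_add hcon h5
  rw [ENNReal.add_halves] at h7
  exact absurd h6 (not_le.2 h7)

theorem not_both (hd : 1 ≤ d) (h1 : VolumeOrder μ ψ d) (h2 : SurfaceOrder μ ψ d) : False := by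
  obtain ⟨ε, hε, K, n1, hS⟩ := h2
  obtain ⟨c, hc, n2, hV⟩ := h1 ε hε
  obtain ⟨N, hN⟩ := exists_nat_gt (K / c)
  set n := n1 + n2 + N + 1 with hn
  obtain ⟨η, η', -, -, h3⟩ := hS n (by omega)
  have h4 := hV n (by omega)
  have h5 : ENNReal.ofReal (Real.exp (-(K * (n : ℝ) ^ (d - 1)))) ≤
      ENNReal.ofReal (Real.exp (-(c * (n : ℝ) ^ d))) := by
    refine h3.trans (le_trans (measure_mono ?_) h4)
    rintro X ⟨ρ, τ, hρ, hτ, -, hdif⟩
    exact ⟨ρ, τ, hρ, hτ, hdif⟩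
  rw [ENNReal.ofReal_le_ofReal_iff (Real.exp_pos _).le, Real.exp_le_exp] at h5
  have hn1 : (N : ℝ) < n := by
    rw [hn]
    push_cast
    have : (0 : ℝ) ≤ n1 := Nat.cast_nonneg _
    have : (0 : ℝ) ≤ n2 := Nat.cast_nonneg _
    linarith
  have hn0 : (0 : ℝ) < n := lt_of_le_of_lt (Nat.cast_nonneg N) hn1
  have h6 : (n : ℝ) ^ d = (n : ℝ) * (n : ℝ) ^ (d - 1) := by
    rw [← pow_succ']
    congr 1
    omega
  have h7 : (0 : ℝ) < (n : ℝ) ^ (d - 1) := by positivity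
  rw [div_lt_iff₀ hc] at hN
  rw [h6] at h5
  have h8 : K < n * c := by nlinarith
  nlinarith [mul_lt_mul_of_pos_right h8 h7]

/-- **Theorem.** -/
theorem volume_surface (hX1 : StX1) (hX3 : StX3) (hd : 2 ≤ d) (hψ : Measurable ψ) {M : ℝ} (hM : ∀ s, |ψ s| ≤ M)
    (hat : ∀ t : ℝ, μ {s | ψ s = t} = 0) :
    (MacroUnique μ ψ d ↔ VolumeOrder μ ψ d) ∧ (MacroUnique μ ψ d ↔ ¬ SurfaceOrder μ ψ d) := by
  refine ⟨⟨macro_vol hX1 hd hψ hM hat, vol_macro (by omega)⟩, ⟨fun h hs => ?_, fun h => ?_⟩⟩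
  · exact not_both (by omega) (macro_vol hX1 hd hψ hM hat h) hs
  · by_contra hno
    exact h (surface hX1 hX3 hd hψ hM hat hno)

end Pool.Agent.Zk83.SB.LD
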