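import Pool.Agent.Zk83.SB.LD
import Pool.Agent.Zk69.SB.X1
import Pool.Agent.Zk86.SB.X3

/-!
# Incongruence and large deviations
-/

set_option autoImplicit false

open MeasureTheory Filter Topology
open Pool.Agent.Zk58.EK

namespace Pool.Agent.Zk83.SB.LD

/-- For bounded couplings: there are no macroscopically different ground states if and only if differences between
ground states of cubes have large deviations of volume order, uniformly in the boundary conditions; otherwise there are
large deviations of surface order for fixed boundary conditions. -/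
theorem final (d : ℕ) (hd : 2 ≤ d) (S : Type) [MeasurableSpace S] (μ : Measure S) [IsProbabilityMeasure μ]
    (ψ : S → ℝ) (hψ : Measurable ψ) (M : ℝ) (hM : ∀ s, |ψ s| ≤ M) (hat : ∀ t : ℝ, μ {s | ψ s = t} = 0) :
    (MacroUnique μ ψ d ↔ VolumeOrder μ ψ d) ∧ (MacroUnique μ ψ d ↔ ¬ SurfaceOrder μ ψ d) :=
  volume_surface Pool.Agent.Zk69.SB.X1.t_X1 Pool.Agent.Zk86.SB.t_X3 hd hψ hM hat

end Pool.Agent.Zk83.SB.LD
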