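import Mathlib

/-!
# Chernoff bound for iid variables
-/

set_option autoImplicit false

open MeasureTheory Filter Topology

namespace Pool.Agent.Zk83.SB

/-- Chernoff bound for a sum of iid variables, in the infinite product. -/
def StY1 : Prop :=
  ∀ (ι : Type) [Countable ι] (S : Type) [MeasurableSpace S] (μ : Measure S) [IsProbabilityMeasure μ] (Y : S → ℝ),
    Measurable Y → ∀ a : ℝ, 0 < a → Integrable (fun s => Real.exp (a * Y s)) μ → ∀ (E : Finset ι) (s : ℝ),
    (Measure.infinitePi fun _ : ι => μ).real {X | s ≤ ∑ e ∈ E, Y (X e)} ≤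
      Real.exp (-(a * s)) * (∫ s, Real.exp (a * Y s) ∂μ) ^ E.card

end Pool.Agent.Zk83.SB
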