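import Pool.Agent.Zk83.SB.LD
import Pool.Agent.Zk83.SB.Stm9

/-!
# Large deviations for couplings with an exponential moment: truncation
-/

set_option autoImplicit false
set_option linter.unusedSectionVars false

open MeasureTheory ProbabilityTheory Filter Topology
open Pool.Agent.Zk58.EK

namespace Pool.Agent.Zk83.SB.LG

variable {d k : ℕ} {S : Type} [MeasurableSpace S] {μ : Measure S} [IsProbabilityMeasure μ]
  {ψ : S → ℝ} {R : ℕ} {F : (Bond d → S) → Cfg d k → ℝ}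

/-- truncation -/
noncomputable def cl (ψ : S → ℝ) (M : ℝ) (s : S) : ℝ := max (-M) (min M (ψ s))

/-- excess -/
noncomputable def Ym (ψ : S → ℝ) (M : ℝ) (s : S) : ℝ := max (|ψ s| - M) 0

omit [MeasurableSpace S] in
theorem cl_bd {M : ℝ} (hM : 0 ≤ M) (s : S) : |cl ψ M s| ≤ M := by
  unfold cl
  rw [abs_le]
  exact ⟨le_max_left _ _, max_le (by linarith) (min_le_left _ _)⟩

omit [MeasurableSpace S] in
theorem cl_diff {M : ℝ} (hM : 0 ≤ M) (s : S) : |ψ s - cl ψ M s| ≤ Ym ψ M s := by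
  unfold cl Ym
  rcases le_total (ψ s) M with h1 | h1
  · rw [min_eq_right h1]
    rcases le_total (-M) (ψ s) with h2 | h2
    · rw [max_eq_right h2, sub_self, abs_zero]
      exact le_max_right _ _
    · rw [max_eq_left h2, abs_of_nonpos (show ψ s - -M ≤ 0 by linarith)]
      refine le_trans ?_ (le_max_left _ _)
      rw [abs_of_nonpos (show ψ s ≤ 0 by linarith)]
      linarith
  · rw [min_eq_left h1, max_eq_right (by linarith), abs_of_nonneg (show 0 ≤ ψ s - M by linarith)]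
    refine le_trans ?_ (le_max_left _ _)
    rw [abs_of_nonneg (show 0 ≤ ψ s by linarith)]

theorem cl_meas (hψ : Measurable ψ) (M : ℝ) : Measurable (cl ψ M) :=
  measurable_const.max (measurable_const.min hψ)

theorem Ym_meas (hψ : Measurable ψ) (M : ℝ) : Measurable (Ym ψ M) :=
  (hψ.abs.sub_const M).max measurable_const

omit [MeasurableSpace S] in
theorem Ym_nonneg (M : ℝ) (s : S) : 0 ≤ Ym ψ M s := le_max_right _ _

omit [MeasurableSpace S] in
theorem Ym_le {M : ℝ} (hM : 0 ≤ M) (s : S) : Ym ψ M s ≤ |ψ s| :=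
  max_le (by linarith) (abs_nonneg _)

omit [MeasurableSpace S] in
theorem En_cl {M : ℝ} (hM : 0 ≤ M) (X : Bond d → S) (D : Finset (Site d)) {σ : Cfg d k} (hσ : IsConf σ) :
    |En (F0 ψ) X D σ - En (F0 (cl ψ M)) X D σ| ≤
      k * ∑ e ∈ D ×ˢ (Finset.univ : Finset (Fin d)), Ym ψ M (X e) := by
  unfold En F0
  rw [← Finset.sum_sub_distrib, Finset.sum_product, Finset.mul_sum]
  refine (Finset.abs_sum_le_sum_abs _ _).trans (Finset.sum_le_sum fun x _ => ?_)
  rw [← Finset.sum_sub_distrib]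
  refine (Finset.abs_sum_le_sum_abs _ _).trans ?_
  have h1 : (k : ℝ) * ∑ i : Fin d, Ym ψ M (X (x, i)) = ∑ _a : Fin k, ∑ i : Fin d, Ym ψ M (X (x, i)) := by
    simp
  rw [h1]
  refine Finset.sum_le_sum fun a _ => ?_
  rw [← Finset.sum_sub_distrib]
  refine (Finset.abs_sum_le_sum_abs _ _).trans (Finset.sum_le_sum fun i _ => ?_)
  rw [← sub_mul, abs_mul, abs_one (conf_sh hσ x a 0) (conf_sh hσ x a _), mul_one]
  have := cl_diff (ψ := ψ) hM (X (x, i))
  simpa [th] using this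

theorem memLp_of (hψ : Measurable ψ) {a : ℝ} (ha : 0 < a)
    (hexp : Integrable (fun s => Real.exp (a * |ψ s|)) μ) : MemLp ψ 2 μ := by
  rw [memLp_two_iff_integrable_sq hψ.aestronglyMeasurable]
  refine Integrable.mono' (hexp.const_mul (2 / a ^ 2)) (hψ.pow_const 2).aestronglyMeasurable
    (Eventually.of_forall fun s => ?_)
  rw [Real.norm_eq_abs, abs_of_nonneg (sq_nonneg _)]
  have h1 := Real.quadratic_le_exp_of_nonneg (x := a * |ψ s|) (by positivity)
  have h2 : 0 ≤ a * |ψ s| := by positivity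
  rw [div_mul_eq_mul_div, le_div_iff₀ (by positivity)]
  have h3 : (a * |ψ s|) ^ 2 = ψ s ^ 2 * a ^ 2 := by rw [mul_pow, sq_abs]; ring
  nlinarith

theorem cl_memLp (hψ : Measurable ψ) {M : ℝ} (hM : 0 ≤ M) : MemLp (cl ψ M) 2 μ :=
  MemLp.of_bound (cl_meas hψ M).aestronglyMeasurable M
    (Eventually.of_forall fun s => by rw [Real.norm_eq_abs]; exact cl_bd hM s)

theorem Mx_cl {M : ℝ} (hM : 0 ≤ M) (hψ : Measurable ψ) (hψ2 : MemLp ψ 2 μ) (hF : Good μ R F) (t : ℝ)
    (X : Bond d → S) (n : ℕ) :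
    |Mx (R + 2) (FT ψ F t) X 0 n - Mx (R + 2) (FT (cl ψ M) F t) X 0 n| ≤
      k * ∑ e ∈ cube 0 n ×ˢ (Finset.univ : Finset (Fin d)), Ym ψ M (X e) := by
  rw [abs_sub_le_iff]
  constructor
  · obtain ⟨A, hA⟩ := exists_Mx (R + 2) (FT ψ F t) X 0 n
    have h1 := En_le_Mx (FT_good (cl_meas hψ M) (cl_memLp hψ hM) hF t).loc X 0 n (conf_sp A)
    have h2 := (abs_le.1 (En_cl (ψ := ψ) hM X (cube 0 n) (conf_sp A))).2
    rw [hA]
    rw [En_FT] at h1 ⊢
    linarith
  · obtain ⟨A, hA⟩ := exists_Mx (R + 2) (FT (cl ψ M) F t) X 0 n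
    have h1 := En_le_Mx (FT_good hψ hψ2 hF t).loc X 0 n (conf_sp A)
    have h2 := (abs_le.1 (En_cl (ψ := ψ) hM X (cube 0 n) (conf_sp A))).1
    rw [hA]
    rw [En_FT] at h1 ⊢
    linarith

theorem Ym_int (hψ : Measurable ψ) (hψ2 : MemLp ψ 2 μ) {M : ℝ} (hM : 0 ≤ M) : Integrable (Ym ψ M) μ := by
  have h1 : Integrable ψ μ := hψ2.integrable (by norm_num)
  refine h1.abs.mono' (Ym_meas hψ M).aestronglyMeasurable (Eventually.of_forall fun s => ?_)
  rw [Real.norm_eq_abs, abs_of_nonneg (Ym_nonneg M s)]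
  exact Ym_le hM s

theorem Ym_ev_int (hψ : Measurable ψ) (hψ2 : MemLp ψ 2 μ) {M : ℝ} (hM : 0 ≤ M) (e : Bond d) :
    Integrable (fun X : Bond d → S => Ym ψ M (X e)) (PX d μ) :=
  (measurePreserving_eval_infinitePi (fun _ : Bond d => μ) e).integrable_comp_of_integrable (Ym_int hψ hψ2 hM)

theorem Ym_ev_mean (hψ : Measurable ψ) (M : ℝ) (e : Bond d) :
    ∫ X, Ym ψ M (X e) ∂(PX d μ) = ∫ s, Ym ψ M s ∂μ := by
  have h1 := (measurePreserving_eval_infinitePi (fun _ : Bond d => μ) e)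
  have h2 := integral_map (μ := PX d μ) (measurable_pi_apply e).aemeasurable
    (f := fun s => Ym ψ M s) (Ym_meas hψ M).aestronglyMeasurable
  rw [← h2]
  congr 1
  exact h1.map_eq

theorem gg_cl {M : ℝ} (hM : 0 ≤ M) (hψ : Measurable ψ) (hψ2 : MemLp ψ 2 μ) (hF : Good μ R F) (t : ℝ) :
    |gg μ ψ R F t - gg μ (cl ψ M) R F t| ≤ k * (d * ∫ s, Ym ψ M s ∂μ) := by
  have h1 := gg_lim hψ hψ2 hF t
  have h2 := gg_lim (cl_meas hψ M) (cl_memLp (μ := μ) hψ hM) hF t
  refine le_of_tendsto (h1.sub h2).abs ?_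
  filter_upwards [eventually_gt_atTop 0] with n hn
  have hn' : (0 : ℝ) < (n : ℝ) ^ d := by positivity
  rw [← sub_div, abs_div, abs_of_pos hn', div_le_iff₀ hn']
  unfold am
  have i1 := (Mx_mem (FT_good hψ hψ2 hF t) 0 n).integrable (by norm_num)
  have i2 := (Mx_mem (FT_good (cl_meas hψ M) (cl_memLp (μ := μ) hψ hM) hF t) 0 n).integrable (by norm_num)
  rw [← integral_sub i1 i2]
  refine (abs_integral_le_integral_abs).trans ?_
  refine (integral_mono (i1.sub i2).abs ((integrable_finsetSum _ fun e _ => Ym_ev_int hψ hψ2 hM e).const_mul (k : ℝ))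
    fun X => Mx_cl hM hψ hψ2 hF t X n).trans ?_
  rw [integral_const_mul, integral_finsetSum _ fun e _ => Ym_ev_int hψ hψ2 hM e]
  simp only [Ym_ev_mean hψ]
  rw [Finset.sum_const, Finset.card_product, card_cube, Finset.card_univ, Fintype.card_fin, nsmul_eq_mul]
  push_cast
  apply le_of_eq
  ring

theorem exp_int (hψ : Measurable ψ) {a : ℝ} (ha : 0 < a)
    (hexp : Integrable (fun s => Real.exp (a * |ψ s|)) μ) {M : ℝ} (hM : 0 ≤ M) :
    Integrable (fun s => Real.exp (a * Ym ψ M s)) μ := by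
  refine hexp.mono' ((Ym_meas hψ M).const_mul a).exp.aestronglyMeasurable (Eventually.of_forall fun s => ?_)
  rw [Real.norm_eq_abs, abs_of_pos (Real.exp_pos _), Real.exp_le_exp]
  exact mul_le_mul_of_nonneg_left (Ym_le hM s) ha.le

theorem exp_lim (hψ : Measurable ψ) {a : ℝ} (ha : 0 < a)
    (hexp : Integrable (fun s => Real.exp (a * |ψ s|)) μ) :
    Tendsto (fun m : ℕ => ∫ s, Real.exp (a * Ym ψ (m : ℝ) s) ∂μ) atTop (𝓝 1) := by
  have h0 : ∫ _s, (1 : ℝ) ∂μ = 1 := by simp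
  rw [← h0]
  refine tendsto_integral_of_dominated_convergence (fun s => Real.exp (a * |ψ s|))
    (fun m => ((Ym_meas hψ _).const_mul a).exp.aestronglyMeasurable) hexp (fun m => Eventually.of_forall fun s => ?_)
    (Eventually.of_forall fun s => ?_)
  · rw [Real.norm_eq_abs, abs_of_pos (Real.exp_pos _), Real.exp_le_exp]
    exact mul_le_mul_of_nonneg_left (Ym_le (Nat.cast_nonneg m) s) ha.le
  · obtain ⟨N, hN⟩ := exists_nat_ge |ψ s|
    refine tendsto_const_nhds.congr' ?_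
    filter_upwards [eventually_ge_atTop N] with m hm
    have h1 : (N : ℝ) ≤ m := by exact_mod_cast hm
    unfold Ym
    rw [max_eq_right (by linarith), mul_zero, Real.exp_zero]

theorem mean_le (hψ : Measurable ψ) (hψ2 : MemLp ψ 2 μ) {a : ℝ} (ha : 0 < a)
    (hexp : Integrable (fun s => Real.exp (a * |ψ s|)) μ) {M : ℝ} (hM : 0 ≤ M) :
    a * ∫ s, Ym ψ M s ∂μ ≤ ∫ s, Real.exp (a * Ym ψ M s) ∂μ - 1 := by
  have h0 : ∫ _s, (1 : ℝ) ∂μ = 1 := by simp
  rw [← integral_const_mul, ← h0, ← integral_sub (exp_int hψ ha hexp hM) (integrable_const _)]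
  refine integral_mono ((Ym_int hψ hψ2 hM).const_mul a) ((exp_int hψ ha hexp hM).sub (integrable_const _))
    fun s => ?_
  have := Real.add_one_le_exp (a * Ym ψ M s)
  simp only at *
  linarith

end Pool.Agent.Zk83.SB.LG
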