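import Pool.Agent.Zk83.SB.LG1

/-!
# Large deviations for couplings with an exponential moment: concentration
-/

set_option autoImplicit false
set_option linter.unusedSectionVars false

open MeasureTheory ProbabilityTheory Filter Topology
open Pool.Agent.Zk58.EK

namespace Pool.Agent.Zk83.SB.LG

variable {d k : ℕ} {S : Type} [MeasurableSpace S] {μ : Measure S} [IsProbabilityMeasure μ]
  {ψ : S → ℝ} {R : ℕ} {F : (Bond d → S) → Cfg d k → ℝ}

theorem F0_bd {M : ℝ} (hM : ∀ s, |ψ s| ≤ M) (X : Bond d → S) {σ : Cfg d k} (hσ : IsConf σ) :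
    |F0 ψ X σ| ≤ k * (d * M) := LD.F0_bd hM X hσ

/-- exponential concentration -/
theorem conc (hX1 : StX1) (hY1 : StY1) (hd : 1 ≤ d) (hψ : Measurable ψ) {a : ℝ} (ha : 0 < a)
    (hexp : Integrable (fun s => Real.exp (a * |ψ s|)) μ) (hF : Good μ R F) {CF : ℝ}
    (hFb : ∀ X σ, IsConf σ → |F X σ| ≤ CF) (t : ℝ) {ε : ℝ} (hε : 0 < ε) :
    ∃ c : ℝ, 0 < c ∧ ∃ n₀ : ℕ, ∀ n ≥ n₀,
      (PX d μ).real {X | ε * (n : ℝ) ^ d ≤ |Mx (R + 2) (FT ψ F t) X 0 n - (n : ℝ) ^ d * gg μ ψ R F t|} ≤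
        3 * Real.exp (-(c * (n : ℝ) ^ d)) := by
  have hψ2 := memLp_of hψ ha hexp
  set K : ℝ := (k : ℝ) + 1 with hK
  have hK0 : 0 < K := by positivity
  have hD0 : (0 : ℝ) < d := by exact_mod_cast hd
  set δ : ℝ := a * ε / (8 * K * d) with hδ
  have hδ0 : 0 < δ := by positivity
  have l1 := exp_lim hψ ha hexp
  obtain ⟨m, hm1, hm2⟩ := ((l1.eventually (gt_mem_nhds (show (1 : ℝ) < Real.exp δ by
    rw [← Real.exp_zero]; exact Real.exp_lt_exp.2 hδ0))).and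
    (l1.eventually (gt_mem_nhds (show (1 : ℝ) < 1 + 2 * δ by linarith)))).exists
  set M : ℝ := (m : ℝ) with hMdef
  have hM : 0 ≤ M := Nat.cast_nonneg m
  set q : ℝ := ∫ s, Real.exp (a * Ym ψ M s) ∂μ with hq
  have hq0 : 0 ≤ q := integral_nonneg fun s => (Real.exp_pos _).le
  obtain ⟨c1, hc1, n1, h1⟩ := hX1 d k (R + 2) hd S μ (FT (cl ψ M) F t) (k * (d * M) + |t| * CF)
    (FT_good (cl_meas hψ M) (cl_memLp (μ := μ) hψ hM) hF t) (by
      intro X σ hσ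
      unfold FT
      refine (abs_add_le _ _).trans (add_le_add (F0_bd (cl_bd hM) X hσ) ?_)
      rw [abs_mul]
      exact mul_le_mul_of_nonneg_left (hFb X σ hσ) (abs_nonneg _)) (ε / 2) (by linarith)
  set c2 : ℝ := a * ε / (8 * K) with hc2def
  have hc2 : 0 < c2 := by positivity
  refine ⟨min c1 c2, lt_min hc1 hc2, n1 + 1, fun n hn => ?_⟩
  have hn' : (0 : ℝ) < (n : ℝ) ^ d := by
    have : 0 < n := by omega
    positivity
  set B1 := {X | ε / 2 * (n : ℝ) ^ d ≤ |Mx (R + 2) (FT (cl ψ M) F t) X 0 n - (n : ℝ) ^ d *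
      gl μ (R + 2) (FT (cl ψ M) F t)|} with hB1
  set B2 := {X : Bond d → S | ε / (4 * K) * (n : ℝ) ^ d ≤
      ∑ e ∈ cube 0 n ×ˢ (Finset.univ : Finset (Fin d)), Ym ψ M (X e)} with hB2
  have hgg := gg_cl hM hψ hψ2 hF t
  have hmean := mean_le hψ hψ2 ha hexp hM
  have hgg2 : |gg μ ψ R F t - gg μ (cl ψ M) R F t| ≤ ε / 4 := by
    refine hgg.trans ?_
    have e1 : a * ∫ s, Ym ψ M s ∂μ ≤ 2 * δ := by linarith
    have e2 : ∫ s, Ym ψ M s ∂μ ≤ 2 * δ / a := by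
      rw [le_div_iff₀ ha]
      linarith
    have e3 : 2 * δ / a = ε / (4 * K * d) := by
      rw [hδ]
      field_simp
      ring
    rw [e3] at e2
    have e4 : (0 : ℝ) ≤ ∫ s, Ym ψ M s ∂μ := integral_nonneg fun s => Ym_nonneg M s
    calc (k : ℝ) * (d * ∫ s, Ym ψ M s ∂μ) ≤ K * (d * (ε / (4 * K * d))) := by
          have : (k : ℝ) ≤ K := by linarith
          gcongr
      _ = ε / 4 := by field_simp
  have hsub : {X | ε * (n : ℝ) ^ d ≤ |Mx (R + 2) (FT ψ F t) X 0 n - (n : ℝ) ^ d * gg μ ψ R F t|} ⊆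
      B1 ∪ B2 := by
    intro X hX
    by_contra hno
    simp only [hB1, hB2, Set.mem_union, Set.mem_ofPred_eq, not_or, not_le] at hno
    obtain ⟨x1, x2⟩ := hno
    change |Mx (R + 2) (FT (cl ψ M) F t) X 0 n - (n : ℝ) ^ d * gg μ (cl ψ M) R F t| < _ at x1
    have x3 := Mx_cl hM hψ hψ2 hF t X n
    have x4 : (k : ℝ) * ∑ e ∈ cube 0 n ×ˢ (Finset.univ : Finset (Fin d)), Ym ψ M (X e) ≤
        ε / 4 * (n : ℝ) ^ d := by
      have s0 : 0 ≤ ∑ e ∈ cube 0 n ×ˢ (Finset.univ : Finset (Fin d)), Ym ψ M (X e) :=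
        Finset.sum_nonneg fun e _ => Ym_nonneg M _
      calc (k : ℝ) * ∑ e ∈ cube 0 n ×ˢ (Finset.univ : Finset (Fin d)), Ym ψ M (X e)
          ≤ K * (ε / (4 * K) * (n : ℝ) ^ d) := by
            have : (k : ℝ) ≤ K := by linarith
            gcongr
        _ = ε / 4 * (n : ℝ) ^ d := by field_simp
    change ε * (n : ℝ) ^ d ≤ |Mx (R + 2) (FT ψ F t) X 0 n - (n : ℝ) ^ d * gg μ ψ R F t| at hX
    have x5 : |(n : ℝ) ^ d * gg μ (cl ψ M) R F t - (n : ℝ) ^ d * gg μ ψ R F t| ≤ ε / 4 * (n : ℝ) ^ d := by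
      rw [← mul_sub, abs_mul, abs_of_pos hn', abs_sub_comm, mul_comm]
      exact mul_le_mul_of_nonneg_right hgg2 hn'.le
    have x6 : |Mx (R + 2) (FT ψ F t) X 0 n - (n : ℝ) ^ d * gg μ ψ R F t| ≤
        |Mx (R + 2) (FT ψ F t) X 0 n - Mx (R + 2) (FT (cl ψ M) F t) X 0 n| +
        (|Mx (R + 2) (FT (cl ψ M) F t) X 0 n - (n : ℝ) ^ d * gg μ (cl ψ M) R F t| +
        |(n : ℝ) ^ d * gg μ (cl ψ M) R F t - (n : ℝ) ^ d * gg μ ψ R F t|) := by
      refine (abs_sub_le _ (Mx (R + 2) (FT (cl ψ M) F t) X 0 n) _).trans (add_le_add le_rfl ?_)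
      exact abs_sub_le _ _ _
    nlinarith
  have hcard : ((cube (0 : Site d) n ×ˢ (Finset.univ : Finset (Fin d))).card : ℝ) = (n : ℝ) ^ d * d := by
    rw [Finset.card_product, card_cube, Finset.card_univ, Fintype.card_fin]
    push_cast
    rfl
  have h2 : (PX d μ).real B2 ≤ Real.exp (-(c2 * (n : ℝ) ^ d)) := by
    have y1 := hY1 (Bond d) S μ (Ym ψ M) (Ym_meas hψ M) a ha (exp_int hψ ha hexp hM)
      (cube 0 n ×ˢ (Finset.univ : Finset (Fin d))) (ε / (4 * K) * (n : ℝ) ^ d)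
    refine y1.trans ?_
    have y2 : q ^ (cube (0 : Site d) n ×ˢ (Finset.univ : Finset (Fin d))).card ≤
        Real.exp (c2 * (n : ℝ) ^ d) := by
      refine (pow_le_pow_left₀ hq0 hm1.le _).trans ?_
      rw [← Real.exp_nat_mul, hcard, Real.exp_le_exp, hδ, hc2def]
      apply le_of_eq
      field_simp
    calc Real.exp (-(a * (ε / (4 * K) * (n : ℝ) ^ d))) *
          q ^ (cube (0 : Site d) n ×ˢ (Finset.univ : Finset (Fin d))).card
        ≤ Real.exp (-(a * (ε / (4 * K) * (n : ℝ) ^ d))) * Real.exp (c2 * (n : ℝ) ^ d) :=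
          mul_le_mul_of_nonneg_left y2 (Real.exp_pos _).le
      _ = Real.exp (-(c2 * (n : ℝ) ^ d)) := by
          rw [← Real.exp_add]
          congr 1
          rw [hc2def]
          field_simp
          ring
  have hm : ∀ ci : ℝ, min c1 c2 ≤ ci →
      Real.exp (-(ci * (n : ℝ) ^ d)) ≤ Real.exp (-(min c1 c2 * (n : ℝ) ^ d)) := by
    intro ci hci
    have : min c1 c2 * (n : ℝ) ^ d ≤ ci * (n : ℝ) ^ d := mul_le_mul_of_nonneg_right hci hn'.le
    exact Real.exp_le_exp.2 (neg_le_neg this)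
  calc (PX d μ).real _ ≤ (PX d μ).real (B1 ∪ B2) := measureReal_mono hsub
    _ ≤ (PX d μ).real B1 + (PX d μ).real B2 := measureReal_union_le _ _
    _ ≤ 2 * Real.exp (-(c1 * (n : ℝ) ^ d)) + Real.exp (-(c2 * (n : ℝ) ^ d)) :=
        add_le_add (h1 n (by omega)) h2
    _ ≤ 3 * Real.exp (-(min c1 c2 * (n : ℝ) ^ d)) := by
        have := hm c1 (min_le_left _ _)
        have := hm c2 (min_le_right _ _)
        linarith

/-- the boundary terms -/
theorem tn_conc (hY1 : StY1) (hψ : Measurable ψ) {a : ℝ} (ha : 0 < a)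
    (hexp : Integrable (fun s => Real.exp (a * |ψ s|)) μ) {δ : ℝ} (hδ : 0 < δ) :
    ∃ c : ℝ, 0 < c ∧ ∃ n₀ : ℕ, ∀ n ≥ n₀,
      (PX d μ).real {X | δ * (n : ℝ) ^ d ≤ Tn ψ X 0 n} ≤ Real.exp (-(c * (n : ℝ) ^ d)) := by
  set Q : ℝ := ∫ s, Real.exp (a * |ψ s|) ∂μ with hQ
  have hQ1 : 1 ≤ Q := by
    have h0 : ∫ _s, (1 : ℝ) ∂μ = 1 := by simp
    rw [← h0]
    refine integral_mono (integrable_const _) hexp fun s => ?_
    exact Real.one_le_exp (by positivity)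
  have hL : 0 ≤ Real.log Q := Real.log_nonneg hQ1
  have l1 : Tendsto (fun n : ℕ => (((n : ℝ) + 1) ^ d - ((n - 1 : ℕ) : ℝ) ^ d) /
      (n : ℝ) ^ d * (d * Real.log Q)) atTop (𝓝 0) := by
    simpa using (ratio_lim d).mul_const (d * Real.log Q)
  obtain ⟨n4, hn4⟩ := eventually_atTop.1 (l1.eventually (gt_mem_nhds (show 0 < a * δ / 2 by positivity)))
  refine ⟨a * δ / 2, by positivity, n4 + 1, fun n hn => ?_⟩
  have hn' : (0 : ℝ) < (n : ℝ) ^ d := by
    have : 0 < n := by omega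
    positivity
  have y1 := hY1 (Bond d) S μ (fun s => |ψ s|) hψ.abs a ha hexp
    (Ex (0 : Site d) n ×ˢ (Finset.univ : Finset (Fin d))) (δ * (n : ℝ) ^ d)
  refine (le_trans (le_of_eq ?_) y1).trans ?_
  · rfl
  have q2 := hn4 n (by omega)
  rw [div_mul_eq_mul_div, div_lt_iff₀ hn'] at q2
  have hcard : ((Ex (0 : Site d) n ×ˢ (Finset.univ : Finset (Fin d))).card : ℝ) ≤
      (((n : ℝ) + 1) ^ d - ((n - 1 : ℕ) : ℝ) ^ d) * d := by
    rw [Finset.card_product, Finset.card_univ, Fintype.card_fin]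
    push_cast
    exact mul_le_mul_of_nonneg_right (Ex_card _) (Nat.cast_nonneg d)
  have y2 : Q ^ (Ex (0 : Site d) n ×ˢ (Finset.univ : Finset (Fin d))).card ≤
      Real.exp (a * δ / 2 * (n : ℝ) ^ d) := by
    have e1 : Q = Real.exp (Real.log Q) := (Real.exp_log (by linarith)).symm
    rw [e1, ← Real.exp_nat_mul, Real.exp_le_exp]
    refine (mul_le_mul_of_nonneg_right hcard hL).trans ?_
    refine le_trans (le_of_eq ?_) q2.le
    ring
  calc Real.exp (-(a * (δ * (n : ℝ) ^ d))) * Q ^ (Ex (0 : Site d) n ×ˢ (Finset.univ : Finset (Fin d))).card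
      ≤ Real.exp (-(a * (δ * (n : ℝ) ^ d))) * Real.exp (a * δ / 2 * (n : ℝ) ^ d) :=
        mul_le_mul_of_nonneg_left y2 (Real.exp_pos _).le
    _ = Real.exp (-(a * δ / 2 * (n : ℝ) ^ d)) := by
        rw [← Real.exp_add]
        congr 1
        ring

end Pool.Agent.Zk83.SB.LG
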