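import Pool.Agent.Zk83.SB.LG2

/-!
# Volume order and surface order large deviations, for couplings with an exponential moment
-/

set_option autoImplicit false
set_option linter.unusedSectionVars false

open MeasureTheory ProbabilityTheory Filter Topology
open Pool.Agent.Zk58.EK
open Pool.Agent.Zk83.SB.LD (VolumeOrder SurfaceOrder Fov_bd pair_gs gs_cube vol_macro not_both)

namespace Pool.Agent.Zk83.SB.LG

variable {d k : ℕ} {S : Type} [MeasurableSpace S] {μ : Measure S} [IsProbabilityMeasure μ]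
  {ψ : S → ℝ} {R : ℕ} {F : (Bond d → S) → Cfg d k → ℝ}

theorem exp_small {c : ℝ} (hc : 0 < c) (hd : 1 ≤ d) : ∃ n₀ : ℕ, ∀ n ≥ n₀,
    10 * Real.exp (-(c * (n : ℝ) ^ d)) ≤ Real.exp (-(c / 2 * (n : ℝ) ^ d)) := by
  obtain ⟨N, hN⟩ := exists_nat_gt (6 / c)
  refine ⟨N + 1, fun n hn => ?_⟩
  have h1 : (N : ℝ) + 1 ≤ n := by exact_mod_cast hn
  have hn1 : (1 : ℝ) ≤ n := by
    have : (0 : ℝ) ≤ N := Nat.cast_nonneg N
    linarith
  have h2 : (n : ℝ) ≤ (n : ℝ) ^ d := le_self_pow₀ hn1 (by omega)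
  have h3 : 6 ≤ c * (n : ℝ) ^ d := by
    rw [div_lt_iff₀ hc] at hN
    nlinarith
  have h6 : (10 : ℝ) ≤ Real.exp 3 := by
    have h7 := Real.exp_one_gt_d9
    have h8 : Real.exp 3 = Real.exp 1 * (Real.exp 1 * Real.exp 1) := by
      rw [← Real.exp_add, ← Real.exp_add]; norm_num
    rw [h8]
    have h9 : (7 : ℝ) ≤ Real.exp 1 * Real.exp 1 := by nlinarith
    nlinarith
  have h9 : Real.exp (-(c / 2 * (n : ℝ) ^ d)) =
      Real.exp (c / 2 * (n : ℝ) ^ d) * Real.exp (-(c * (n : ℝ) ^ d)) := by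
    rw [← Real.exp_add]
    congr 1
    ring
  rw [h9]
  refine mul_le_mul_of_nonneg_right (h6.trans (Real.exp_le_exp.2 ?_)) (Real.exp_pos _).le
  linarith

/-- exponential version of `near_tail`, for ground states of cubes -/
theorem near_exp (hX1 : StX1) (hY1 : StY1) (hd : 1 ≤ d) (hψ : Measurable ψ) {a : ℝ} (ha : 0 < a)
    (hexp : Integrable (fun s => Real.exp (a * |ψ s|)) μ)
    (hF : Good μ R F) {CF : ℝ} (hFb : ∀ X σ, IsConf σ → |F X σ| ≤ CF) {l r η t0 : ℝ}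
    (hη : 0 < η) (ht0 : 0 < t0)
    (hr : ∀ t : ℝ, 0 < t → t ≤ t0 → gg μ ψ R F t - gg μ ψ R F 0 ≤ (r + η / 2) * t)
    (hl : ∀ t : ℝ, 0 < t → t ≤ t0 → (l - η / 2) * t ≤ gg μ ψ R F 0 - gg μ ψ R F (-t)) :
    ∃ c : ℝ, 0 < c ∧ ∃ n₀ : ℕ, ∀ n ≥ n₀,
      (PX d μ).real {X | ∃ σ : Cfg d k, (∀ a, CubeGS (fun e => ψ (X e)) 0 n (σ a)) ∧
        ¬ ((l - η) * (n : ℝ) ^ d ≤ En F X (cube 0 n) σ ∧ En F X (cube 0 n) σ ≤ (r + η) * (n : ℝ) ^ d)} ≤
        Real.exp (-(c * (n : ℝ) ^ d)) := by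
  have hψ2 := memLp_of hψ ha hexp
  set ε : ℝ := η * t0 / 8 with hε
  have hε0 : 0 < ε := by positivity
  set δ : ℝ := ε / (4 * ((k : ℝ) + 1)) with hδ
  have hδ0 : 0 < δ := by positivity
  obtain ⟨c1, hc1, n1, h1⟩ := conc hX1 hY1 hd hψ ha hexp hF hFb t0 hε0
  obtain ⟨c2, hc2, n2, h2⟩ := conc hX1 hY1 hd hψ ha hexp hF hFb (-t0) hε0
  obtain ⟨c3, hc3, n3, h3⟩ := conc hX1 hY1 hd hψ ha hexp hF hFb 0 hε0
  obtain ⟨c4, hc4, n4, h4⟩ := tn_conc (d := d) hY1 hψ ha hexp hδ0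
  set c : ℝ := min c1 (min c2 (min c3 c4)) with hcdef
  have hc : 0 < c := lt_min hc1 (lt_min hc2 (lt_min hc3 hc4))
  obtain ⟨n5, hn5⟩ := exp_small (d := d) hc hd
  refine ⟨c / 2, by positivity, n1 + n2 + n3 + n4 + n5 + 1, fun n hn => ?_⟩
  have hn' : (0 : ℝ) < (n : ℝ) ^ d := by
    have : 0 < n := by omega
    positivity
  refine le_trans ?_ (hn5 n (by omega))
  set B1 := {X | ε * (n : ℝ) ^ d ≤ |Mx (R + 2) (FT ψ F t0) X 0 n - (n : ℝ) ^ d *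
      gg μ ψ R F t0|} with hB1
  set B2 := {X | ε * (n : ℝ) ^ d ≤ |Mx (R + 2) (FT ψ F (-t0)) X 0 n - (n : ℝ) ^ d *
      gg μ ψ R F (-t0)|} with hB2
  set B3 := {X | ε * (n : ℝ) ^ d ≤ |Mx (R + 2) (FT ψ F 0) X 0 n - (n : ℝ) ^ d *
      gg μ ψ R F 0|} with hB3
  set B4 := {X : Bond d → S | δ * (n : ℝ) ^ d ≤ Tn ψ X 0 n} with hB4
  have hsub : {X | ∃ σ : Cfg d k, (∀ a, CubeGS (fun e => ψ (X e)) 0 n (σ a)) ∧
        ¬ ((l - η) * (n : ℝ) ^ d ≤ En F X (cube 0 n) σ ∧ En F X (cube 0 n) σ ≤ (r + η) * (n : ℝ) ^ d)} ⊆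
      (B1 ∪ B2) ∪ (B3 ∪ B4) := by
    intro X hX
    by_contra hno
    simp only [hB1, hB2, hB3, hB4, Set.mem_union, Set.mem_ofPred_eq, not_or, not_le] at hno
    obtain ⟨⟨x1, x2⟩, x3, x4⟩ := hno
    obtain ⟨σ, hσ, hbad⟩ := hX
    apply hbad
    have e1 := hr t0 ht0 le_rfl
    have e2 := hl t0 ht0 le_rfl
    have hconf : IsConf σ := fun a x => (hσ a).1 x
    have hbox : BoxGS (fun e => ψ (X e)) 0 n σ := ⟨hconf, fun a A hA => (hσ a).2 A hA⟩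
    have hTn : (k : ℝ) * (4 * Tn ψ X 0 n) ≤ ε * (n : ℝ) ^ d := by
      have hT0 : 0 ≤ Tn ψ X 0 n := Finset.sum_nonneg fun e _ => abs_nonneg _
      calc (k : ℝ) * (4 * Tn ψ X 0 n)
          ≤ ((k : ℝ) + 1) * (4 * (δ * (n : ℝ) ^ d)) := by
            have : (k : ℝ) ≤ (k : ℝ) + 1 := by linarith
            gcongr
        _ = ε * (n : ℝ) ^ d := by
            rw [hδ]
            field_simp
    have hmax : ∀ τ : Cfg d k, IsConf τ →
        En (F0 ψ) X (cube 0 n) τ ≤ En (F0 ψ) X (cube 0 n) σ + ε * (n : ℝ) ^ d := by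
      intro τ hτ
      have := En_near ψ X 0 n hbox hτ
      unfold Tn at hTn
      linarith
    have a1 := En_le_Mx (FT_good hψ hψ2 hF t0).loc X 0 n hconf
    have a2 := En_le_Mx (FT_good hψ hψ2 hF (-t0)).loc X 0 n hconf
    rw [En_FT] at a1 a2
    have a3 : Mx (R + 2) (FT ψ F 0) X 0 n ≤ En (F0 ψ) X (cube 0 n) σ + ε * (n : ℝ) ^ d := by
      obtain ⟨A, hA⟩ := exists_Mx (R + 2) (FT ψ F 0) X 0 n
      rw [hA, En_FT, zero_mul, add_zero]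
      exact hmax _ (conf_sp A)
    rw [abs_lt] at x1 x2 x3
    have f1 := mul_le_mul_of_nonneg_right e1 hn'.le
    have f2 := mul_le_mul_of_nonneg_right e2 hn'.le
    have g1 : t0 * En F X (cube 0 n) σ ≤ t0 * ((r + η) * (n : ℝ) ^ d) := by
      have : ε * (n : ℝ) ^ d = η * t0 / 8 * (n : ℝ) ^ d := by rw [hε]
      nlinarith [x1.1, x1.2, x3.1, x3.2, f1, mul_pos (mul_pos hη ht0) hn']
    have g2 : t0 * ((l - η) * (n : ℝ) ^ d) ≤ t0 * En F X (cube 0 n) σ := by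
      have : ε * (n : ℝ) ^ d = η * t0 / 8 * (n : ℝ) ^ d := by rw [hε]
      nlinarith [x2.1, x2.2, x3.1, x3.2, f2, mul_pos (mul_pos hη ht0) hn']
    exact ⟨le_of_mul_le_mul_left g2 ht0, le_of_mul_le_mul_left g1 ht0⟩
  have hm : ∀ ci : ℝ, c ≤ ci → Real.exp (-(ci * (n : ℝ) ^ d)) ≤ Real.exp (-(c * (n : ℝ) ^ d)) := by
    intro ci hci
    have : c * (n : ℝ) ^ d ≤ ci * (n : ℝ) ^ d := mul_le_mul_of_nonneg_right hci hn'.le
    exact Real.exp_le_exp.2 (neg_le_neg this)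
  calc (PX d μ).real _ ≤ (PX d μ).real ((B1 ∪ B2) ∪ (B3 ∪ B4)) := measureReal_mono hsub
    _ ≤ ((PX d μ).real B1 + (PX d μ).real B2) + ((PX d μ).real B3 + (PX d μ).real B4) :=
        (measureReal_union_le _ _).trans (add_le_add (measureReal_union_le _ _) (measureReal_union_le _ _))
    _ ≤ (3 * Real.exp (-(c1 * (n : ℝ) ^ d)) + 3 * Real.exp (-(c2 * (n : ℝ) ^ d))) +
        (3 * Real.exp (-(c3 * (n : ℝ) ^ d)) + Real.exp (-(c4 * (n : ℝ) ^ d))) :=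
        add_le_add (add_le_add (h1 n (by omega)) (h2 n (by omega)))
          (add_le_add (h3 n (by omega)) (h4 n (by omega)))
    _ ≤ 10 * Real.exp (-(c * (n : ℝ) ^ d)) := by
        have := hm c1 (min_le_left _ _)
        have := hm c2 ((min_le_right _ _).trans (min_le_left _ _))
        have := hm c3 ((min_le_right _ _).trans ((min_le_right _ _).trans (min_le_left _ _)))
        have := hm c4 ((min_le_right _ _).trans ((min_le_right _ _).trans (min_le_right _ _)))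
        linarith

/-- if the left derivative is maximal then there is uniqueness with exponentially small failure probability -/
theorem vol_of_le (hX1 : StX1) (hY1 : StY1) (hd : 1 ≤ d) (hψ : Measurable ψ) {a : ℝ} (ha : 0 < a)
    (hexp : Integrable (fun s => Real.exp (a * |ψ s|)) μ) {l r : ℝ}
    (hl : (d : ℝ) ≤ l)
    (hlr : ∀ ε : ℝ, 0 < ε → ∃ t0 : ℝ, 0 < t0 ∧ ∀ t : ℝ, 0 < t → t ≤ t0 →
      gg μ ψ 2 (Fov d S) (0 + t) - gg μ ψ 2 (Fov d S) 0 ≤ (r + ε) * t ∧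
        (l - ε) * t ≤ gg μ ψ 2 (Fov d S) 0 - gg μ ψ 2 (Fov d S) (0 - t)) : VolumeOrder μ ψ d := by
  intro ε hε
  obtain ⟨t0, ht0, h⟩ := hlr (ε / 2) (by linarith)
  obtain ⟨c, hc, n₀, h1⟩ := near_exp (μ := μ) (F := Fov d S) (R := 2) (l := l) (r := r) hX1 hY1 hd hψ ha hexp Fov_good
    (fun X σ hσ => Fov_bd X hσ) hε ht0 (fun t h1 h2 => by simpa using (h t h1 h2).1)
    (fun t h1 h2 => by simpa using (h t h1 h2).2)
  refine ⟨c, hc, n₀ + 1, fun n hn => ?_⟩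
  have hn' : (0 : ℝ) < (n : ℝ) ^ d := by
    have : 0 < n := by omega
    positivity
  have hsub : {X : Bond d → S | ∃ ρ τ : Site d → ℝ, CubeGS (fun e => ψ (X e)) 0 n ρ ∧
      CubeGS (fun e => ψ (X e)) 0 n τ ∧ ε * (n : ℝ) ^ d ≤ dif 0 n ρ τ} ⊆
      {X | ∃ σ : Cfg d 2, (∀ a, CubeGS (fun e => ψ (X e)) 0 n (σ a)) ∧
        ¬ ((l - ε) * (n : ℝ) ^ d ≤ En (Fov d S) X (cube 0 n) σ ∧
          En (Fov d S) X (cube 0 n) σ ≤ (r + ε) * (n : ℝ) ^ d)} := by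
    rintro X ⟨ρ, τ, hρ, hτ, hdif⟩
    refine ⟨![ρ, τ], pair_gs hρ hτ, fun hcon => ?_⟩
    have h2 := hcon.1
    rw [En_Fov X 0 n (fun a x => (pair_gs hρ hτ a).1 x)] at h2
    simp only [Matrix.cons_val_zero, Matrix.cons_val_one] at h2
    nlinarith
  refine (measure_mono hsub).trans ?_
  rw [← ofReal_measureReal (measure_ne_top _ _)]
  exact ENNReal.ofReal_le_ofReal (h1 n (by omega))

theorem macro_vol (hX1 : StX1) (hY1 : StY1) (hd : 2 ≤ d) (hψ : Measurable ψ) {a : ℝ} (ha : 0 < a)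
    (hexp : Integrable (fun s => Real.exp (a * |ψ s|)) μ)
    (hat : ∀ t : ℝ, μ {s | ψ s = t} = 0) (h : MacroUnique μ ψ d) : VolumeOrder μ ψ d := by
  have hψ2 := memLp_of hψ ha hexp
  have hBU := ess_boundary hd hψ hψ2 (diff_ess hd hψ hψ2 hat h)
  have hG : Good μ 2 (Fov d S) := Fov_good
  obtain ⟨-, h0⟩ := cvx (gg μ ψ 2 (Fov d S)) (gg_convex hψ hψ2 hG)
  obtain ⟨l, r, hle, hR, hL, hD, hr1, hl1, hlr⟩ := h0 0
  refine vol_of_le hX1 hY1 (by omega) hψ ha hexp (l := l) (r := r) ?_ hlr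
  by_contra hcon
  rw [not_le] at hcon
  have hη : (0 : ℝ) < (d - l) / 4 := by linarith
  have h1 := freq_of_tendsto (prob_att hd hψ hψ2 hat hG hr1 hl1 hlr (fun _ => 0) hη)
  obtain ⟨X, hX1, hX2⟩ := (h1.and (hBU fun _ => 0)).exists
  obtain ⟨n, ⟨hn1, hn2⟩, hn3⟩ := ((hX1.and_eventually (hX2 _ hη)).and_eventually
    (eventually_gt_atTop 0)).exists
  simp only [Set.mem_ofPred_eq, not_not] at hn1
  obtain ⟨σ, τ, -, hτ, -, h2⟩ := hn1
  have h3 := hn2 (τ 0) (τ 1) (gs_cube (hτ 0) n) (gs_cube (hτ 1) n)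
  rw [En_Fov X 0 n (GSs_WGS hτ).1] at h2
  have h4 : (0 : ℝ) < (n : ℝ) ^ d := by positivity
  nlinarith

theorem surface (hX1 : StX1) (hY1 : StY1) (hX3 : StX3) (hd : 2 ≤ d) (hψ : Measurable ψ) {a : ℝ} (ha : 0 < a)
    (hexp : Integrable (fun s => Real.exp (a * |ψ s|)) μ)
    (hat : ∀ t : ℝ, μ {s | ψ s = t} = 0) (h : ¬ MacroUnique μ ψ d) : SurfaceOrder μ ψ d := by
  have hψ2 := memLp_of hψ ha hexp
  have hG : Good μ 2 (Fov d S) := Fov_good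
  obtain ⟨-, h0⟩ := cvx (gg μ ψ 2 (Fov d S)) (gg_convex hψ hψ2 hG)
  obtain ⟨l, r, hle, hR, hL, hD, hr1, hl1, hlr⟩ := h0 0
  have hl : l < d := by
    by_contra hcon
    push Not at hcon
    exact h (vol_macro (by omega) (vol_of_le hX1 hY1 (by omega) hψ ha hexp hcon hlr))
  have hη : (0 : ℝ) < (d - l) / 2 := by linarith
  have hp := prob_att hd hψ hψ2 hat hG hr1 hl1 hlr (fun _ => 0) hη
  obtain ⟨K, hK⟩ := hX3 d (by omega)
  obtain ⟨n1, hn1⟩ := eventually_atTop.1 (hp.eventually (gt_mem_nhds (show (0 : ENNReal) < 1 / 2 by norm_num)))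
  refine ⟨(d - l) / 4, by linarith, K, n1 + 1, fun n hn => ?_⟩
  refine hK S μ ψ ((d - l) / 4) n (by omega) ?_
  have hlt := hn1 n (by omega)
  set E : Set (Bond d → S) := {X | ∃ ρ τ : Site d → ℝ, CubeGS (fun e => ψ (X e)) 0 n ρ ∧
      CubeGS (fun e => ψ (X e)) 0 n τ ∧ (d - l) / 4 * (n : ℝ) ^ d ≤ dif 0 n ρ τ} with hE
  have hsub : Eᶜ ⊆ {X | ¬ ∃ σ τ : Cfg d 2, GSs (fun e => ψ (X e)) σ ∧
      GSs (fun e => ψ (X e)) τ ∧ (r - (d - l) / 2) * (n : ℝ) ^ d ≤ En (Fov d S) X (cube 0 n) σ ∧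
        En (Fov d S) X (cube 0 n) τ ≤ (l + (d - l) / 2) * (n : ℝ) ^ d} := by
    intro X hX hcon
    obtain ⟨σ, τ, -, hτ, -, h2⟩ := hcon
    apply hX
    refine ⟨τ 0, τ 1, gs_cube (hτ 0) n, gs_cube (hτ 1) n, ?_⟩
    rw [En_Fov X 0 n (GSs_WGS hτ).1] at h2
    have h4 : (0 : ℝ) ≤ (n : ℝ) ^ d := by positivity
    nlinarith
  have h5 : (PX d μ) Eᶜ < 1 / 2 := lt_of_le_of_lt (measure_mono hsub) hlt
  have h6 : (1 : ENNReal) ≤ (PX d μ) E + (PX d μ) Eᶜ := by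
    have : (PX d μ) Set.univ = 1 := measure_univ
    rw [← this, ← Set.union_compl_self E]
    exact measure_union_le _ _
  by_contra hcon
  push Not at hcon
  have h7 : (PX d μ) E + (PX d μ) Eᶜ < 1 / 2 + 1 / 2 := ENNReal.add_lt_add hcon h5
  rw [ENNReal.add_halves] at h7
  exact absurd h6 (not_le.2 h7)

/-- **Theorem.** -/
theorem volume_surface (hX1 : StX1) (hY1 : StY1) (hX3 : StX3) (hd : 2 ≤ d) (hψ : Measurable ψ) {a : ℝ} (ha : 0 < a)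
    (hexp : Integrable (fun s => Real.exp (a * |ψ s|)) μ)
    (hat : ∀ t : ℝ, μ {s | ψ s = t} = 0) :
    (MacroUnique μ ψ d ↔ VolumeOrder μ ψ d) ∧ (MacroUnique μ ψ d ↔ ¬ SurfaceOrder μ ψ d) := by
  refine ⟨⟨macro_vol hX1 hY1 hd hψ ha hexp hat, vol_macro (by omega)⟩, ⟨fun h hs => ?_, fun h => ?_⟩⟩
  · exact not_both (by omega) (macro_vol hX1 hY1 hd hψ ha hexp hat h) hs
  · by_contra hno
    exact h (surface hX1 hY1 hX3 hd hψ ha hexp hat hno)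

end Pool.Agent.Zk83.SB.LG
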