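import Pool.Agent.Zk83.SB.Geo

/-!
# Symmetry breaking forces uncountably many ground states
-/

set_option autoImplicit false

open MeasureTheory ProbabilityTheory Filter Topology

namespace Pool.Agent.Zk83.SB

variable {d : ℕ}

/-- the event that the spins in `W` are equal to `s` -/
def Cyl (W : Finset (Site d)) (s : ℝ) : Set (Site d → ℝ) := {σ | ∀ x ∈ W, σ x = s}

lemma measurableSet_Cyl (W : Finset (Site d)) (s : ℝ) : MeasurableSet (Cyl W s) := by
  have : Cyl W s = ⋂ x ∈ W, (fun σ : Site d → ℝ => σ x) ⁻¹' {s} := by ext; simp [Cyl]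
  rw [this]
  exact Finset.measurableSet_biInter _ fun x _ => (measurable_pi_apply x) (measurableSet_singleton s)

/-- its probability -/
noncomputable def fC (κ : Kernel (Bond d → ℝ) (Site d → ℝ)) (W : Finset (Site d)) (s : ℝ) (J : Bond d → ℝ) : ℝ :=
  (κ J).real (Cyl W s)

lemma measurable_fC (κ : Kernel (Bond d → ℝ) (Site d → ℝ)) (W : Finset (Site d)) (s : ℝ) :
    Measurable (fC κ W s) :=
  (κ.measurable_coe (measurableSet_Cyl W s)).ennreal_toReal

lemma fC_01 (κ : Kernel (Bond d → ℝ) (Site d → ℝ)) [IsMarkovKernel κ] (W : Finset (Site d)) (s : ℝ)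
    (J : Bond d → ℝ) : 0 ≤ fC κ W s J ∧ fC κ W s J ≤ 1 :=
  ⟨measureReal_nonneg, measureReal_le_one⟩

/-- Borel-Cantelli: far away the flips in the boxes change local functions little -/
lemma close (hB : StB) {w : Site d} (hw : w ≠ 0) {P : Measure (Bond d → ℝ)} [IsProbabilityMeasure P] (hP : Inv w P)
    (f : (Bond d → ℝ) → ℝ) (hf : Measurable f) (h01 : ∀ x, 0 ≤ f x ∧ f x ≤ 1) :
    ∃ R : ℕ → ℕ, ∀ (r : ℕ → ℕ), (∀ i, R i + 1 ≤ r i) → ∀ η : ℝ, 0 < η →
      ∀ᵐ J ∂P, ∀ᵐ U ∂coin, ∀ᶠ i in atTop,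
        |f (mJ (ctr w r i) (gJ (eps w r U) J)) - f (mJ (ctr w r i) J)| ≤ η := by
  classical
  have h1 : ∀ i : ℕ, ∃ F : Finset (Bond d), ∀ T : (Bond d → ℝ) → (Bond d → ℝ),
      MeasurePreserving T P P → (∀ x, ∀ i ∈ F, T x i = x i) → ∫ x, |f (T x) - f x| ∂P ≤ (1 / 2 : ℝ) ^ i :=
    fun i => hB (Bond d) P f hf h01 ((1 / 2 : ℝ) ^ i) (by positivity)
  choose F hF using h1
  have h2 : ∀ i, ∃ R : ℕ, ∀ e ∈ F i, e.1 ∈ ball (0 : Site d) R := by
    intro i
    obtain ⟨R, hR⟩ := finset_subset_ball ((F i).image Prod.fst)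
    exact ⟨R, fun e he => hR _ (Finset.mem_image_of_mem _ he)⟩
  choose R hR using h2
  refine ⟨R, fun r hr η hη => ?_⟩
  set D : ℕ → Set ((Bond d → ℝ) × (ℕ → Bool)) := fun i =>
    {p | η < |f (mJ (ctr w r i) (gJ (eps w r p.2) p.1)) - f (mJ (ctr w r i) p.1)|} with hD
  have hDm : ∀ i, MeasurableSet (D i) := by
    intro i
    refine measurableSet_lt measurable_const ?_
    refine Measurable.abs (Measurable.sub ?_ ?_)
    · exact hf.comp ((measurable_mJ _).comp (measurable_flip w r))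
    · exact hf.comp ((measurable_mJ _).comp measurable_fst)
  have hsec : ∀ i (U : ℕ → Bool), P {J | (J, U) ∈ D i} ≤ ENNReal.ofReal ((1 / 2 : ℝ) ^ i / η) := by
    intro i U
    set ε' := mS (ctr w r i) (eps w r U) with hε'
    have hs' : IsSign ε' := mS_sign (eps_sign w r U) _
    have hT := hP.mp_gauge hs'
    have hint := hF i (gJ ε') hT (fun x e he => gJ_near hw r U i (hr i) x e (hR i e he))
    have hmeasf : Measurable fun x => |f (gJ ε' x) - f x| := by
      refine Measurable.abs (Measurable.sub ?_ hf)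
      exact hf.comp (measurable_gJ ε')
    have hbd : ∀ x, |f (gJ ε' x) - f x| ≤ 1 := by
      intro x
      rw [abs_le]
      have := h01 (gJ ε' x)
      have := h01 x
      constructor <;> linarith
    have hI : Integrable (fun x => |f (gJ ε' x) - f x|) P := by
      refine Integrable.of_bound hmeasf.aestronglyMeasurable 1 (Eventually.of_forall fun x => ?_)
      rw [Real.norm_eq_abs, abs_abs]
      exact hbd x
    have hmark := mul_meas_ge_le_integral_of_nonneg (μ := P) (f := fun x => |f (gJ ε' x) - f x|)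
      (Eventually.of_forall fun x => abs_nonneg _) hI η
    have hset : {J | (J, U) ∈ D i} = mJ (ctr w r i) ⁻¹' {x | η < |f (gJ ε' x) - f x|} := by
      ext J
      simp only [hD, Set.mem_ofPred_eq, Set.mem_preimage]
      rw [move_gauge]
    have hms : MeasurableSet {x | η < |f (gJ ε' x) - f x|} := measurableSet_lt measurable_const hmeasf
    have hpre : P (mJ (ctr w r i) ⁻¹' {x | η < |f (gJ ε' x) - f x|}) = P {x | η < |f (gJ ε' x) - f x|} :=
      (hP.mp_move (pos r i)).measure_preimage hms.nullMeasurableSet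
    rw [hset, hpre]
    have h3 : P {x | η < |f (gJ ε' x) - f x|} ≤ P {x | η ≤ |f (gJ ε' x) - f x|} :=
      measure_mono fun x hx => by
        simp only [Set.mem_ofPred_eq] at hx ⊢
        exact hx.le
    refine h3.trans ?_
    rw [← ofReal_measureReal (measure_ne_top P _)]
    refine ENNReal.ofReal_le_ofReal ?_
    rw [le_div_iff₀ hη, mul_comm]
    exact hmark.trans hint
  have hprod : ∀ i, (P.prod coin) (D i) ≤ ENNReal.ofReal ((1 / 2 : ℝ) ^ i / η) := by
    intro i
    rw [Measure.prod_apply_symm (hDm i)]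
    calc ∫⁻ U, P ((fun x => (x, U)) ⁻¹' D i) ∂coin ≤ ∫⁻ _, ENNReal.ofReal ((1 / 2 : ℝ) ^ i / η) ∂coin :=
          lintegral_mono fun U => hsec i U
      _ = ENNReal.ofReal ((1 / 2 : ℝ) ^ i / η) := by simp
  have hsum : ∑' i, (P.prod coin) (D i) ≠ ⊤ := by
    have hs : Summable fun i : ℕ => (1 / 2 : ℝ) ^ i / η :=
      (summable_geometric_of_lt_one (by norm_num) (by norm_num)).div_const η
    exact ne_top_of_le_ne_top hs.tsum_ofReal_ne_top (ENNReal.tsum_le_tsum hprod)
  have hae := ae_eventually_notMem hsum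
  have hae2 := Measure.ae_ae_of_ae_prod hae
  filter_upwards [hae2] with J hJ
  filter_upwards [hJ] with U hU
  filter_upwards [hU] with i hi
  simpa only [hD, Set.mem_ofPred_eq, not_lt] using hi

/-- a property which holds for almost all couplings holds after almost all flips -/
lemma flips {w : Site d} {P : Measure (Bond d → ℝ)} [IsProbabilityMeasure P] (hP : Inv w P) {Good : (Bond d → ℝ) → Prop}
    (h : ∀ᵐ J ∂P, Good J) (r : ℕ → ℕ) :
    ∀ᵐ J ∂P, ∀ᵐ U ∂coin, Good (gJ (eps w r U) J) := by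
  set N := toMeasurable P {J | ¬ Good J} with hN
  have hN0 : P N = 0 := by rw [hN, measure_toMeasurable]; exact h
  have hNm : MeasurableSet N := measurableSet_toMeasurable _ _
  have hsub : ∀ J, J ∉ N → Good J := by
    intro J hJ
    by_contra h0
    exact hJ (subset_toMeasurable P {J | ¬ Good J} h0)
  have hm : MeasurableSet {p : (Bond d → ℝ) × (ℕ → Bool) | gJ (eps w r p.2) p.1 ∉ N} :=
    (measurable_flip w r) hNm.compl
  have h2 : ∀ᵐ J ∂P, ∀ᵐ U ∂coin, gJ (eps w r U) J ∉ N := by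
    refine (Measure.ae_ae_comm hm).2 (Eventually.of_forall fun U => ?_)
    have hq := (hP.mp_gauge (eps_sign w r U)).quasiMeasurePreserving
    have : ∀ᵐ J ∂P, J ∉ N := by
      rw [ae_iff]
      simpa using hN0
    exact hq.ae this
  filter_upwards [h2] with J hJ
  filter_upwards [hJ] with U hU
  exact hsub _ hU

/-- the contradiction for one realisation of the couplings -/
lemma contra (hI : StI) {κ : Kernel (Bond d → ℝ) (Site d → ℝ)} [IsMarkovKernel κ] (W : Finset (Site d))
    {η : ℝ} (hη : 0 < η) {w : Site d} (hw : w ≠ 0) (r : ℕ → ℕ) (hW : ∀ i, ∀ x ∈ W, x ∈ ball (0 : Site d) (r i))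
    (J : Bond d → ℝ) (hJ : (GS J).Countable)
    (hfreq : ∃ᶠ i in atTop, 3 * η < |fC κ W 1 (mJ (ctr w r i) J) - fC κ W (-1) (mJ (ctr w r i) J)|)
    (hU : ∀ᵐ U ∂coin, ((∀ᵐ σ ∂(κ (gJ (eps w r U) J)), IsGroundState (gJ (eps w r U) J) σ) ∧
        ∀ i, κ (mJ (ctr w r i) (gJ (eps w r U) J)) = (κ (gJ (eps w r U) J)).map (mS (ctr w r i))) ∧
      (∀ᶠ i in atTop,
        |fC κ W 1 (mJ (ctr w r i) (gJ (eps w r U) J)) - fC κ W 1 (mJ (ctr w r i) J)| ≤ η) ∧
      ∀ᶠ i in atTop,
        |fC κ W (-1) (mJ (ctr w r i) (gJ (eps w r U) J)) - fC κ W (-1) (mJ (ctr w r i) J)| ≤ η) :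
    False := by
  have hprob : ∀ U : ℕ → Bool, IsProbabilityMeasure ((κ (gJ (eps w r U) J)).map (gS (eps w r U))) :=
    fun U => Measure.isProbabilityMeasure_map (measurable_gS _).aemeasurable
  refine hI (Site d → ℝ) (GS J) hJ (fun U => (κ (gJ (eps w r U) J)).map (gS (eps w r U))) hprob
    (fun i => mS (ctr w r i) ⁻¹' Cyl W 1) (fun i => (measurable_mS _) (measurableSet_Cyl W 1))
    (fun i => fC κ W 1 (mJ (ctr w r i) J)) (fun i => fC κ W (-1) (mJ (ctr w r i) J)) η hη hfreq ?_
  filter_upwards [hU] with U hU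
  obtain ⟨⟨hs, hc⟩, h1, h2⟩ := hU
  constructor
  · have hms : MeasurableSet (GS J) := hJ.measurableSet
    refine (ae_map_iff (measurable_gS _).aemeasurable hms).2 ?_
    filter_upwards [hs] with σ hσ
    exact gs_of_gauge (eps_sign w r U) hσ
  · filter_upwards [h1, h2] with i h1 h2
    have hpre : ∀ (i : ℕ), gS (eps w r U) ⁻¹' (mS (ctr w r i) ⁻¹' Cyl W 1) =
        mS (ctr w r i) ⁻¹' Cyl W (if U i then -1 else 1) := by
      intro i
      ext σ
      simp only [Set.mem_preimage, Cyl, Set.mem_ofPred_eq]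
      refine forall₂_congr fun x hx => ?_
      have h3 : eps w r U (x + ctr w r i) = if U i then -1 else 1 := eps_near hw r U i x (hW i x hx)
      simp only [mS, gS, h3]
      split_ifs
      · constructor <;> intro h <;> linarith
      · simp
    have hval : ∀ i : ℕ, ((κ (gJ (eps w r U) J)).map (gS (eps w r U))).real (mS (ctr w r i) ⁻¹' Cyl W 1) =
        fC κ W (if U i then -1 else 1) (mJ (ctr w r i) (gJ (eps w r U) J)) := by
      intro i
      rw [map_measureReal_apply (measurable_gS _) ((measurable_mS _) (measurableSet_Cyl W 1)), hpre i]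
      unfold fC
      rw [hc i, map_measureReal_apply (measurable_mS _) (measurableSet_Cyl W _)]
    rw [hval i]
    by_cases hUi : U i = true
    · simp only [hUi, if_true]
      exact h2
    · simp only [hUi]
      exact h1

end Pool.Agent.Zk83.SB
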