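import Pool.Agent.Zk83.SB.U7
import Pool.Agent.Zk83.SB.B2

/-!
# The parts of the theorem `MP_37ff18_mp.SymmetryBreaking`
-/

set_option autoImplicit false

open MeasureTheory ProbabilityTheory Filter Topology

namespace Pool.Agent.Zk83.SB

/-- `Q` is a translation invariant law of couplings (with law `P`) and ground states. -/
structure InvLaw {d : ℕ} (P : Measure (Bond d → ℝ)) (Q : Measure ((Bond d → ℝ) × (Site d → ℝ))) : Prop where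
  prob : IsProbabilityMeasure Q
  fst : Q.map Prod.fst = P
  inv : ∀ v : Site d, Q.map (fun p => (mJ v p.1, mS v p.2)) = Q
  gs : ∀ᵐ p ∂Q, IsGroundState p.1 p.2

/-- `Q n` are asymptotically translation invariant laws of couplings and spins, and the law of the couplings converges
to the law of iid couplings with law `μ`. -/
structure AsympLaws {d : ℕ} (μ : Measure ℝ) (Q : ℕ → Measure ((Bond d → ℝ) × (Site d → ℝ))) : Prop where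
  prob : ∀ n, IsProbabilityMeasure (Q n)
  fst : ∀ f : BoundedContinuousFunction (Bond d → ℝ) ℝ, Tendsto (fun n => ∫ p, f p.1 ∂(Q n)) atTop
    (𝓝 (∫ J, f J ∂(Measure.infinitePi fun _ : Bond d => μ)))
  inv : ∀ v : Site d, ∀ f : BoundedContinuousFunction ((Bond d → ℝ) × (Site d → ℝ)) ℝ,
    Tendsto (fun n => ∫ p, f (mJ v p.1, mS v p.2) ∂(Q n) - ∫ p, f p ∂(Q n)) atTop (𝓝 0)
  sign : ∀ n, ∀ᵐ p ∂(Q n), ∀ x, p.2 x = 1 ∨ p.2 x = -1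

/-- Part 1: all ground states of cubes, for all boundary conditions; exponential bound, almost sure statement,
independent symmetric couplings. -/
def Part1 : Prop :=
  (∀ (d k r : ℕ), 1 ≤ d → ∀ δ : ℝ, 0 < δ → ∃ c : ℝ, 0 < c ∧ ∃ n₀ : ℕ, ∀ n ≥ n₀,
    ∀ (P : Measure (Bond d → ℝ)) [IsProbabilityMeasure P], GaugeInv P →
    ∀ F : Site d → (Bond d → ℝ) → (Fin k → Site d → ℝ) → ℝ, OddObs d k r F →
      P {J | ∃ σ : Fin k → Site d → ℝ, (∀ a, BoxGS (cube d n) J (σ a)) ∧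
        δ * (n : ℝ) ^ d ≤ |∑ x ∈ cube d n, F x J σ|} ≤ ENNReal.ofReal (Real.exp (-(c * (n : ℝ) ^ d)))) ∧
  (∀ (d k r : ℕ), 1 ≤ d → ∀ (P : Measure (Bond d → ℝ)) [IsProbabilityMeasure P], GaugeInv P →
    ∀ F : Site d → (Bond d → ℝ) → (Fin k → Site d → ℝ) → ℝ, OddObs d k r F →
      ∀ᵐ J ∂P, ∀ δ : ℝ, 0 < δ → ∀ᶠ n : ℕ in atTop, ∀ σ : Fin k → Site d → ℝ,
        (∀ a, IsGroundState J (σ a) ∨ BoxGS (cube d n) J (σ a)) →
          |∑ x ∈ cube d n, F x J σ| < δ * (n : ℝ) ^ d) ∧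
  ∀ (d : ℕ) (μ : Bond d → Measure ℝ) [∀ e, IsProbabilityMeasure (μ e)],
    (∀ e, (μ e).map (fun x => -x) = μ e) → GaugeInv (Measure.infinitePi μ)

/-- Part 2: translation invariant laws. -/
def Part2 : Prop :=
  ∀ (d : ℕ) (P : Measure (Bond d → ℝ)) [IsProbabilityMeasure P], GaugeInv P → (∀ v : Site d, P.map (mJ v) = P) →
    (∀ Q : Measure ((Bond d → ℝ) × (Site d → ℝ)), InvLaw P Q → Q.map (fun p => (p.1, -p.2)) = Q) ∧
    (∀ S : (Bond d → ℝ) → (Site d → ℝ), Measurable S →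
      (∀ v : Site d, ∀ᵐ J ∂P, S (mJ v J) = mS v (S J)) → ¬ ∀ᵐ J ∂P, IsGroundState J (S J)) ∧
    ((∀ᵐ J ∂P, ∃ σ, ∀ τ, IsGroundState J τ → τ = σ ∨ τ = -σ) →
      ∀ Q Q' : Measure ((Bond d → ℝ) × (Site d → ℝ)), InvLaw P Q → InvLaw P Q' → Q = Q')

/-- Part 3: limits. -/
def Part3 : Prop :=
  ∀ (d : ℕ), 1 ≤ d → ∀ (μ : Measure ℝ) [IsProbabilityMeasure μ], (∀ x, μ {x} = 0) → μ.map (fun x => -x) = μ →
    ∀ Q : ℕ → Measure ((Bond d → ℝ) × (Site d → ℝ)), AsympLaws μ Q →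
    (Asymptotic Q ∨
      (∃ ε : ℕ → ℝ, Tendsto ε atTop (𝓝 0) ∧ ∀ A : Finset (Site d), ∀ᶠ n in atTop, ∀ᵐ p ∂(Q n),
        ∃ b : Site d → ℝ, (∀ x, |b x| ≤ ε n) ∧ 0 ≤ cost p.1 p.2 A + 2 * ∑ x ∈ A, b x * p.2 x) ∨
      ∃ β : ℕ → ℝ, Tendsto β atTop atTop ∧ ∀ A : Finset (Site d), ∀ᶠ n in atTop, IsGibbs (β n) A (Q n)) →
    ∀ g : BoundedContinuousFunction ((Bond d → ℝ) × (Site d → ℝ)) ℝ,
      Tendsto (fun n => ∫ p, g p ∂(Q n) - ∫ p, g (p.1, -p.2) ∂(Q n)) atTop (𝓝 0)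

/-- Part 4: the energy and the nearly optimal configurations. The definitions are in `Zk58/EK/Base.lean`. -/
def Part4 : Prop :=
  ∀ (d : ℕ), 2 ≤ d → ∀ (μ : Measure ℝ) [IsProbabilityMeasure μ], MemLp (fun s : ℝ => s) 2 μ →
    (∀ t, μ {t} = 0) → μ.map (fun x => -x) = μ →
    ∀ (k R : ℕ) (F : (Bond d → ℝ) → Pool.Agent.Zk58.EK.Cfg d k → ℝ), Pool.Agent.Zk58.EK.IsLocal R F →
    (∀ σ, Measurable fun X => F X σ) → (∀ X σ, |F X σ| ≤ 1) →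
    (∀ X σ, F X (fun a x => -σ a x) = -F X σ) →
    ∃ g : ℝ → ℝ, ConvexOn ℝ Set.univ g ∧ HasDerivAt g 0 0 ∧
      (∀ (t : ℝ) (c : ℕ → Site d), ∀ᵐ X ∂(Pool.Agent.Zk58.EK.PX d μ),
        Tendsto (fun n : ℕ => Pool.Agent.Zk58.EK.maxE (fun s : ℝ => s) F t X (c n) n / (n : ℝ) ^ d)
          atTop (𝓝 (g t))) ∧
      ∀ ε : ℝ, 0 < ε → ∃ δ : ℝ, 0 < δ ∧ ∀ c : ℕ → Site d, ∀ᵐ X ∂(Pool.Agent.Zk58.EK.PX d μ),
        ∀ᶠ n : ℕ in atTop, ∀ σ : Pool.Agent.Zk58.EK.Cfg d k,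
          Pool.Agent.Zk58.EK.NearOptAt (fun s : ℝ => s) F 0 δ X (c n) n σ →
            |Pool.Agent.Zk58.EK.En F X (Pool.Agent.Zk58.EK.cube (c n) n) σ| ≤ ε * (n : ℝ) ^ d

end Pool.Agent.Zk83.SB
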