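import Pool.Agent.Zk83.SB.Sym

/-!
# Statement of the zero-one law
-/

set_option autoImplicit false

open MeasureTheory ProbabilityTheory Filter Topology

namespace Pool.Agent.Zk83.SB

/-- The zero-one law for translation invariant events of iid couplings. -/
def StZ : Prop :=
  ∀ (d : ℕ), 1 ≤ d → ∀ (μ : Measure ℝ) [IsProbabilityMeasure μ] (A : Set (Bond d → ℝ)), MeasurableSet A →
    (∀ v : Site d, (mJ v ⁻¹' A : Set (Bond d → ℝ)) =ᵐ[Measure.infinitePi fun _ : Bond d => μ] A) →
    (Measure.infinitePi fun _ : Bond d => μ) A = 0 ∨ (Measure.infinitePi fun _ : Bond d => μ) A = 1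

end Pool.Agent.Zk83.SB
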