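import Pool.Agent.Zk83.SB.Sym

/-!
# Statements of the modules of the unconditional theorem
-/

set_option autoImplicit false

open MeasureTheory ProbabilityTheory Filter Topology

namespace Pool.Agent.Zk83.SB

/-- The expected maximum of `#V` sums of signed numbers in `[-1, 1]`. -/
def StM : Prop :=
  ∀ (ι : Type) [Fintype ι] [DecidableEq ι] (V : Finset (ι → ℝ)) (hV : V.Nonempty),
    (∀ v ∈ V, ∀ i, |v i| ≤ 1) → ∀ t : ℝ, 0 < t →
    ∑ U : ι → Bool, V.sup' hV (fun v => ∑ i, (if U i then (-1 : ℝ) else 1) * v i) ≤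
      2 ^ Fintype.card ι * (Real.log V.card / t + t * Fintype.card ι / 2)

/-- Two ground states which agree on the outer boundary of `A` agree on `A`; so a function of the restriction to `A`
takes at most `2 ^ #B` values on the ground states if `B` contains the outer boundary. -/
def StR : Prop :=
  ∀ (d : ℕ) (J : Bond d → ℝ) (A B : Finset (Site d)),
    (∀ e : Bond d, (e.1 ∈ A → tip e ∉ A → tip e ∈ B) ∧ (tip e ∈ A → e.1 ∉ A → e.1 ∈ B)) →
    ∀ (Y : Type) (φ : (Site d → ℝ) → Y), (∀ σ τ : Site d → ℝ, (∀ x ∈ A, σ x = τ x) → φ σ = φ τ) →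
      (φ '' GS J).Finite ∧ (φ '' GS J).ncard ≤ 2 ^ B.card

/-- Large boxes tiled by cells of side `2 ρ + 1` have a small boundary. -/
def StG : Prop :=
  ∀ (d ρ : ℕ) (δ : ℝ), 0 < δ → ∃ n : ℕ, 1 ≤ n ∧ ∃ A B : Finset (Site d),
    (∀ e : Bond d, (e.1 ∈ A → tip e ∉ A → tip e ∈ B) ∧ (tip e ∈ A → e.1 ∉ A → e.1 ∈ B)) ∧
    (∀ (i : Fin d → Fin n) (x : Site d), (∀ j, |x j - (2 * (ρ : ℤ) + 1) * ((i j : ℕ) : ℤ)| ≤ ρ) → x ∈ A) ∧
    (B.card : ℝ) ≤ δ * (n : ℝ) ^ d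

end Pool.Agent.Zk83.SB
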