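import Pool.Agent.Zk83.SB.Sym

/-!
# Statements of the modules of the uniform theorem (all ground states in a box, all boundary conditions)
-/

set_option autoImplicit false

open MeasureTheory ProbabilityTheory Filter Topology

namespace Pool.Agent.Zk83.SB

/-- `σ` is a ground state in the finite set `A`: every change of the spins in `A` increases the energy (the spins
outside `A` are a boundary condition). -/
def BoxGS {d : ℕ} (A : Finset (Site d)) (J : Bond d → ℝ) (σ : Site d → ℝ) : Prop :=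
  (∀ x, σ x = 1 ∨ σ x = -1) ∧
  ∀ ρ : Site d → ℝ, (∀ x, ρ x = 1 ∨ ρ x = -1) → (∀ x, x ∉ A → ρ x = σ x) → ρ ≠ σ →
    0 < ∑ᶠ e : Bond d, J e * (σ e.1 * σ (tip e) - ρ e.1 * ρ (tip e))

/-- the cube of side `n` -/
noncomputable def cube (d n : ℕ) : Finset (Site d) := Fintype.piFinset fun _ => Finset.Ico (0 : ℤ) n

/-- its outer boundary (with corners) -/
noncomputable def rim (d n : ℕ) : Finset (Site d) := (Fintype.piFinset fun _ => Finset.Ico (-1 : ℤ) (n + 1)) \ cube d n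

/-- Hoeffding's inequality with a union bound, for signs. -/
def StH : Prop :=
  ∀ (ι : Type) [Fintype ι] [DecidableEq ι] (V : Finset (ι → ℝ)) (M a : ℝ), 0 < M → 0 ≤ a →
    (∀ v ∈ V, ∀ i, |v i| ≤ M) →
    ((Finset.univ.filter fun U : ι → Bool => ∃ v ∈ V, a ≤ |∑ i, (if U i then (-1 : ℝ) else 1) * v i|).card : ℝ) ≤
      2 ^ Fintype.card ι * (2 * V.card * Real.exp (-(a ^ 2 / (2 * Fintype.card ι * M ^ 2))))

/-- A function of the restrictions of `k` ground states in the cube takes at most `2 ^ (k * #rim)` values. -/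
def StR2 : Prop :=
  ∀ (d n k : ℕ) (J : Bond d → ℝ) (Y : Type) (φ : (Fin k → Site d → ℝ) → Y),
    (∀ σ τ : Fin k → Site d → ℝ, (∀ a, ∀ x ∈ cube d n, σ a x = τ a x) → φ σ = φ τ) →
      (φ '' {σ | ∀ a, BoxGS (cube d n) J (σ a)}).Finite ∧
      (φ '' {σ | ∀ a, BoxGS (cube d n) J (σ a)}).ncard ≤ 2 ^ (k * (rim d n).card)

/-- Numbers: cells of side `L` with a margin `r` fill most of a large cube; the rim is small. -/
def StG2 : Prop :=
  ∀ (d r k : ℕ), 1 ≤ d → ∀ δ : ℝ, 0 < δ → ∃ L : ℕ, 1 ≤ L ∧ 2 * r ≤ L ∧ ∃ n₀ : ℕ, ∀ n ≥ n₀, 1 ≤ n ∧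
    (n : ℝ) ^ d - ((n / L : ℕ) : ℝ) ^ d * ((L : ℝ) - 2 * r) ^ d ≤ δ / 2 * (n : ℝ) ^ d ∧
    (k * (rim d n).card + 1) * Real.log 2 ≤ δ ^ 2 / (16 * (L : ℝ) ^ d) * (n : ℝ) ^ d

end Pool.Agent.Zk83.SB
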