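import Pool.Agent.Zk58.EK.Main

/-!
# Statements of the modules on large deviations (uses the project EK of helper58)
-/

set_option autoImplicit false

open MeasureTheory Filter Topology
open Pool.Agent.Zk58.EK

namespace Pool.Agent.Zk83.SB

/-- Exponential concentration of the maximum, for bounded local `G`. -/
def StX1 : Prop :=
  ∀ (d k R : ℕ), 1 ≤ d → ∀ (S : Type) [MeasurableSpace S] (μ : Measure S) [IsProbabilityMeasure μ]
    (G : (Bond d → S) → Cfg d k → ℝ) (C : ℝ), Good μ R G → (∀ X σ, IsConf σ → |G X σ| ≤ C) →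
    ∀ ε : ℝ, 0 < ε → ∃ c : ℝ, 0 < c ∧ ∃ n₀ : ℕ, ∀ n ≥ n₀,
      (PX d μ).real {X | ε * (n : ℝ) ^ d ≤ |Mx R G X 0 n - (n : ℝ) ^ d * gl μ R G|} ≤
        2 * Real.exp (-(c * (n : ℝ) ^ d))

/-- Union bound over the boundary conditions: if some pairs of ground states exist with probability at least `1 / 2`,
then for some fixed boundary conditions the event has a probability of at least `exp (-K n ^ (d - 1))`. -/
def StX3 : Prop :=
  ∀ (d : ℕ), 1 ≤ d → ∃ K : ℝ, ∀ (S : Type) [MeasurableSpace S] (μ : Measure S) [IsProbabilityMeasure μ]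
    (ψ : S → ℝ) (ε : ℝ) (n : ℕ), 1 ≤ n →
    1 / 2 ≤ (PX d μ) {X | ∃ ρ τ : Site d → ℝ, CubeGS (fun e => ψ (X e)) 0 n ρ ∧
      CubeGS (fun e => ψ (X e)) 0 n τ ∧ ε * (n : ℝ) ^ d ≤ dif 0 n ρ τ} →
    ∃ η η' : Site d → ℝ, (∀ x, η x = 1 ∨ η x = -1) ∧ (∀ x, η' x = 1 ∨ η' x = -1) ∧
      ENNReal.ofReal (Real.exp (-(K * (n : ℝ) ^ (d - 1)))) ≤
        (PX d μ) {X | ∃ ρ τ : Site d → ℝ, CubeGS (fun e => ψ (X e)) 0 n ρ ∧ CubeGS (fun e => ψ (X e)) 0 n τ ∧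
          (∀ x, x ∉ cube (0 : Site d) n → ρ x = η x ∧ τ x = η' x) ∧ ε * (n : ℝ) ^ d ≤ dif 0 n ρ τ}

end Pool.Agent.Zk83.SB
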