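import Mathlib

/-!
# Ground states of the Edwards-Anderson model: translations and gauge transformations
-/

set_option autoImplicit false

open MeasureTheory ProbabilityTheory Filter Topology

namespace Pool.Agent.Zk83.SB

/-- The sites are the points of `ℤ^d`. -/
abbrev Site (d : ℕ) : Type := Fin d → ℤ

/-- The bond `(v, i)` joins the sites `v` and `v + e_i`. -/
abbrev Bond (d : ℕ) : Type := (Fin d → ℤ) × Fin d

variable {d : ℕ}

/-- The second end `v + e_i` of the bond `(v, i)`. -/
def tip (e : Bond d) : Site d := e.1 + (Pi.single e.2 (1 : ℤ) : Fin d → ℤ)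

/-- ground states -/
def IsGroundState (J : Bond d → ℝ) (σ : Site d → ℝ) : Prop :=
  (∀ x, σ x = 1 ∨ σ x = -1) ∧
  ∀ ρ : Site d → ℝ, (∀ x, ρ x = 1 ∨ ρ x = -1) → {x | ρ x ≠ σ x}.Finite → ρ ≠ σ →
    0 < ∑ᶠ e : Bond d, J e * (σ e.1 * σ (tip e) - ρ e.1 * ρ (tip e))

/-- the couplings seen from `v` -/
def mJ (v : Site d) (J : Bond d → ℝ) : Bond d → ℝ := fun e => J (e.1 + v, e.2)

/-- the configuration seen from `v` -/
def mS (v : Site d) (σ : Site d → ℝ) : Site d → ℝ := fun x => σ (x + v)

/-- the gauge transformed couplings -/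
def gJ (ε : Site d → ℝ) (J : Bond d → ℝ) : Bond d → ℝ := fun e => J e * (ε e.1 * ε (tip e))

/-- the gauge transformed configuration -/
def gS (ε σ : Site d → ℝ) : Site d → ℝ := fun x => ε x * σ x

/-- all values are `1` or `-1` -/
def IsSign {X : Type} (ε : X → ℝ) : Prop := ∀ x, ε x = 1 ∨ ε x = -1

lemma IsSign.sq {X : Type} {ε : X → ℝ} (h : IsSign ε) (x : X) : ε x * ε x = 1 := by
  rcases h x with h | h <;> rw [h] <;> norm_num

lemma IsSign.mul {X : Type} {ε ρ : X → ℝ} (h : IsSign ε) (h' : IsSign ρ) :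
    IsSign (fun x => ε x * ρ x) := by
  intro x
  rcases h x with h | h <;> rcases h' x with h' | h' <;> simp [h, h']

lemma gS_gS {ε : Site d → ℝ} (h : IsSign ε) (σ : Site d → ℝ) : gS ε (gS ε σ) = σ := by
  funext x
  simp only [gS]
  rw [← mul_assoc, h.sq, one_mul]

lemma gJ_gJ {ε : Site d → ℝ} (h : IsSign ε) (J : Bond d → ℝ) : gJ ε (gJ ε J) = J := by
  funext e
  simp only [gJ]
  have h1 := h.sq e.1
  have h2 := h.sq (tip e)
  linear_combination J e * (ε (tip e) * ε (tip e)) * h1 + J e * h2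

lemma gs_gauge {ε : Site d → ℝ} (h : IsSign ε) {J : Bond d → ℝ} {σ : Site d → ℝ}
    (hσ : IsGroundState J σ) : IsGroundState (gJ ε J) (gS ε σ) := by
  refine ⟨h.mul hσ.1, fun ρ hρ hfin hne => ?_⟩
  have key := hσ.2 (gS ε ρ) (h.mul hρ) ?_ ?_
  · convert key using 1
    refine finsum_congr fun e => ?_
    simp only [gJ, gS]
    have h1 := h.sq e.1
    have h2 := h.sq (tip e)
    linear_combination (J e * (ε (tip e) * ε (tip e)) * (σ e.1 * σ (tip e))) * h1 +
      J e * (σ e.1 * σ (tip e)) * h2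
  · refine hfin.subset fun x hx => ?_
    simp only [Set.mem_ofPred_eq, gS] at hx ⊢
    intro h0
    apply hx
    rw [h0, ← mul_assoc, h.sq, one_mul]
  · intro h0
    apply hne
    rw [← h0, gS_gS h]

lemma mS_sign {σ : Site d → ℝ} (h : IsSign σ) (v : Site d) : IsSign (mS v σ) := fun x => h (x + v)

lemma tip_add (e : Bond d) (v : Site d) : tip ((e.1 + v, e.2) : Bond d) = tip e + v := by
  simp only [tip]
  abel

/-- the translation of the bonds -/
def shiftB (v : Site d) : Bond d ≃ Bond d :=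
  (Equiv.addRight v).prodCongr (Equiv.refl _)

lemma mJ_eq (v : Site d) (J : Bond d → ℝ) : mJ v J = fun e => J (shiftB v e) := rfl

lemma gs_move {J : Bond d → ℝ} {σ : Site d → ℝ} (v : Site d)
    (hσ : IsGroundState J σ) : IsGroundState (mJ v J) (mS v σ) := by
  refine ⟨fun x => hσ.1 _, fun ρ hρ hfin hne => ?_⟩
  have hback : mS v (mS (-v) ρ) = ρ := by
    funext x
    simp [mS]
  have key := hσ.2 (mS (-v) ρ) (fun x => hρ _) ?_ ?_
  · convert key using 1
    rw [← finsum_comp_equiv (shiftB v) (f := fun e : Bond d =>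
      J e * (σ e.1 * σ (tip e) - mS (-v) ρ e.1 * mS (-v) ρ (tip e)))]
    refine finsum_congr fun e => ?_
    show _ = J (shiftB v e) * (σ (shiftB v e).1 * σ (tip (shiftB v e)) -
      mS (-v) ρ (shiftB v e).1 * mS (-v) ρ (tip (shiftB v e)))
    have h1 : (shiftB v e).1 = e.1 + v := rfl
    have h2 : tip (shiftB v e) = tip e + v := tip_add e v
    have h3 : (shiftB v e) = ((e.1 + v, e.2) : Bond d) := rfl
    rw [h1, h2]
    simp only [mJ, mS, add_neg_cancel_right]
    rw [h3]
  · have hinj : Set.InjOn (fun x : Site d => x + (-v)) ((fun x => x + (-v)) ⁻¹' {x | ρ x ≠ mS v σ x}) :=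
      fun a _ b _ hab => by simpa using hab
    refine (hfin.preimage hinj).subset fun x hx => ?_
    simp only [Set.mem_ofPred_eq, Set.mem_preimage, mS, neg_add_cancel_right] at hx ⊢
    exact hx
  · intro h0
    apply hne
    rw [← hback, h0]

lemma mJ_mJ (v w : Site d) (J : Bond d → ℝ) : mJ v (mJ w J) = mJ (v + w) J := by
  funext e
  simp only [mJ]
  rw [add_assoc]

lemma mS_mS (v w : Site d) (σ : Site d → ℝ) : mS v (mS w σ) = mS (v + w) σ := by
  funext e
  simp only [mS]
  rw [add_assoc]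

lemma mJ_zero (J : Bond d → ℝ) : mJ 0 J = J := by funext e; simp [mJ]

lemma mS_zero (σ : Site d → ℝ) : mS 0 σ = σ := by funext e; simp [mS]

/-- the set of the ground states -/
def GS (J : Bond d → ℝ) : Set (Site d → ℝ) := {σ | IsGroundState J σ}

lemma countable_move {J : Bond d → ℝ} (v : Site d) (h : (GS J).Countable) : (GS (mJ v J)).Countable := by
  refine (h.image (mS v)).mono ?_
  intro σ hσ
  refine ⟨mS (-v) σ, ?_, ?_⟩
  · have h2 : IsGroundState (mJ v J) σ := hσ
    have := gs_move (-v) h2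
    rwa [mJ_mJ, neg_add_cancel, mJ_zero] at this
  · rw [mS_mS, add_neg_cancel, mS_zero]

lemma countable_move_iff {J : Bond d → ℝ} (v : Site d) : (GS (mJ v J)).Countable ↔ (GS J).Countable := by
  refine ⟨fun h => ?_, countable_move v⟩
  have := countable_move (-v) h
  rwa [mJ_mJ, neg_add_cancel, mJ_zero] at this

lemma gs_of_gauge {ε : Site d → ℝ} (h : IsSign ε) {J : Bond d → ℝ} {σ : Site d → ℝ}
    (hσ : IsGroundState (gJ ε J) σ) : IsGroundState J (gS ε σ) := by
  have := gs_gauge h hσ
  rwa [gJ_gJ h] at this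

lemma move_gauge (v : Site d) (ε : Site d → ℝ) (J : Bond d → ℝ) :
    mJ v (gJ ε J) = gJ (mS v ε) (mJ v J) := by
  funext e
  simp only [mJ, gJ, mS, tip_add]

@[fun_prop] lemma measurable_mJ (v : Site d) : Measurable (mJ v) := by unfold mJ; fun_prop
@[fun_prop] lemma measurable_mS (v : Site d) : Measurable (mS v) := by unfold mS; fun_prop
@[fun_prop] lemma measurable_gJ (ε : Site d → ℝ) : Measurable (gJ ε) := by unfold gJ; fun_prop
@[fun_prop] lemma measurable_gS (ε : Site d → ℝ) : Measurable (gS ε) := by unfold gS; fun_prop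

/-- a law of couplings which is invariant under the translation by `w` and under all gauge transformations -/
structure Inv (w : Site d) (P : Measure (Bond d → ℝ)) : Prop where
  move : P.map (mJ w) = P
  gauge : ∀ ε : Site d → ℝ, (∀ x, ε x = 1 ∨ ε x = -1) → P.map (gJ ε) = P

lemma Inv.mp_move1 {w : Site d} {P : Measure (Bond d → ℝ)} (h : Inv w P) : MeasurePreserving (mJ w) P P :=
  ⟨measurable_mJ w, h.move⟩

lemma Inv.mp_move {w : Site d} {P : Measure (Bond d → ℝ)} (h : Inv w P) (n : ℕ) :
    MeasurePreserving (mJ (n • w)) P P := by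
  induction n with
  | zero =>
    have : (mJ ((0 : ℕ) • w) : (Bond d → ℝ) → (Bond d → ℝ)) = id := by
      funext J
      rw [zero_smul, mJ_zero, id]
    rw [this]
    exact MeasurePreserving.id P
  | succ n ih =>
    have : (mJ ((n + 1) • w) : (Bond d → ℝ) → (Bond d → ℝ)) = mJ (n • w) ∘ mJ w := by
      funext J
      rw [Function.comp_apply, mJ_mJ, succ_nsmul]
    rw [this]
    exact ih.comp h.mp_move1

lemma Inv.mp_gauge {w : Site d} {P : Measure (Bond d → ℝ)} (h : Inv w P) {ε : Site d → ℝ} (hε : IsSign ε) :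
    MeasurePreserving (gJ ε) P P := ⟨measurable_gJ ε, h.gauge ε hε⟩

/-- iid couplings with a symmetric law -/
lemma inv_iid (v : Site d) (μ : Measure ℝ) [IsProbabilityMeasure μ] (hs : μ.map (fun x => -x) = μ) :
    Inv v (Measure.infinitePi fun _ : Bond d => μ) := by
  constructor
  · have h := Measure.infinitePi_map_piCongrLeft (X := fun _ : Bond d => ℝ) (fun _ : Bond d => μ) (shiftB v).symm
    have h2 : (mJ v : (Bond d → ℝ) → (Bond d → ℝ)) =
        (MeasurableEquiv.piCongrLeft (fun _ : Bond d => ℝ) (shiftB v).symm) := by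
      funext J e
      rw [MeasurableEquiv.coe_piCongrLeft, mJ_eq]
      have := Equiv.piCongrLeft_apply_apply (fun _ : Bond d => ℝ) (shiftB v).symm J (shiftB v e)
      rw [Equiv.symm_apply_apply] at this
      exact this.symm
    rw [h2]
    exact h
  · intro ε hε
    have h := Measure.infinitePi_map_pi (μ := fun _ : Bond d => μ) (X := fun _ => ℝ) (Y := fun _ => ℝ)
      (f := fun (e : Bond d) (x : ℝ) => x * (ε e.1 * ε (tip e))) (fun e => by fun_prop)
    have h2 : (fun e : Bond d => μ.map (fun x : ℝ => x * (ε e.1 * ε (tip e)))) = fun _ => μ := by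
      funext e
      rcases hε e.1 with h1 | h1 <;> rcases hε (tip e) with h3 | h3
      · rw [h1, h3]; simp
      · rw [h1, h3]; simpa using hs
      · rw [h1, h3]; simpa using hs
      · rw [h1, h3]; simp
    have h4 : (fun (J : Bond d → ℝ) (e : Bond d) => J e * (ε e.1 * ε (tip e))) = gJ ε := rfl
    rw [← h4]
    rw [h]
    congr 1

end Pool.Agent.Zk83.SB
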