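import Pool.Agent.Zk83.SB.Core
import Pool.Agent.Zk83.SB.Stm5

/-!
# Gauge transformations which are constant on the cells of a large box
-/

set_option autoImplicit false

open MeasureTheory ProbabilityTheory Filter Topology

namespace Pool.Agent.Zk83.SB

variable {d : ℕ}

/-- the centre of a cell -/
def cen {n : ℕ} (ρ : ℕ) (i : Fin d → Fin n) : Site d := fun j => (2 * (ρ : ℤ) + 1) * ((i j : ℕ) : ℤ)

lemma cen_disj {n ρ : ℕ} {i i' : Fin d → Fin n} {x : Site d} (h : x ∈ ball (cen ρ i) ρ)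
    (h' : x ∈ ball (cen ρ i') ρ) : i = i' := by
  funext j
  have h1 := h j
  have h2 := h' j
  simp only [cen] at h1 h2
  have h3 : |(2 * (ρ : ℤ) + 1) * (((i j : ℕ) : ℤ) - ((i' j : ℕ) : ℤ))| ≤ 2 * ρ := by
    have e : (2 * (ρ : ℤ) + 1) * (((i j : ℕ) : ℤ) - ((i' j : ℕ) : ℤ)) =
        (x j - (2 * (ρ : ℤ) + 1) * ((i' j : ℕ) : ℤ)) - (x j - (2 * (ρ : ℤ) + 1) * ((i j : ℕ) : ℤ)) := by ring
    rw [e]
    exact (abs_sub _ _).trans (by linarith)
  rw [abs_mul, abs_of_nonneg (by positivity)] at h3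
  by_contra hne
  have h4 : 1 ≤ |((i j : ℕ) : ℤ) - ((i' j : ℕ) : ℤ)| := by
    apply Int.one_le_abs
    intro h0
    apply hne
    ext
    omega
  nlinarith

open Classical in
/-- the sign which is `-1` in the cells with `U i = true` -/
noncomputable def epsI {n : ℕ} (ρ : ℕ) (U : (Fin d → Fin n) → Bool) (x : Site d) : ℝ :=
  if ∃ i, U i = true ∧ x ∈ ball (cen ρ i) ρ then -1 else 1

lemma epsI_sign {n : ℕ} (ρ : ℕ) (U : (Fin d → Fin n) → Bool) : IsSign (epsI ρ U) := by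
  intro x
  unfold epsI
  split_ifs
  · exact Or.inr rfl
  · exact Or.inl rfl

/-- the sign of a coin -/
noncomputable def sg (b : Bool) : ℝ := if b then -1 else 1

lemma sg_sq (b : Bool) : sg b * sg b = 1 := by cases b <;> simp [sg]

lemma epsI_near {n : ℕ} (ρ : ℕ) (U : (Fin d → Fin n) → Bool) (i : Fin d → Fin n) (x : Site d)
    (hx : x ∈ ball 0 ρ) : epsI ρ U (x + cen ρ i) = sg (U i) := by
  have hx' : x + cen ρ i ∈ ball (cen ρ i) ρ := mem_ball_add hx
  unfold epsI sg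
  by_cases h : U i = true
  · rw [if_pos ⟨i, h, hx'⟩, if_pos h]
  · rw [if_neg h, if_neg]
    rintro ⟨j, hj, hxj⟩
    exact h (by rwa [cen_disj hx' hxj])

lemma gJ_nearI {n : ℕ} (ρ : ℕ) (U : (Fin d → Fin n) → Bool) (i : Fin d → Fin n) (J : Bond d → ℝ)
    (e : Bond d) (he : e.1 ∈ ball 0 ρ) (ht : tip e ∈ ball 0 ρ) :
    gJ (mS (cen ρ i) (epsI ρ U)) J e = J e := by
  unfold gJ mS
  rw [epsI_near ρ U i e.1 he, epsI_near ρ U i (tip e) ht, sg_sq, mul_one]

lemma local_shift {P : Measure (Bond d → ℝ)} [IsProbabilityMeasure P] (hP : ∀ v : Site d, Inv v P)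
    {f : (Bond d → ℝ) → ℝ} (hf : Measurable f) {F : Finset (Bond d)} {c0 : ℝ}
    (hF : ∀ T : (Bond d → ℝ) → (Bond d → ℝ), MeasurePreserving T P P → (∀ x, ∀ i ∈ F, T x i = x i) →
      ∫ x, |f (T x) - f x| ∂P ≤ c0) {ρ : ℕ}
    (hρ : ∀ e ∈ F, e.1 ∈ ball (0 : Site d) ρ ∧ tip e ∈ ball (0 : Site d) ρ) {n : ℕ}
    (U : (Fin d → Fin n) → Bool) (i : Fin d → Fin n) :
    ∫ J, |f (mJ (cen ρ i) (gJ (epsI ρ U) J)) - f (mJ (cen ρ i) J)| ∂P ≤ c0 := by
  set T := gJ (mS (cen ρ i) (epsI ρ U)) with hTdef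
  have hT : MeasurePreserving T P P := (hP 0).mp_gauge (mS_sign (epsI_sign ρ U) _)
  have h := hF T hT fun x e he => gJ_nearI ρ U i x e (hρ e he).1 (hρ e he).2
  have hg : Measurable fun x => |f (T x) - f x| := ((hf.comp hT.measurable).sub hf).abs
  have hm := (hP (cen ρ i)).mp_move1
  have h2 := integral_map (μ := P) hm.measurable.aemeasurable
    (f := fun x => |f (T x) - f x|) (by rw [hm.map_eq]; exact hg.aestronglyMeasurable)
  rw [hm.map_eq] at h2
  rw [h2] at h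
  simpa only [hTdef, move_gauge] using h

/-- the pattern seen by the cells -/
noncomputable def phi {n : ℕ} (κ : Kernel (Bond d → ℝ) (Site d → ℝ)) (W : Finset (Site d)) (ρ : ℕ)
    (J : Bond d → ℝ) (σ : Site d → ℝ) (i : Fin d → Fin n) : ℝ :=
  open Classical in
  if ∀ x ∈ W, σ (x + cen ρ i) = 1 then fC κ W 1 (mJ (cen ρ i) J) - fC κ W (-1) (mJ (cen ρ i) J) else 0

lemma abs_phi {n : ℕ} (κ : Kernel (Bond d → ℝ) (Site d → ℝ)) [IsMarkovKernel κ] (W : Finset (Site d)) (ρ : ℕ)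
    (J : Bond d → ℝ) (σ : Site d → ℝ) (i : Fin d → Fin n) : |phi κ W ρ J σ i| ≤ 1 := by
  unfold phi
  split_ifs
  · have h1 := fC_01 κ W 1 (mJ (cen ρ i) J)
    have h2 := fC_01 κ W (-1) (mJ (cen ρ i) J)
    rw [abs_le]
    constructor <;> linarith [h1.1, h1.2, h2.1, h2.2]
  · simp

/-- for a single gauge transformation -/
lemma pattern_bound {n : ℕ} (κ : Kernel (Bond d → ℝ) (Site d → ℝ)) [IsMarkovKernel κ] (W : Finset (Site d)) (ρ : ℕ)
    (hW : ∀ x ∈ W, x ∈ ball (0 : Site d) ρ) (J : Bond d → ℝ) (U : (Fin d → Fin n) → Bool)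
    (h1 : ∀ᵐ σ ∂(κ (gJ (epsI ρ U) J)), IsGroundState (gJ (epsI ρ U) J) σ)
    (h2 : ∀ i : Fin d → Fin n, κ (mJ (cen ρ i) (gJ (epsI ρ U) J)) = (κ (gJ (epsI ρ U) J)).map (mS (cen ρ i)))
    (V : Finset ((Fin d → Fin n) → ℝ)) (hV : V.Nonempty) (hV' : ∀ σ ∈ GS J, phi κ W ρ J σ ∈ V) :
    ∑ i, sg (U i) * ((fC κ W 1 (mJ (cen ρ i) J) - fC κ W (-1) (mJ (cen ρ i) J)) *
      fC κ W (sg (U i)) (mJ (cen ρ i) (gJ (epsI ρ U) J))) ≤
      V.sup' hV (fun v => ∑ i, (if U i then (-1 : ℝ) else 1) * v i) := by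
  classical
  set ε := epsI ρ U with hε
  set ν := κ (gJ ε J) with hν
  set M := V.sup' hV (fun v => ∑ i, (if U i then (-1 : ℝ) else 1) * v i) with hM
  set E : (Fin d → Fin n) → Set (Site d → ℝ) := fun i => {σ | ∀ x ∈ W, σ (x + cen ρ i) = sg (U i)} with hE
  have hEm : ∀ i, MeasurableSet (E i) := fun i =>
    (measurable_mS (cen ρ i)) (measurableSet_Cyl W (sg (U i)))
  have hf : ∀ i, fC κ W (sg (U i)) (mJ (cen ρ i) (gJ ε J)) = ν.real (E i) := by
    intro i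
    unfold fC
    rw [h2 i, map_measureReal_apply (measurable_mS _) (measurableSet_Cyl W _)]
    rfl
  have hφ : ∀ i σ, (if U i then (-1 : ℝ) else 1) * phi κ W ρ J (gS ε σ) i =
      (E i).indicator (fun _ => sg (U i) * (fC κ W 1 (mJ (cen ρ i) J) - fC κ W (-1) (mJ (cen ρ i) J))) σ := by
    intro i σ
    have hiff : (∀ x ∈ W, gS ε σ (x + cen ρ i) = 1) ↔ σ ∈ E i := by
      simp only [hE, Set.mem_ofPred_eq]
      refine forall₂_congr fun x hx => ?_
      unfold gS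
      rw [hε, epsI_near ρ U i x (hW x hx)]
      constructor
      · intro h
        have := congrArg (fun y => sg (U i) * y) h
        simp only [← mul_assoc, sg_sq, one_mul, mul_one] at this
        exact this
      · intro h
        rw [h, sg_sq]
    unfold phi
    by_cases h : σ ∈ E i
    · rw [if_pos (hiff.2 h), Set.indicator_of_mem h]
      rfl
    · rw [if_neg (fun h' => h (hiff.1 h')), Set.indicator_of_notMem h, mul_zero]
  have hint : ∀ i, sg (U i) * ((fC κ W 1 (mJ (cen ρ i) J) - fC κ W (-1) (mJ (cen ρ i) J)) *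
      fC κ W (sg (U i)) (mJ (cen ρ i) (gJ ε J))) =
      ∫ σ, (if U i then (-1 : ℝ) else 1) * phi κ W ρ J (gS ε σ) i ∂ν := by
    intro i
    simp only [hφ]
    rw [integral_indicator_const _ (hEm i), smul_eq_mul, hf]
    ring
  have hi : ∀ i, Integrable (fun σ => (if U i then (-1 : ℝ) else 1) * phi κ W ρ J (gS ε σ) i) ν := by
    intro i
    simp only [hφ]
    exact (integrable_const _).indicator (hEm i)
  simp only [hint]
  rw [← integral_finsetSum _ fun i _ => hi i]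
  calc ∫ σ, ∑ i, (if U i then (-1 : ℝ) else 1) * phi κ W ρ J (gS ε σ) i ∂ν ≤ ∫ _, M ∂ν := by
        refine integral_mono_ae (integrable_finsetSum _ fun i _ => hi i) (integrable_const _) ?_
        filter_upwards [h1] with σ hσ
        have hg : gS ε σ ∈ GS J := gs_of_gauge (epsI_sign ρ U) hσ
        exact Finset.le_sup' (fun v => ∑ i, (if U i then (-1 : ℝ) else 1) * v i) (hV' _ hg)
    _ = M := by simp

end Pool.Agent.Zk83.SB
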