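import Pool.Agent.Zk83.SB.U1

/-!
# The unconditional theorem: no translation covariant law of ground states breaks the flip symmetry
-/

set_option autoImplicit false

open MeasureTheory ProbabilityTheory Filter Topology

namespace Pool.Agent.Zk83.SB

variable {d : ℕ}

lemma sum_flip {ι : Type} [Fintype ι] [DecidableEq ι] (i : ι) (h : Bool → ℝ) :
    ∑ U : ι → Bool, h (U i) = 2 ^ Fintype.card ι * ((h true + h false) / 2) := by
  have e : (ι → Bool) ≃ (ι → Bool) :=
    { toFun := fun U j => !U j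
      invFun := fun U j => !U j
      left_inv := fun U => by funext j; simp
      right_inv := fun U => by funext j; simp }
  have h1 : ∑ U : ι → Bool, h (U i) = ∑ U : ι → Bool, h (!U i) := by
    let e : (ι → Bool) ≃ (ι → Bool) :=
      { toFun := fun U j => !U j
        invFun := fun U j => !U j
        left_inv := fun U => by funext j; simp
        right_inv := fun U => by funext j; simp }
    exact (Equiv.sum_comp e (fun U => h (U i))).symm
  have h2 : ∑ U : ι → Bool, h (U i) + ∑ U : ι → Bool, h (!U i) = 2 ^ Fintype.card ι * (h true + h false) := by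
    rw [← Finset.sum_add_distrib]
    have : ∀ U : ι → Bool, h (U i) + h (!U i) = h true + h false := by
      intro U
      cases U i <;> simp [add_comm]
    simp only [this, Finset.sum_const, Finset.card_univ, Fintype.card_fun, Fintype.card_bool, nsmul_eq_mul]
    push_cast
    ring
  linarith

lemma abs_fC_diff (κ : Kernel (Bond d → ℝ) (Site d → ℝ)) [IsMarkovKernel κ] (W : Finset (Site d))
    (J : Bond d → ℝ) : |fC κ W 1 J - fC κ W (-1) J| ≤ 1 := by
  have h1 := fC_01 κ W 1 J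
  have h2 := fC_01 κ W (-1) J
  rw [abs_le]
  constructor <;> linarith [h1.1, h1.2, h2.1, h2.2]

/-- for one window -/
theorem window (hB : StB) (hM : StM) (hR : StR) (hG : StG) {P : Measure (Bond d → ℝ)}
    [IsProbabilityMeasure P] (hP : ∀ v : Site d, Inv v P) (κ : Kernel (Bond d → ℝ) (Site d → ℝ)) [IsMarkovKernel κ]
    (hcov : ∀ v : Site d, ∀ᵐ J ∂P, κ (mJ v J) = (κ J).map (mS v))
    (hgs : ∀ᵐ J ∂P, ∀ᵐ σ ∂(κ J), IsGroundState J σ) (W : Finset (Site d)) :
    ∀ᵐ J ∂P, fC κ W 1 J = fC κ W (-1) J := by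
  classical
  set D : (Bond d → ℝ) → ℝ := fun J => fC κ W 1 J - fC κ W (-1) J with hD
  have hDm : Measurable D := (measurable_fC κ W 1).sub (measurable_fC κ W (-1))
  have hD1 : ∀ J, |D J| ≤ 1 := abs_fC_diff κ W
  have hf1 : ∀ s J, |fC κ W s J| ≤ 1 := fun s J => by
    have := fC_01 κ W s J
    rw [abs_le]
    constructor <;> linarith [this.1, this.2]
  set θ : ℝ := ∫ J, D J * D J ∂P with hθ
  by_cases hθ0 : θ = 0
  · have hi : Integrable (fun J => D J * D J) P := by
      refine Integrable.of_bound (hDm.mul hDm).aestronglyMeasurable 1 (Eventually.of_forall fun x => ?_)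
      rw [norm_mul, Real.norm_eq_abs]
      exact mul_le_one₀ (hD1 x) (abs_nonneg _) (hD1 x)
    have h := (integral_eq_zero_iff_of_nonneg (fun J => mul_self_nonneg (D J)) hi).1 hθ0
    filter_upwards [h] with J hJ
    have h2 : D J = 0 := mul_self_eq_zero.1 hJ
    simp only [hD] at h2
    linarith
  exfalso
  have hθpos : 0 < θ := lt_of_le_of_ne (integral_nonneg fun J => mul_self_nonneg (D J)) (Ne.symm hθ0)
  -- local approximation
  obtain ⟨F1, hF1⟩ := hB (Bond d) P (fC κ W 1) (measurable_fC κ W 1) (fC_01 κ W 1) (θ / 16) (by positivity)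
  obtain ⟨F2, hF2⟩ := hB (Bond d) P (fC κ W (-1)) (measurable_fC κ W (-1)) (fC_01 κ W (-1)) (θ / 16) (by positivity)
  obtain ⟨R1, hR1⟩ := finset_subset_ball ((F1 ∪ F2).image Prod.fst)
  obtain ⟨R2, hR2⟩ := finset_subset_ball W
  set ρ : ℕ := R1 + 1 + R2 with hρ
  have hFρ : ∀ e ∈ F1 ∪ F2, e.1 ∈ ball (0 : Site d) ρ ∧ tip e ∈ ball (0 : Site d) ρ := by
    intro e he
    have h1 : e.1 ∈ ball (0 : Site d) R1 := hR1 _ (Finset.mem_image_of_mem _ he)
    exact ⟨ball_mono (by omega) h1, ball_mono (by omega) (tip_mem h1)⟩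
  have hW : ∀ x ∈ W, x ∈ ball (0 : Site d) ρ := fun x hx => ball_mono (by omega) (hR2 x hx)
  -- the box
  obtain ⟨n, hn, A, B, hAB, hcell, hBc⟩ := hG d ρ (θ ^ 2 / 32) (by positivity)
  set N : ℝ := (n : ℝ) ^ d with hN
  have hN1 : 1 ≤ N := one_le_pow₀ (by exact_mod_cast hn)
  have hcard : (Fintype.card (Fin d → Fin n) : ℝ) = N := by
    rw [Fintype.card_fun, Fintype.card_fin, Fintype.card_fin]
    push_cast
    rfl
  set t : ℝ := θ / 4 with ht
  have htpos : 0 < t := by positivity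
  set Kn : ℝ := 2 ^ Fintype.card (Fin d → Fin n) with hKn
  have hKpos : 0 < Kn := by positivity
  -- the local shift
  have hshift : ∀ (b : Bool) (U : (Fin d → Fin n) → Bool) (i : Fin d → Fin n),
      ∫ J, |fC κ W (sg b) (mJ (cen ρ i) (gJ (epsI ρ U) J)) - fC κ W (sg b) (mJ (cen ρ i) J)| ∂P ≤ θ / 16 := by
    intro b U i
    cases b with
    | false =>
      have : sg false = 1 := by simp [sg]
      rw [this]
      exact local_shift hP (measurable_fC κ W 1) hF1 (fun e he => hFρ e (Finset.mem_union_left _ he)) U i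
    | true =>
      have : sg true = -1 := by simp [sg]
      rw [this]
      exact local_shift hP (measurable_fC κ W (-1)) hF2 (fun e he => hFρ e (Finset.mem_union_right _ he)) U i
  -- the deterministic bound
  have hdet : ∀ᵐ J ∂P, ∑ U : (Fin d → Fin n) → Bool, ∑ i, sg (U i) * (D (mJ (cen ρ i) J) *
      fC κ W (sg (U i)) (mJ (cen ρ i) (gJ (epsI ρ U) J))) ≤ Kn * (B.card * Real.log 2 / t + t * N / 2) := by
    have hg : ∀ U : (Fin d → Fin n) → Bool, MeasurePreserving (gJ (epsI ρ U)) P P := fun U =>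
      (hP 0).mp_gauge (epsI_sign ρ U)
    have h1 : ∀ᵐ J ∂P, ∀ U : (Fin d → Fin n) → Bool,
        ∀ᵐ σ ∂(κ (gJ (epsI ρ U) J)), IsGroundState (gJ (epsI ρ U) J) σ :=
      ae_all_iff.2 fun U => (hg U).quasiMeasurePreserving.ae hgs
    have h2 : ∀ᵐ J ∂P, ∀ U : (Fin d → Fin n) → Bool, ∀ i : Fin d → Fin n,
        κ (mJ (cen ρ i) (gJ (epsI ρ U) J)) = (κ (gJ (epsI ρ U) J)).map (mS (cen ρ i)) :=
      ae_all_iff.2 fun U => (hg U).quasiMeasurePreserving.ae (ae_all_iff.2 fun i => hcov (cen ρ i))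
    filter_upwards [h1, h2] with J h1 h2
    have hφ : ∀ σ τ : Site d → ℝ, (∀ x ∈ A, σ x = τ x) →
        (phi κ W ρ J σ : (Fin d → Fin n) → ℝ) = phi κ W ρ J τ := by
      intro σ τ hστ
      funext i
      unfold phi
      have hiff : (∀ x ∈ W, σ (x + cen ρ i) = 1) ↔ ∀ x ∈ W, τ (x + cen ρ i) = 1 := by
        refine forall₂_congr fun x hx => ?_
        rw [hστ (x + cen ρ i) (hcell i _ (mem_ball_add (hW x hx)))]
      by_cases h : ∀ x ∈ W, σ (x + cen ρ i) = 1
      · rw [if_pos h, if_pos (hiff.1 h)]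
      · rw [if_neg h, if_neg (fun h' => h (hiff.2 h'))]
    obtain ⟨hfin, hnc⟩ := hR d J A B hAB ((Fin d → Fin n) → ℝ) (phi κ W ρ J) hφ
    set V : Finset ((Fin d → Fin n) → ℝ) := hfin.toFinset with hV
    have hmem : ∀ σ ∈ GS J, (phi κ W ρ J σ : (Fin d → Fin n) → ℝ) ∈ V := fun σ hσ =>
      hfin.mem_toFinset.2 ⟨σ, hσ, rfl⟩
    have hne : V.Nonempty := by
      obtain ⟨σ, hσ⟩ := (h1 fun _ => false).exists
      exact ⟨_, hmem _ (gs_of_gauge (epsI_sign ρ _) hσ)⟩
    have hVb : ∀ v ∈ V, ∀ i, |v i| ≤ 1 := by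
      intro v hv i
      obtain ⟨σ, -, rfl⟩ := hfin.mem_toFinset.1 hv
      exact abs_phi κ W ρ J σ i
    have hcV : V.card ≤ 2 ^ B.card := by
      rw [hV, ← Set.ncard_eq_toFinset_card _ hfin]
      exact hnc
    have hmass := hM (Fin d → Fin n) V hne hVb t htpos
    have hlog : Real.log V.card ≤ B.card * Real.log 2 := by
      rw [← Real.log_pow]
      refine Real.log_le_log ?_ ?_
      · exact_mod_cast hne.card_pos
      · exact_mod_cast hcV
    calc ∑ U : (Fin d → Fin n) → Bool, ∑ i, sg (U i) * (D (mJ (cen ρ i) J) *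
          fC κ W (sg (U i)) (mJ (cen ρ i) (gJ (epsI ρ U) J)))
        ≤ ∑ U : (Fin d → Fin n) → Bool, V.sup' hne (fun v => ∑ i, (if U i then (-1 : ℝ) else 1) * v i) :=
          Finset.sum_le_sum fun U _ => pattern_bound κ W ρ hW J U (h1 U) (h2 U) V hne hmem
      _ ≤ Kn * (Real.log V.card / t + t * Fintype.card (Fin d → Fin n) / 2) := hmass
      _ ≤ Kn * (B.card * Real.log 2 / t + t * N / 2) := by
          rw [hcard]
          gcongr
  -- integrability
  have hfm : ∀ s (c : Site d), Measurable fun J => fC κ W s (mJ c J) := fun s c =>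
    (measurable_fC κ W s).comp (measurable_mJ c)
  have hfm2 : ∀ s (c : Site d) (U : (Fin d → Fin n) → Bool), Measurable fun J =>
      fC κ W s (mJ c (gJ (epsI ρ U) J)) := fun s c U =>
    (hfm s c).comp (measurable_gJ _)
  have hsg : ∀ b, |sg b| ≤ 1 := by
    intro b
    cases b <;> simp [sg]
  have hint2 : ∀ (U : (Fin d → Fin n) → Bool) (i : Fin d → Fin n), Integrable (fun J => sg (U i) *
      (D (mJ (cen ρ i) J) * fC κ W (sg (U i)) (mJ (cen ρ i) (gJ (epsI ρ U) J)))) P := by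
    intro U i
    refine Integrable.of_bound (C := 1) ?_ (Eventually.of_forall fun x => ?_)
    · exact (((hDm.comp (measurable_mJ _)).mul (hfm2 _ _ U)).const_mul _).aestronglyMeasurable
    · rw [norm_mul, norm_mul, Real.norm_eq_abs, Real.norm_eq_abs, Real.norm_eq_abs]
      exact mul_le_one₀ (hsg _) (by positivity) (mul_le_one₀ (hD1 _) (abs_nonneg _) (hf1 _ _))
  have hint1 : ∀ (b : Bool) (i : Fin d → Fin n), Integrable (fun J => sg b *
      (D (mJ (cen ρ i) J) * fC κ W (sg b) (mJ (cen ρ i) J))) P := by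
    intro b i
    refine Integrable.of_bound (C := 1) ?_ (Eventually.of_forall fun x => ?_)
    · exact (((hDm.comp (measurable_mJ _)).mul (hfm _ _)).const_mul _).aestronglyMeasurable
    · rw [norm_mul, norm_mul, Real.norm_eq_abs, Real.norm_eq_abs, Real.norm_eq_abs]
      exact mul_le_one₀ (hsg _) (by positivity) (mul_le_one₀ (hD1 _) (abs_nonneg _) (hf1 _ _))
  -- lower bound for a single term
  have hlow : ∀ (U : (Fin d → Fin n) → Bool) (i : Fin d → Fin n),
      (∫ J, sg (U i) * (D (mJ (cen ρ i) J) * fC κ W (sg (U i)) (mJ (cen ρ i) J)) ∂P) - θ / 16 ≤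
      ∫ J, sg (U i) * (D (mJ (cen ρ i) J) * fC κ W (sg (U i)) (mJ (cen ρ i) (gJ (epsI ρ U) J))) ∂P := by
    intro U i
    have h1 := hshift (U i) U i
    have h3 : (∫ J, sg (U i) * (D (mJ (cen ρ i) J) * fC κ W (sg (U i)) (mJ (cen ρ i) J)) ∂P) -
        ∫ J, sg (U i) * (D (mJ (cen ρ i) J) * fC κ W (sg (U i)) (mJ (cen ρ i) (gJ (epsI ρ U) J))) ∂P ≤
        ∫ J, |fC κ W (sg (U i)) (mJ (cen ρ i) (gJ (epsI ρ U) J)) - fC κ W (sg (U i)) (mJ (cen ρ i) J)| ∂P := by
      rw [← integral_sub (hint1 (U i) i) (hint2 U i)]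
      refine integral_mono ((hint1 (U i) i).sub (hint2 U i)) ?_ fun J => ?_
      · refine Integrable.of_bound (C := 2) ?_ (Eventually.of_forall fun x => ?_)
        · exact ((hfm2 _ _ U).sub (hfm _ _)).abs.aestronglyMeasurable
        · rw [Real.norm_eq_abs, abs_abs]
          refine (abs_sub _ _).trans ?_
          have := hf1 (sg (U i)) (mJ (cen ρ i) (gJ (epsI ρ U) x))
          have := hf1 (sg (U i)) (mJ (cen ρ i) x)
          linarith
      · simp only
        have e : sg (U i) * (D (mJ (cen ρ i) J) * fC κ W (sg (U i)) (mJ (cen ρ i) J)) -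
            sg (U i) * (D (mJ (cen ρ i) J) * fC κ W (sg (U i)) (mJ (cen ρ i) (gJ (epsI ρ U) J))) =
            sg (U i) * D (mJ (cen ρ i) J) * (fC κ W (sg (U i)) (mJ (cen ρ i) J) -
              fC κ W (sg (U i)) (mJ (cen ρ i) (gJ (epsI ρ U) J))) := by ring
        rw [e]
        refine (le_abs_self _).trans ?_
        rw [abs_mul, abs_sub_comm (fC κ W (sg (U i)) (mJ (cen ρ i) (gJ (epsI ρ U) J)))]
        refine mul_le_of_le_one_left (abs_nonneg _) ?_
        rw [abs_mul]
        exact mul_le_one₀ (hsg _) (abs_nonneg _) (hD1 _)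
    linarith
  -- integrate
  have hup : ∑ U : (Fin d → Fin n) → Bool, ∑ i, ∫ J, sg (U i) * (D (mJ (cen ρ i) J) *
      fC κ W (sg (U i)) (mJ (cen ρ i) (gJ (epsI ρ U) J))) ∂P ≤ Kn * (B.card * Real.log 2 / t + t * N / 2) := by
    have h1 : ∑ U : (Fin d → Fin n) → Bool, ∑ i, ∫ J, sg (U i) * (D (mJ (cen ρ i) J) *
        fC κ W (sg (U i)) (mJ (cen ρ i) (gJ (epsI ρ U) J))) ∂P =
        ∫ J, ∑ U : (Fin d → Fin n) → Bool, ∑ i, sg (U i) * (D (mJ (cen ρ i) J) *
        fC κ W (sg (U i)) (mJ (cen ρ i) (gJ (epsI ρ U) J))) ∂P := by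
      rw [integral_finsetSum _ fun U _ => integrable_finsetSum _ fun i _ => hint2 U i]
      refine Finset.sum_congr rfl fun U _ => ?_
      rw [integral_finsetSum _ fun i _ => hint2 U i]
    rw [h1]
    calc ∫ J, ∑ U : (Fin d → Fin n) → Bool, ∑ i, sg (U i) * (D (mJ (cen ρ i) J) *
        fC κ W (sg (U i)) (mJ (cen ρ i) (gJ (epsI ρ U) J))) ∂P
        ≤ ∫ _, Kn * (B.card * Real.log 2 / t + t * N / 2) ∂P :=
          integral_mono_ae (integrable_finsetSum _ fun U _ => integrable_finsetSum _ fun i _ => hint2 U i)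
            (integrable_const _) hdet
      _ = Kn * (B.card * Real.log 2 / t + t * N / 2) := by simp
  -- the average over the coins
  have hmain : ∑ U : (Fin d → Fin n) → Bool, ∑ i, ∫ J, sg (U i) * (D (mJ (cen ρ i) J) *
      fC κ W (sg (U i)) (mJ (cen ρ i) J)) ∂P = Kn * (N * (θ / 2)) := by
    rw [Finset.sum_comm]
    have h1 : ∀ i : Fin d → Fin n, ∑ U : (Fin d → Fin n) → Bool, ∫ J, sg (U i) * (D (mJ (cen ρ i) J) *
        fC κ W (sg (U i)) (mJ (cen ρ i) J)) ∂P = Kn * (θ / 2) := by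
      intro i
      rw [sum_flip i fun b => ∫ J, sg b * (D (mJ (cen ρ i) J) * fC κ W (sg b) (mJ (cen ρ i) J)) ∂P]
      rw [← integral_add (hint1 true i) (hint1 false i)]
      have h2 : ∀ J, sg true * (D (mJ (cen ρ i) J) * fC κ W (sg true) (mJ (cen ρ i) J)) +
          sg false * (D (mJ (cen ρ i) J) * fC κ W (sg false) (mJ (cen ρ i) J)) =
          D (mJ (cen ρ i) J) * D (mJ (cen ρ i) J) := by
        intro J
        have e1 : sg true = -1 := by simp [sg]
        have e2 : sg false = 1 := by simp [sg]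
        rw [e1, e2]
        simp only [hD]
        ring
      simp only [h2]
      have hm := (hP (cen ρ i)).mp_move1
      have h3 := integral_map (μ := P) hm.measurable.aemeasurable (f := fun x => D x * D x)
        (by rw [hm.map_eq]; exact (hDm.mul hDm).aestronglyMeasurable)
      rw [hm.map_eq] at h3
      rw [← h3]
    simp only [h1, Finset.sum_const, Finset.card_univ, nsmul_eq_mul]
    rw [hcard]
    ring
  have hlow2 : Kn * (N * (θ / 2)) - Kn * (N * (θ / 16)) ≤ Kn * (B.card * Real.log 2 / t + t * N / 2) := by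
    refine le_trans ?_ hup
    rw [← hmain]
    have h1 : Kn * (N * (θ / 16)) = ∑ U : (Fin d → Fin n) → Bool, ∑ i : Fin d → Fin n, θ / 16 := by
      simp only [Finset.sum_const, Finset.card_univ, nsmul_eq_mul]
      rw [hcard, Fintype.card_fun, Fintype.card_bool]
      push_cast
      rfl
    rw [h1, ← Finset.sum_sub_distrib]
    refine Finset.sum_le_sum fun U _ => ?_
    rw [← Finset.sum_sub_distrib]
    exact Finset.sum_le_sum fun i _ => hlow U i
  have hfin : N * (θ / 2) - N * (θ / 16) ≤ B.card * Real.log 2 / t + t * N / 2 := by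
    rw [← mul_sub] at hlow2
    exact le_of_mul_le_mul_left hlow2 hKpos
  have hlog2 : Real.log 2 ≤ 1 := by
    have := Real.log_two_lt_d9
    linarith
  have hB2 : B.card * Real.log 2 / t ≤ N * (θ / 8) := by
    rw [div_le_iff₀ htpos]
    calc (B.card : ℝ) * Real.log 2 ≤ (B.card : ℝ) * 1 := by gcongr
      _ ≤ θ ^ 2 / 32 * N := by rw [mul_one]; exact hBc
      _ = N * (θ / 8) * t := by rw [ht]; ring
  have hlast : N * (θ / 2) - N * (θ / 16) ≤ N * (θ / 8) + θ / 4 * N / 2 := by
    calc N * (θ / 2) - N * (θ / 16) ≤ B.card * Real.log 2 / t + t * N / 2 := hfin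
      _ ≤ N * (θ / 8) + θ / 4 * N / 2 := by rw [ht] at hB2 ⊢; linarith
  have : 0 < N * θ := by positivity
  nlinarith

/-- **Unconditional theorem for kernels.** -/
theorem uncond (hB : StB) (hC : StC) (hM : StM) (hR : StR) (hG : StG) {P : Measure (Bond d → ℝ)}
    [IsProbabilityMeasure P] (hP : ∀ v : Site d, Inv v P) (κ : Kernel (Bond d → ℝ) (Site d → ℝ)) [IsMarkovKernel κ]
    (hcov : ∀ v : Site d, ∀ᵐ J ∂P, κ (mJ v J) = (κ J).map (mS v))
    (hgs : ∀ᵐ J ∂P, ∀ᵐ σ ∂(κ J), IsGroundState J σ) :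
    ∀ᵐ J ∂P, (κ J).map (fun σ => -σ) = κ J := by
  have h : ∀ᵐ J ∂P, ∀ W : Finset (Site d), fC κ W 1 J = fC κ W (-1) J :=
    ae_all_iff.2 fun W => window hB hM hR hG hP κ hcov hgs W
  filter_upwards [h, hgs] with J hJ hg
  refine hC (Site d) (κ J) (by filter_upwards [hg] with σ hσ using hσ.1) fun W => ?_
  exact (measureReal_eq_measureReal_iff (measure_ne_top _ _) (measure_ne_top _ _)).1 (hJ W)

end Pool.Agent.Zk83.SB
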