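import Pool.Agent.Zk83.SB.U1
import Pool.Agent.Zk83.SB.Stm6

/-!
# Uniform theorem, part 1: observables, cells, gauge covariance
-/

set_option autoImplicit false

open MeasureTheory ProbabilityTheory Filter Topology

namespace Pool.Agent.Zk83.SB

variable {d : ℕ}

/-- Local observables of range `r` of the couplings and `k` configurations (one observable at every site, not
necessarily translates of each other), which are odd under the simultaneous flip of all spins and bounded by `1`. -/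
structure OddObs (d k r : ℕ) (F : Site d → (Bond d → ℝ) → (Fin k → Site d → ℝ) → ℝ) : Prop where
  meas : ∀ x σ, Measurable fun J => F x J σ
  loc : ∀ x J J' σ σ', (∀ e : Bond d, e.1 ∈ ball x r → tip e ∈ ball x r → J e = J' e) →
    (∀ a, ∀ y ∈ ball x r, σ a y = σ' a y) → F x J σ = F x J' σ'
  odd : ∀ x J σ, F x J (fun a y => -σ a y) = -F x J σ
  bdd : ∀ x J σ, |F x J σ| ≤ 1

open Classical in
/-- the sign which is `-1` in the cells of side `L` with `U i = true` -/
noncomputable def epsC {m : ℕ} (L : ℕ) (U : (Fin d → Fin m) → Bool) (x : Site d) : ℝ :=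
  if ∃ i : Fin d → Fin m, U i = true ∧ ∀ j, x j / (L : ℤ) = ((i j : ℕ) : ℤ) then -1 else 1

lemma epsC_sign {m : ℕ} (L : ℕ) (U : (Fin d → Fin m) → Bool) : IsSign (epsC L U) := by
  intro x
  unfold epsC
  split_ifs
  · exact Or.inr rfl
  · exact Or.inl rfl

lemma epsC_eq {m : ℕ} (L : ℕ) (U : (Fin d → Fin m) → Bool) (i : Fin d → Fin m) (x : Site d)
    (hx : ∀ j, x j / (L : ℤ) = ((i j : ℕ) : ℤ)) : epsC L U x = sg (U i) := by
  unfold epsC sg
  by_cases h : U i = true
  · rw [if_pos ⟨i, h, hx⟩, if_pos h]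
  · rw [if_neg h, if_neg]
    rintro ⟨i', hi', hxi'⟩
    apply h
    have : i' = i := by
      funext j
      ext
      have h1 := hx j
      have h2 := hxi' j
      rw [h1] at h2
      exact_mod_cast h2.symm
    rwa [this] at hi'

/-- the interior of a cell -/
noncomputable def good {m : ℕ} (L r : ℕ) (i : Fin d → Fin m) : Finset (Site d) :=
  Fintype.piFinset fun j => Finset.Ico ((L : ℤ) * ((i j : ℕ) : ℤ) + r) ((L : ℤ) * (((i j : ℕ) : ℤ) + 1) - r)

lemma mem_good {m : ℕ} {L r : ℕ} {i : Fin d → Fin m} {x : Site d} : x ∈ good L r i ↔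
    ∀ j, (L : ℤ) * ((i j : ℕ) : ℤ) + r ≤ x j ∧ x j < (L : ℤ) * (((i j : ℕ) : ℤ) + 1) - r := by
  unfold good
  rw [Fintype.mem_piFinset]
  exact forall_congr' fun j => Finset.mem_Ico

lemma good_ball {m : ℕ} {L r : ℕ} (hL : 1 ≤ L) {i : Fin d → Fin m} {x y : Site d} (hx : x ∈ good L r i)
    (hy : y ∈ ball x r) (j : Fin d) : y j / (L : ℤ) = ((i j : ℕ) : ℤ) := by
  have h1 := mem_good.1 hx j
  have h2 := abs_le.1 (hy j)
  have hL' : (0 : ℤ) < L := by exact_mod_cast hL
  rw [Int.ediv_eq_iff_of_pos hL']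
  constructor
  · rw [mul_comm]; linarith [h2.1]
  · have : ((L : ℤ) * (((i j : ℕ) : ℤ) + 1)) = ((i j : ℕ) : ℤ) * L + L := by ring
    linarith [h2.2]

lemma self_mem_ball (x : Site d) (r : ℕ) : x ∈ ball x r := by
  intro j
  simp

lemma obs_gauge {k r m : ℕ} {F : Site d → (Bond d → ℝ) → (Fin k → Site d → ℝ) → ℝ} (hF : OddObs d k r F)
    {L : ℕ} (hL : 1 ≤ L) (U : (Fin d → Fin m) → Bool) {i : Fin d → Fin m} {x : Site d} (hx : x ∈ good L r i)
    (J : Bond d → ℝ) (σ : Fin k → Site d → ℝ) :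
    F x (gJ (epsC L U) J) (fun a => gS (epsC L U) (σ a)) = sg (U i) * F x J σ := by
  have hε : ∀ y ∈ ball x r, epsC L U y = sg (U i) := fun y hy => epsC_eq L U i y (good_ball hL hx hy)
  cases hU : U i with
  | false =>
    have e : sg false = 1 := by simp [sg]
    rw [e, one_mul]
    refine hF.loc x _ _ _ _ (fun b hb hb' => ?_) (fun a y hy => ?_)
    · unfold gJ
      rw [hε _ hb, hε _ hb', sg_sq, mul_one]
    · unfold gS
      rw [hε y hy, hU, e, one_mul]
  | true =>
    have e : sg true = -1 := by simp [sg]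
    rw [e, neg_one_mul, ← hF.odd]
    refine hF.loc x _ _ _ _ (fun b hb hb' => ?_) (fun a y hy => ?_)
    · unfold gJ
      rw [hε _ hb, hε _ hb', sg_sq, mul_one]
    · unfold gS
      rw [hε y hy, hU, e, neg_one_mul]

lemma box_gauge {A : Finset (Site d)} {ε : Site d → ℝ} (h : IsSign ε) {J : Bond d → ℝ} {σ : Site d → ℝ}
    (hσ : BoxGS A J σ) : BoxGS A (gJ ε J) (gS ε σ) := by
  refine ⟨h.mul hσ.1, fun ρ hρ hfix hne => ?_⟩
  have key := hσ.2 (gS ε ρ) (h.mul hρ) ?_ ?_
  · convert key using 1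
    refine finsum_congr fun e => ?_
    simp only [gJ, gS]
    have h1 := h.sq e.1
    have h2 := h.sq (tip e)
    linear_combination (J e * (ε (tip e) * ε (tip e)) * (σ e.1 * σ (tip e))) * h1 +
      J e * (σ e.1 * σ (tip e)) * h2
  · intro x hx
    simp only [gS]
    rw [hfix x hx]
    simp only [gS]
    rw [← mul_assoc, h.sq, one_mul]
  · intro h0
    apply hne
    rw [← h0, gS_gS h]

lemma box_of_gauge {A : Finset (Site d)} {ε : Site d → ℝ} (h : IsSign ε) {J : Bond d → ℝ} {σ : Site d → ℝ}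
    (hσ : BoxGS A (gJ ε J) σ) : BoxGS A J (gS ε σ) := by
  have := box_gauge h hσ
  rwa [gJ_gJ h] at this

lemma box_of_gs {J : Bond d → ℝ} {σ : Site d → ℝ} (h : IsGroundState J σ) (A : Finset (Site d)) : BoxGS A J σ := by
  refine ⟨h.1, fun ρ hρ hfix hne => h.2 ρ hρ ?_ hne⟩
  refine A.finite_toSet.subset fun x hx => ?_
  by_contra hxA
  exact hx (hfix x hxA)

lemma mem_cube {n : ℕ} {x : Site d} : x ∈ cube d n ↔ ∀ j, 0 ≤ x j ∧ x j < n := by
  unfold cube
  rw [Fintype.mem_piFinset]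
  exact forall_congr' fun j => Finset.mem_Ico

lemma card_cube (n : ℕ) : (cube d n).card = n ^ d := by
  unfold cube
  rw [Fintype.card_piFinset]
  simp

lemma card_good {m : ℕ} (L r : ℕ) (h : 2 * r ≤ L) (i : Fin d → Fin m) : (good L r i).card = (L - 2 * r) ^ d := by
  unfold good
  rw [Fintype.card_piFinset]
  have : ∀ j : Fin d, (Finset.Ico ((L : ℤ) * ((i j : ℕ) : ℤ) + r) ((L : ℤ) * (((i j : ℕ) : ℤ) + 1) - r)).card =
      L - 2 * r := by
    intro j
    rw [Int.card_Ico]
    have : (L : ℤ) * (((i j : ℕ) : ℤ) + 1) - r - ((L : ℤ) * ((i j : ℕ) : ℤ) + r) = (L : ℤ) - 2 * r := by ring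
    rw [this]
    omega
  simp only [this, Finset.prod_const, Finset.card_univ, Fintype.card_fin]

lemma good_subset_cube {n L r : ℕ} (hL : 1 ≤ L) (i : Fin d → Fin (n / L)) {x y : Site d} (hx : x ∈ good L r i)
    (hy : y ∈ ball x r) : y ∈ cube d n := by
  rw [mem_cube]
  intro j
  have h1 := good_ball hL hx hy j
  have hL' : (0 : ℤ) < L := by exact_mod_cast hL
  have h2 := (Int.ediv_eq_iff_of_pos hL').1 h1
  have h3 : (i j : ℕ) < n / L := (i j).2
  have h4 : (((i j : ℕ) + 1) * L : ℕ) ≤ n := by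
    calc ((i j : ℕ) + 1) * L ≤ (n / L) * L := Nat.mul_le_mul_right L h3
      _ ≤ n := Nat.div_mul_le_self n L
  have h5 : ((((i j : ℕ) : ℤ) + 1) * L : ℤ) ≤ n := by exact_mod_cast h4
  constructor
  · have : (0 : ℤ) ≤ ((i j : ℕ) : ℤ) * L := by positivity
    linarith [h2.1]
  · linarith [h2.2]

lemma good_disj {m : ℕ} {L r : ℕ} (hL : 1 ≤ L) {i i' : Fin d → Fin m} (h : i ≠ i') :
    Disjoint (good L r i : Finset (Site d)) (good L r i') := by
  rw [Finset.disjoint_left]
  intro x hx hx'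
  apply h
  funext j
  ext
  have h1 := good_ball hL hx (self_mem_ball x r) j
  have h2 := good_ball hL hx' (self_mem_ball x r) j
  rw [h1] at h2
  exact_mod_cast h2

end Pool.Agent.Zk83.SB
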