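import Pool.Agent.Zk83.SB.U3
import Pool.Agent.Zk69.SB.R

/-!
# Uniform theorem, part 2: measurability, counting, the exponential bound
-/

set_option autoImplicit false

open MeasureTheory ProbabilityTheory Filter Topology

namespace Pool.Agent.Zk83.SB

variable {d : ℕ}

lemma mem_rim {n : ℕ} {x : Site d} : x ∈ rim d n ↔ (∀ j, -1 ≤ x j ∧ x j < n + 1) ∧ x ∉ cube d n := by
  unfold rim
  rw [Finset.mem_sdiff, Fintype.mem_piFinset]
  refine and_congr_left fun _ => forall_congr' fun j => Finset.mem_Ico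

lemma tip_bd (e : Bond d) (j : Fin d) : e.1 j ≤ tip e j ∧ tip e j ≤ e.1 j + 1 := by
  simp only [tip, Pi.add_apply]
  by_cases hj : j = e.2
  · subst hj
    rw [Pi.single_eq_same]
    constructor <;> linarith
  · rw [Pi.single_eq_of_ne hj]
    constructor <;> linarith

lemma rim_nbr (n : ℕ) (e : Bond d) : (e.1 ∈ cube d n → tip e ∉ cube d n → tip e ∈ rim d n) ∧
    (tip e ∈ cube d n → e.1 ∉ cube d n → e.1 ∈ rim d n) := by
  constructor
  · intro h1 h2
    refine mem_rim.2 ⟨fun j => ?_, h2⟩
    have h3 := mem_cube.1 h1 j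
    have h4 := tip_bd e j
    constructor <;> linarith [h3.1, h3.2, h4.1, h4.2]
  · intro h1 h2
    refine mem_rim.2 ⟨fun j => ?_, h2⟩
    have h3 := mem_cube.1 h1 j
    have h4 := tip_bd e j
    constructor <;> linarith [h3.1, h3.2, h4.1, h4.2]

lemma box_congr {n : ℕ} {J : Bond d → ℝ} {σ σ' : Site d → ℝ} (hσ : BoxGS (cube d n) J σ)
    (h' : ∀ x, σ' x = 1 ∨ σ' x = -1) (heq : ∀ x, x ∈ cube d n ∨ x ∈ rim d n → σ x = σ' x) :
    BoxGS (cube d n) J σ' := by
  classical
  refine ⟨h', fun ρ' hρ' hfix hne => ?_⟩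
  set ρ : Site d → ℝ := fun x => if x ∈ cube d n then ρ' x else σ x with hρ
  have key := hσ.2 ρ (fun x => ?_) (fun x hx => by simp only [hρ, if_neg hx]) ?_
  · convert key using 1
    refine finsum_congr fun e => ?_
    by_cases h1 : e.1 ∈ cube d n
    · by_cases h2 : tip e ∈ cube d n
      · simp only [hρ, if_pos h1, if_pos h2]
        rw [heq _ (Or.inl h1), heq _ (Or.inl h2)]
      · have h3 := (rim_nbr n e).1 h1 h2
        simp only [hρ, if_pos h1, if_neg h2]
        rw [heq _ (Or.inl h1), heq _ (Or.inr h3), hfix _ h2]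
    · by_cases h2 : tip e ∈ cube d n
      · have h3 := (rim_nbr n e).2 h2 h1
        simp only [hρ, if_neg h1, if_pos h2]
        rw [heq _ (Or.inl h2), heq _ (Or.inr h3), hfix _ h1]
      · simp only [hρ, if_neg h1, if_neg h2]
        rw [hfix _ h1, hfix _ h2]
        ring
  · simp only [hρ]
    split_ifs
    · exact hρ' x
    · exact hσ.1 x
  · intro h0
    apply hne
    funext x
    by_cases hx : x ∈ cube d n
    · have := congrFun h0 x
      simp only [hρ, if_pos hx] at this
      rw [this, heq x (Or.inl hx)]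
    · exact hfix x hx

/-- a configuration given by coins in `S` and by `σ` outside -/
noncomputable def glue (S : Finset (Site d)) (σ : Site d → ℝ) (p : S → Bool) (x : Site d) : ℝ :=
  if h : x ∈ S then sg (p ⟨x, h⟩) else σ x

lemma sg_sign (b : Bool) : sg b = 1 ∨ sg b = -1 := by cases b <;> simp [sg]

lemma glue_of_sign (S : Finset (Site d)) (σ ρ : Site d → ℝ) (hρ : ∀ x, ρ x = 1 ∨ ρ x = -1) :
    ∃ p : S → Bool, (∀ x ∈ S, glue S σ p x = ρ x) ∧ ∀ x, x ∉ S → glue S σ p x = σ x := by
  classical
  refine ⟨fun y => decide (ρ y = -1), fun x hx => ?_, fun x hx => ?_⟩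
  · unfold glue
    rw [dif_pos hx]
    rcases hρ x with h | h
    · simp only [h, sg]
      norm_num
    · simp only [h, sg]
      norm_num
  · unfold glue
    rw [dif_neg hx]

lemma measurable_energy (A : Finset (Site d)) (σ ρ : Site d → ℝ) (hfix : ∀ x, x ∉ A → ρ x = σ x) :
    Measurable fun J : Bond d → ℝ => ∑ᶠ e : Bond d, J e * (σ e.1 * σ (tip e) - ρ e.1 * ρ (tip e)) := by
  have hfin := Pool.Agent.Zk69.SB.fin_bonds A
  have : (fun J : Bond d → ℝ => ∑ᶠ e : Bond d, J e * (σ e.1 * σ (tip e) - ρ e.1 * ρ (tip e))) =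
      fun J => ∑ e ∈ hfin.toFinset, J e * (σ e.1 * σ (tip e) - ρ e.1 * ρ (tip e)) := by
    funext J
    refine finsum_eq_sum_of_support_subset _ fun e he => ?_
    rw [Set.Finite.coe_toFinset]
    by_contra h
    simp only [Set.mem_ofPred_eq, not_or] at h
    apply he
    simp only [hfix _ h.1, hfix _ h.2, sub_self, mul_zero]
  rw [this]
  exact Finset.measurable_sum _ fun e _ => (measurable_pi_apply e).mul_const _

lemma measurableSet_box (A : Finset (Site d)) (σ : Site d → ℝ) : MeasurableSet {J : Bond d → ℝ | BoxGS A J σ} := by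
  classical
  by_cases hσ : ∀ x, σ x = 1 ∨ σ x = -1
  · have : {J : Bond d → ℝ | BoxGS A J σ} = ⋂ p : A → Bool, {J | glue A σ p ≠ σ →
        0 < ∑ᶠ e : Bond d, J e * (σ e.1 * σ (tip e) - glue A σ p e.1 * glue A σ p (tip e))} := by
      ext J
      simp only [Set.mem_iInter, Set.mem_ofPred_eq]
      constructor
      · intro h p hne
        refine h.2 _ (fun x => ?_) (fun x hx => by unfold glue; rw [dif_neg hx]) hne
        unfold glue
        split_ifs
        · exact sg_sign _
        · exact hσ x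
      · intro h
        refine ⟨hσ, fun ρ hρ hfix hne => ?_⟩
        obtain ⟨p, h1, h2⟩ := glue_of_sign A σ ρ hρ
        have hpρ : glue A σ p = ρ := by
          funext x
          by_cases hx : x ∈ A
          · exact h1 x hx
          · rw [h2 x hx, hfix x hx]
        have := h p (by rw [hpρ]; exact hne)
        rwa [hpρ] at this
    rw [this]
    refine MeasurableSet.iInter fun p => ?_
    by_cases hne : glue A σ p ≠ σ
    · have hm := measurable_energy A σ (glue A σ p) (fun x hx => by unfold glue; rw [dif_neg hx])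
      have h2 : {J : Bond d → ℝ | glue A σ p ≠ σ →
          0 < ∑ᶠ e : Bond d, J e * (σ e.1 * σ (tip e) - glue A σ p e.1 * glue A σ p (tip e))} =
          {J | 0 < ∑ᶠ e : Bond d, J e * (σ e.1 * σ (tip e) - glue A σ p e.1 * glue A σ p (tip e))} := by
        ext J
        simp only [Set.mem_ofPred_eq]
        exact ⟨fun h => h hne, fun h _ => h⟩
      rw [h2]
      exact measurableSet_lt measurable_const hm
    · have h2 : {J : Bond d → ℝ | glue A σ p ≠ σ →
          0 < ∑ᶠ e : Bond d, J e * (σ e.1 * σ (tip e) - glue A σ p e.1 * glue A σ p (tip e))} = Set.univ := by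
        ext J
        simp only [Set.mem_ofPred_eq, Set.mem_univ, iff_true]
        exact fun h => absurd h hne
      rw [h2]
      exact MeasurableSet.univ
  · have : {J : Bond d → ℝ | BoxGS A J σ} = ∅ := by
      ext J
      simp only [Set.mem_ofPred_eq, Set.mem_empty_iff_false, iff_false]
      exact fun h => hσ h.1
    rw [this]
    exact MeasurableSet.empty

/-- the event that some `k`-tuple of ground states of the cube (any boundary conditions) has a large sum -/
def Ev (d k n : ℕ) (δ : ℝ) (F : Site d → (Bond d → ℝ) → (Fin k → Site d → ℝ) → ℝ) : Set (Bond d → ℝ) :=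
  {J | ∃ σ : Fin k → Site d → ℝ, (∀ a, BoxGS (cube d n) J (σ a)) ∧
    δ * (n : ℝ) ^ d ≤ |∑ x ∈ cube d n, F x J σ|}

lemma measurableSet_Ev {k r n : ℕ} {δ : ℝ} {F : Site d → (Bond d → ℝ) → (Fin k → Site d → ℝ) → ℝ}
    (hF : OddObs d k r F) : MeasurableSet (Ev d k n δ F) := by
  classical
  set S : Finset (Site d) := Fintype.piFinset fun _ => Finset.Icc (-((r : ℤ) + 1)) (n + r + 1) with hS
  have hball : ∀ x ∈ cube d n, ∀ y ∈ ball x r, y ∈ S := by
    intro x hx y hy
    rw [hS, Fintype.mem_piFinset]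
    intro j
    have h1 := mem_cube.1 hx j
    have h2 := abs_le.1 (hy j)
    rw [Finset.mem_Icc]
    constructor <;> linarith [h1.1, h1.2, h2.1, h2.2]
  have hnb : ∀ x, x ∈ cube d n ∨ x ∈ rim d n → x ∈ S := by
    intro x hx
    rw [hS, Fintype.mem_piFinset]
    intro j
    rw [Finset.mem_Icc]
    rcases hx with hx | hx
    · have h1 := mem_cube.1 hx j
      constructor <;> linarith [h1.1, h1.2]
    · have h1 := (mem_rim.1 hx).1 j
      constructor <;> linarith [h1.1, h1.2]
  have hset : Ev d k n δ F = ⋃ p : Fin k → (S → Bool), {J | (∀ a, BoxGS (cube d n) J (glue S 1 (p a))) ∧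
      δ * (n : ℝ) ^ d ≤ |∑ x ∈ cube d n, F x J (fun a => glue S 1 (p a))|} := by
    ext J
    simp only [Ev, Set.mem_iUnion, Set.mem_ofPred_eq]
    constructor
    · rintro ⟨σ, hσ, hsum⟩
      choose p hp hp' using fun a => glue_of_sign S 1 (σ a) (hσ a).1
      refine ⟨p, fun a => ?_, ?_⟩
      · refine box_congr (hσ a) (fun x => ?_) fun x hx => (hp a x (hnb x hx)).symm
        by_cases hx : x ∈ S
        · rw [hp a x hx]; exact (hσ a).1 x
        · rw [hp' a x hx]; exact Or.inl rfl
      · have : ∀ x ∈ cube d n, F x J (fun a => glue S 1 (p a)) = F x J σ := by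
          intro x hx
          exact hF.loc x _ _ _ _ (fun _ _ _ => rfl) fun a y hy => hp a y (hball x hx y hy)
        rw [Finset.sum_congr rfl this]
        exact hsum
    · rintro ⟨p, h1, h2⟩
      exact ⟨_, h1, h2⟩
  rw [hset]
  refine MeasurableSet.iUnion fun p => ?_
  have h1 : MeasurableSet {J : Bond d → ℝ | ∀ a, BoxGS (cube d n) J (glue S 1 (p a))} := by
    have : {J : Bond d → ℝ | ∀ a, BoxGS (cube d n) J (glue S 1 (p a))} =
        ⋂ a, {J | BoxGS (cube d n) J (glue S 1 (p a))} := by
      ext J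
      simp only [Set.mem_iInter, Set.mem_ofPred_eq]
    rw [this]
    exact MeasurableSet.iInter fun a => measurableSet_box _ _
  have h2 : MeasurableSet {J : Bond d → ℝ |
      δ * (n : ℝ) ^ d ≤ |∑ x ∈ cube d n, F x J (fun a => glue S 1 (p a))|} :=
    measurableSet_le measurable_const (Finset.measurable_sum _ fun x _ => hF.meas x _).abs
  exact h1.inter h2

end Pool.Agent.Zk83.SB
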