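import Pool.Agent.Zk83.SB.U4

/-!
# Uniform theorem, part 3: the exponential bound
-/

set_option autoImplicit false

open MeasureTheory ProbabilityTheory Filter Topology
open scoped ENNReal

namespace Pool.Agent.Zk83.SB

variable {d : ℕ}

lemma count_bound (hH : StH) (hR2 : StR2) {k r n L : ℕ} {δ : ℝ} (hδ : 0 < δ) (hL : 1 ≤ L) (h2r : 2 * r ≤ L)
    (hgeo : (n : ℝ) ^ d - ((n / L : ℕ) : ℝ) ^ d * ((L : ℝ) - 2 * r) ^ d ≤ δ / 2 * (n : ℝ) ^ d)
    {F : Site d → (Bond d → ℝ) → (Fin k → Site d → ℝ) → ℝ} (hF : OddObs d k r F) (J : Bond d → ℝ)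
    (T : Finset ((Fin d → Fin (n / L)) → Bool)) (hT : ∀ U ∈ T, gJ (epsC L U) J ∈ Ev d k n δ F) :
    (T.card : ℝ) ≤ 2 ^ Fintype.card (Fin d → Fin (n / L)) * (2 * 2 ^ (k * (rim d n).card) *
      Real.exp (-((δ / 2 * (n : ℝ) ^ d) ^ 2 /
        (2 * Fintype.card (Fin d → Fin (n / L)) * ((L : ℝ) ^ d) ^ 2)))) := by
  classical
  set φ : (Fin k → Site d → ℝ) → ((Fin d → Fin (n / L)) → ℝ) := fun σ i => ∑ x ∈ good L r i, F x J σ with hφ
  have hφ' : ∀ σ τ : Fin k → Site d → ℝ, (∀ a, ∀ x ∈ cube d n, σ a x = τ a x) → φ σ = φ τ := by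
    intro σ τ h
    funext i
    refine Finset.sum_congr rfl fun x hx => ?_
    exact hF.loc x _ _ _ _ (fun _ _ _ => rfl) fun a y hy => h a y (good_subset_cube hL i hx hy)
  obtain ⟨hfin, hnc⟩ := hR2 d n k J _ φ hφ'
  set V := hfin.toFinset with hV
  have hVc : V.card ≤ 2 ^ (k * (rim d n).card) := by
    rw [hV, ← Set.ncard_eq_toFinset_card _ hfin]
    exact hnc
  have hcardg : ∀ i : Fin d → Fin (n / L), ((good L r i).card : ℝ) = ((L : ℝ) - 2 * r) ^ d := by
    intro i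
    rw [card_good L r h2r i]
    push_cast [h2r]
    rfl
  have hnn : (0 : ℝ) ≤ (L : ℝ) - 2 * r := by
    have : ((2 * r : ℕ) : ℝ) ≤ L := by exact_mod_cast h2r
    push_cast at this
    linarith
  have hVb : ∀ v ∈ V, ∀ i, |v i| ≤ (L : ℝ) ^ d := by
    intro v hv i
    obtain ⟨σ, -, rfl⟩ := hfin.mem_toFinset.1 hv
    calc |∑ x ∈ good L r i, F x J σ| ≤ ∑ x ∈ good L r i, |F x J σ| := Finset.abs_sum_le_sum_abs _ _
      _ ≤ ∑ x ∈ good L r i, (1 : ℝ) := Finset.sum_le_sum fun x _ => hF.bdd x J σ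
      _ = ((L : ℝ) - 2 * r) ^ d := by
          rw [Finset.sum_const, nsmul_eq_mul, mul_one]
          exact hcardg i
      _ ≤ (L : ℝ) ^ d := by
          refine pow_le_pow_left₀ hnn ?_ d
          have : (0 : ℝ) ≤ r := Nat.cast_nonneg r
          linarith
  have hLpos : (0 : ℝ) < L := by exact_mod_cast hL
  have hmain := hH (Fin d → Fin (n / L)) V ((L : ℝ) ^ d) (δ / 2 * (n : ℝ) ^ d) (by positivity) (by positivity) hVb
  have hsub : T ⊆ (Finset.univ.filter fun U : (Fin d → Fin (n / L)) → Bool =>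
      ∃ v ∈ V, δ / 2 * (n : ℝ) ^ d ≤ |∑ i, (if U i then (-1 : ℝ) else 1) * v i|) := by
    intro U hU
    rw [Finset.mem_filter]
    refine ⟨Finset.mem_univ _, ?_⟩
    obtain ⟨σ', hσ', hsum⟩ := hT U hU
    set σ : Fin k → Site d → ℝ := fun a => gS (epsC L U) (σ' a) with hσ
    have hback : σ' = fun a => gS (epsC L U) (σ a) := by
      funext a
      simp only [hσ]
      rw [gS_gS (epsC_sign L U)]
    refine ⟨φ σ, hfin.mem_toFinset.2 ⟨σ, fun a => box_of_gauge (epsC_sign L U) (hσ' a), rfl⟩, ?_⟩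
    rw [hback] at hsum
    set G : Finset (Site d) := Finset.univ.biUnion fun i : Fin d → Fin (n / L) => good L r i with hG
    have hGsub : G ⊆ cube d n := by
      intro x hx
      obtain ⟨i, -, hi⟩ := Finset.mem_biUnion.1 hx
      exact good_subset_cube hL i hi (self_mem_ball x r)
    have hdisj : ∀ i ∈ (Finset.univ : Finset (Fin d → Fin (n / L))), ∀ j ∈ Finset.univ, i ≠ j →
        Disjoint (good L r i : Finset (Site d)) (good L r j) := fun i _ j _ h => good_disj hL h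
    have hGc : (G.card : ℝ) = ((n / L : ℕ) : ℝ) ^ d * ((L : ℝ) - 2 * r) ^ d := by
      rw [hG, Finset.card_biUnion hdisj]
      push_cast
      simp only [hcardg, Finset.sum_const, Finset.card_univ, nsmul_eq_mul]
      rw [Fintype.card_fun, Fintype.card_fin, Fintype.card_fin]
      push_cast
      rfl
    have hrest : |∑ x ∈ cube d n \ G, F x (gJ (epsC L U) J) (fun a => gS (epsC L U) (σ a))| ≤
        δ / 2 * (n : ℝ) ^ d := by
      calc |∑ x ∈ cube d n \ G, F x (gJ (epsC L U) J) (fun a => gS (epsC L U) (σ a))|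
          ≤ ∑ x ∈ cube d n \ G, |F x (gJ (epsC L U) J) (fun a => gS (epsC L U) (σ a))| :=
            Finset.abs_sum_le_sum_abs _ _
        _ ≤ ∑ x ∈ cube d n \ G, (1 : ℝ) := Finset.sum_le_sum fun x _ => hF.bdd x _ _
        _ = ((cube d n \ G).card : ℝ) := by rw [Finset.sum_const, nsmul_eq_mul, mul_one]
        _ = (n : ℝ) ^ d - G.card := by
            rw [Finset.card_sdiff_of_subset hGsub, Nat.cast_sub (Finset.card_le_card hGsub), card_cube]
            push_cast
            rfl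
        _ ≤ δ / 2 * (n : ℝ) ^ d := by rw [hGc]; exact hgeo
    have hGs : ∑ x ∈ G, F x (gJ (epsC L U) J) (fun a => gS (epsC L U) (σ a)) =
        ∑ i, (if U i then (-1 : ℝ) else 1) * φ σ i := by
      rw [hG, Finset.sum_biUnion hdisj]
      refine Finset.sum_congr rfl fun i _ => ?_
      simp only [hφ]
      rw [Finset.mul_sum]
      refine Finset.sum_congr rfl fun x hx => ?_
      rw [obs_gauge hF hL U hx J σ]
      rfl
    rw [← Finset.sum_sdiff hGsub, hGs] at hsum
    have h3 := hsum.trans (abs_add_le _ _)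
    linarith
  calc (T.card : ℝ) ≤ _ := by exact_mod_cast Finset.card_le_card hsub
    _ ≤ _ := hmain
    _ ≤ _ := by
        have : (V.card : ℝ) ≤ 2 ^ (k * (rim d n).card) := by exact_mod_cast hVc
        gcongr

/-- **Uniform theorem.** -/
theorem uniform (hH : StH) (hR2 : StR2) (hG2 : StG2) (d k r : ℕ) (hd : 1 ≤ d) (δ : ℝ) (hδ : 0 < δ) :
    ∃ c : ℝ, 0 < c ∧ ∃ n₀ : ℕ, ∀ n ≥ n₀, ∀ (P : Measure (Bond d → ℝ)) [IsProbabilityMeasure P],
      (∀ ε : Site d → ℝ, (∀ x, ε x = 1 ∨ ε x = -1) → P.map (gJ ε) = P) →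
      ∀ F : Site d → (Bond d → ℝ) → (Fin k → Site d → ℝ) → ℝ, OddObs d k r F →
        P {J | ∃ σ : Fin k → Site d → ℝ, (∀ a, BoxGS (cube d n) J (σ a)) ∧
          δ * (n : ℝ) ^ d ≤ |∑ x ∈ cube d n, F x J σ|} ≤ ENNReal.ofReal (Real.exp (-(c * (n : ℝ) ^ d))) := by
  classical
  obtain ⟨L, hL, h2r, n₀, hn₀⟩ := hG2 d r k hd δ hδ
  have hLpos : (0 : ℝ) < L := by exact_mod_cast hL
  refine ⟨δ ^ 2 / (16 * (L : ℝ) ^ d), by positivity, n₀, fun n hn P _ hP F hF => ?_⟩
  obtain ⟨hn1, hgeo, hrim⟩ := hn₀ n hn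
  set c : ℝ := δ ^ 2 / (16 * (L : ℝ) ^ d) with hc
  set K : ℝ := 2 ^ Fintype.card (Fin d → Fin (n / L)) with hK
  have hKpos : 0 < K := by positivity
  have hnpos : (0 : ℝ) < (n : ℝ) ^ d := by
    have : (0 : ℝ) < n := by exact_mod_cast hn1
    positivity
  rcases lt_or_ge 1 δ with hδ1 | hδ1
  · -- the event is empty
    have hempty : {J : Bond d → ℝ | ∃ σ : Fin k → Site d → ℝ, (∀ a, BoxGS (cube d n) J (σ a)) ∧
          δ * (n : ℝ) ^ d ≤ |∑ x ∈ cube d n, F x J σ|} = ∅ := by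
      ext J
      simp only [Set.mem_ofPred_eq, Set.mem_empty_iff_false, iff_false]
      rintro ⟨σ, -, h⟩
      have h2 : |∑ x ∈ cube d n, F x J σ| ≤ (n : ℝ) ^ d := by
        calc |∑ x ∈ cube d n, F x J σ| ≤ ∑ x ∈ cube d n, |F x J σ| := Finset.abs_sum_le_sum_abs _ _
          _ ≤ ∑ x ∈ cube d n, (1 : ℝ) := Finset.sum_le_sum fun x _ => hF.bdd x J σ
          _ = (n : ℝ) ^ d := by
              rw [Finset.sum_const, nsmul_eq_mul, mul_one, card_cube]
              push_cast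
              rfl
      nlinarith
    rw [hempty, measure_empty]
    exact zero_le
  -- the numerical bound
  have hnum : 2 * 2 ^ (k * (rim d n).card) * Real.exp (-((δ / 2 * (n : ℝ) ^ d) ^ 2 /
        (2 * Fintype.card (Fin d → Fin (n / L)) * ((L : ℝ) ^ d) ^ 2))) ≤ Real.exp (-(c * (n : ℝ) ^ d)) := by
    have hcard : (Fintype.card (Fin d → Fin (n / L)) : ℝ) = ((n / L : ℕ) : ℝ) ^ d := by
      rw [Fintype.card_fun, Fintype.card_fin, Fintype.card_fin]
      push_cast
      rfl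
    have hdiv : ((n / L : ℕ) : ℝ) ≤ (n : ℝ) / L := Nat.cast_div_le
    have h1 : ((n / L : ℕ) : ℝ) ^ d * (L : ℝ) ^ d ≤ (n : ℝ) ^ d := by
      rw [← mul_pow]
      refine pow_le_pow_left₀ (by positivity) ?_ d
      rwa [le_div_iff₀ hLpos] at hdiv
    have hexp : 2 * (c * (n : ℝ) ^ d) ≤ (δ / 2 * (n : ℝ) ^ d) ^ 2 /
        (2 * Fintype.card (Fin d → Fin (n / L)) * ((L : ℝ) ^ d) ^ 2) ∨ Fintype.card (Fin d → Fin (n / L)) = 0 := by
      by_cases h0 : Fintype.card (Fin d → Fin (n / L)) = 0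
      · exact Or.inr h0
      · left
        have hpos : (0 : ℝ) < Fintype.card (Fin d → Fin (n / L)) := by
          exact_mod_cast Nat.pos_of_ne_zero h0
        rw [le_div_iff₀ (by positivity)]
        rw [hcard] at hpos ⊢
        rw [hc]
        have h2 : 2 * (δ ^ 2 / (16 * (L : ℝ) ^ d) * (n : ℝ) ^ d) *
            (2 * ((n / L : ℕ) : ℝ) ^ d * ((L : ℝ) ^ d) ^ 2) =
            δ ^ 2 / 4 * (n : ℝ) ^ d * (((n / L : ℕ) : ℝ) ^ d * (L : ℝ) ^ d) := by
          field_simp
          ring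
        rw [h2]
        have h3 : (δ / 2 * (n : ℝ) ^ d) ^ 2 = δ ^ 2 / 4 * (n : ℝ) ^ d * (n : ℝ) ^ d := by ring
        rw [h3]
        gcongr
    rcases hexp with hexp | h0
    · have h4 : 2 * 2 ^ (k * (rim d n).card) ≤ Real.exp (c * (n : ℝ) ^ d) := by
        have h5 : (2 : ℝ) * 2 ^ (k * (rim d n).card) = Real.exp ((k * (rim d n).card + 1) * Real.log 2) := by
          rw [← pow_succ', mul_comm _ (Real.log 2), Real.exp_mul, Real.exp_log (by norm_num : (0 : ℝ) < 2)]
          rw [← Real.rpow_natCast]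
          push_cast
          rfl
        rw [h5]
        exact Real.exp_le_exp.2 hrim
      calc 2 * 2 ^ (k * (rim d n).card) * Real.exp (-((δ / 2 * (n : ℝ) ^ d) ^ 2 /
            (2 * Fintype.card (Fin d → Fin (n / L)) * ((L : ℝ) ^ d) ^ 2)))
          ≤ Real.exp (c * (n : ℝ) ^ d) * Real.exp (-(2 * (c * (n : ℝ) ^ d))) := by gcongr
        _ = Real.exp (-(c * (n : ℝ) ^ d)) := by
            rw [← Real.exp_add]
            congr 1
            ring
    · -- no cells: impossible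
      exfalso
      rw [h0] at hcard
      have h6 : ((n / L : ℕ) : ℝ) ^ d = 0 := by rw [← hcard]; norm_num
      rw [h6, zero_mul, sub_zero] at hgeo
      nlinarith
  -- the probability
  have hEv : MeasurableSet (Ev d k n δ F) := measurableSet_Ev hF
  have hpre : ∀ U : (Fin d → Fin (n / L)) → Bool, P (gJ (epsC L U) ⁻¹' (Ev d k n δ F)) = P (Ev d k n δ F) := by
    intro U
    rw [← Measure.map_apply (measurable_gJ _) hEv, hP _ (epsC_sign L U)]
  have hsum : ENNReal.ofReal K * P (Ev d k n δ F) ≤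
      ENNReal.ofReal (K * Real.exp (-(c * (n : ℝ) ^ d))) := by
    have h1 : ENNReal.ofReal K * P (Ev d k n δ F) =
        ∑ U : (Fin d → Fin (n / L)) → Bool, P (gJ (epsC L U) ⁻¹' (Ev d k n δ F)) := by
      simp only [hpre, Finset.sum_const, Finset.card_univ, nsmul_eq_mul]
      congr 1
      rw [hK, ENNReal.ofReal_pow (by norm_num)]
      simp
    have h2 : ∀ U : (Fin d → Fin (n / L)) → Bool, P (gJ (epsC L U) ⁻¹' (Ev d k n δ F)) =
        ∫⁻ J, (gJ (epsC L U) ⁻¹' (Ev d k n δ F)).indicator 1 J ∂P := fun U =>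
      (lintegral_indicator_one (measurable_gJ _ hEv)).symm
    rw [h1]
    simp only [h2]
    rw [← lintegral_finset_sum _ fun U _ => measurable_one.indicator (measurable_gJ _ hEv)]
    calc ∫⁻ J, ∑ U : (Fin d → Fin (n / L)) → Bool, (gJ (epsC L U) ⁻¹' (Ev d k n δ F)).indicator 1 J ∂P
        ≤ ∫⁻ _, ENNReal.ofReal (K * Real.exp (-(c * (n : ℝ) ^ d))) ∂P := by
          refine lintegral_mono fun J => ?_
          have h3 : ∑ U : (Fin d → Fin (n / L)) → Bool,
              (gJ (epsC L U) ⁻¹' (Ev d k n δ F)).indicator (1 : (Bond d → ℝ) → ℝ≥0∞) J =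
              ((Finset.univ.filter fun U : (Fin d → Fin (n / L)) → Bool =>
                gJ (epsC L U) J ∈ Ev d k n δ F).card : ℝ≥0∞) := by
            rw [Finset.card_filter]
            push_cast
            refine Finset.sum_congr rfl fun U _ => ?_
            simp only [Set.indicator, Set.mem_preimage, Pi.one_apply]
          rw [h3, ← ENNReal.ofReal_natCast]
          refine ENNReal.ofReal_le_ofReal ?_
          refine (count_bound hH hR2 hδ hL h2r hgeo hF J _ fun U hU => (Finset.mem_filter.1 hU).2).trans ?_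
          exact mul_le_mul_of_nonneg_left hnum hKpos.le
      _ = ENNReal.ofReal (K * Real.exp (-(c * (n : ℝ) ^ d))) := by simp
  rw [ENNReal.ofReal_mul hKpos.le] at hsum
  have hK0 : ENNReal.ofReal K ≠ 0 := by
    rw [Ne, ENNReal.ofReal_eq_zero, not_le]
    exact hKpos
  exact (ENNReal.mul_le_mul_iff_right hK0 ENNReal.ofReal_ne_top).1 hsum

end Pool.Agent.Zk83.SB
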