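import Pool.Agent.Zk83.SB.U5
import Pool.Agent.Zk83.SB.U2
import Pool.Agent.Zk83.SB.Joint
import Pool.Agent.Zk83.SB.Lim

/-!
# Consequences: almost sure statement, joint laws, limits
-/

set_option autoImplicit false

open MeasureTheory ProbabilityTheory Filter Topology
open scoped ENNReal

namespace Pool.Agent.Zk83.SB

variable {d : ℕ}

/-- almost sure version of the uniform theorem -/
theorem uniform_as (hH : StH) (hR2 : StR2) (hG2 : StG2) {k r : ℕ} (hd : 1 ≤ d)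
    (P : Measure (Bond d → ℝ)) [IsProbabilityMeasure P]
    (hP : ∀ ε : Site d → ℝ, (∀ x, ε x = 1 ∨ ε x = -1) → P.map (gJ ε) = P)
    (F : Site d → (Bond d → ℝ) → (Fin k → Site d → ℝ) → ℝ) (hF : OddObs d k r F) :
    ∀ᵐ J ∂P, ∀ δ : ℝ, 0 < δ → ∀ᶠ n : ℕ in atTop, ∀ σ : Fin k → Site d → ℝ,
      (∀ a, BoxGS (cube d n) J (σ a)) → |∑ x ∈ cube d n, F x J σ| < δ * (n : ℝ) ^ d := by
  have key : ∀ m : ℕ, ∀ᵐ J ∂P, ∀ᶠ n : ℕ in atTop, J ∉ Ev d k n (1 / ((m : ℝ) + 1)) F := by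
    intro m
    obtain ⟨c, hc, n₀, hn₀⟩ := uniform hH hR2 hG2 d k r hd (1 / ((m : ℝ) + 1)) (by positivity)
    have hsum : ∑' n : ℕ, P (Ev d k (n + (n₀ + 1)) (1 / ((m : ℝ) + 1)) F) ≠ ⊤ := by
      have h1 : Summable fun n : ℕ => Real.exp (-c * (n : ℝ)) := by
        have := Real.summable_exp_nat_mul_iff.2 (neg_neg_of_pos hc)
        simpa [mul_comm] using this
      have h2 : Summable fun n : ℕ => Real.exp (-c * ((n + (n₀ + 1) : ℕ) : ℝ)) :=
        (summable_nat_add_iff (f := fun n : ℕ => Real.exp (-c * (n : ℝ))) (n₀ + 1)).2 h1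
      refine ne_top_of_le_ne_top h2.tsum_ofReal_ne_top (ENNReal.tsum_le_tsum fun n => ?_)
      refine (hn₀ (n + (n₀ + 1)) (by omega) P hP F hF).trans ?_
      refine ENNReal.ofReal_le_ofReal (Real.exp_le_exp.2 ?_)
      have h3 : ((n + (n₀ + 1) : ℕ) : ℝ) ≤ ((n + (n₀ + 1) : ℕ) : ℝ) ^ d := by
        refine le_self_pow₀ ?_ (by omega)
        have : 1 ≤ n + (n₀ + 1) := by omega
        exact_mod_cast this
      nlinarith
    have hae := ae_eventually_notMem hsum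
    filter_upwards [hae] with J hJ
    obtain ⟨N, hN⟩ := eventually_atTop.1 hJ
    refine eventually_atTop.2 ⟨N + (n₀ + 1), fun n hn => ?_⟩
    have h4 := hN (n - (n₀ + 1)) (by omega)
    have h5 : n - (n₀ + 1) + (n₀ + 1) = n := by omega
    rwa [h5] at h4
  filter_upwards [ae_all_iff.2 key] with J hJ
  intro δ hδ
  obtain ⟨m, hm⟩ := exists_nat_one_div_lt hδ
  filter_upwards [hJ m] with n hn σ hσ
  by_contra h
  push Not at h
  refine hn ⟨σ, hσ, le_trans ?_ h⟩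
  exact mul_le_mul_of_nonneg_right hm.le (by positivity)

/-- unconditional flip invariance of joint laws -/
theorem joint_all (hB : StB) (hC : StC) (hM : StM) (hR : StR) (hG : StG) {P : Measure (Bond d → ℝ)}
    [IsProbabilityMeasure P] (hP : ∀ v : Site d, Inv v P)
    (Q : Measure ((Bond d → ℝ) × (Site d → ℝ))) [IsProbabilityMeasure Q] (h1 : Q.map Prod.fst = P)
    (hinv : ∀ v : Site d, Q.map (fun p => (mJ v p.1, mS v p.2)) = Q) (hgs : ∀ᵐ p ∂Q, IsGroundState p.1 p.2) :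
    Q.map (fun p => (p.1, -p.2)) = Q := by
  have hflip := uncond hB hC hM hR hG hP Q.condKernel (fun v => cond_cov (hP v) Q h1 (hinv v)) (cond_gs Q h1 hgs)
  ext s hs
  have hm : Measurable fun p : (Bond d → ℝ) × (Site d → ℝ) => (p.1, -p.2) := by fun_prop
  rw [Measure.map_apply hm hs, apply_eq Q h1 (hm hs), apply_eq Q h1 hs]
  refine lintegral_congr_ae ?_
  filter_upwards [hflip] with J hJ
  have h2 : MeasurableSet {σ : Site d → ℝ | (J, σ) ∈ s} := measurable_prodMk_left hs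
  have hn : Measurable fun σ : Site d → ℝ => -σ := by fun_prop
  calc Q.condKernel J {σ | (J, σ) ∈ (fun p : (Bond d → ℝ) × (Site d → ℝ) => (p.1, -p.2)) ⁻¹' s}
      = (Q.condKernel J).map (fun σ => -σ) {σ | (J, σ) ∈ s} := by
        rw [Measure.map_apply hn h2]; rfl
    _ = Q.condKernel J {σ | (J, σ) ∈ s} := by rw [hJ]

/-- limits of asymptotic ground states -/
theorem limits_all (hB : StB) (hC : StC) (hM : StM) (hR : StR) (hG : StG) (hN : StN) (hK : StK) (hd : 1 ≤ d)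
    (μ : Measure ℝ) [IsProbabilityMeasure μ] (hat : ∀ x, μ {x} = 0) (hsym : μ.map (fun x => -x) = μ)
    (Q : ℕ → Measure ((Bond d → ℝ) × (Site d → ℝ))) (hQ : ∀ n, IsProbabilityMeasure (Q n))
    (hmarg : ∀ f : BoundedContinuousFunction (Bond d → ℝ) ℝ,
      Tendsto (fun n => ∫ p, f p.1 ∂(Q n)) atTop (𝓝 (∫ J, f J ∂(Measure.infinitePi fun _ : Bond d => μ))))
    (hinv : ∀ v : Site d, ∀ f : BoundedContinuousFunction ((Bond d → ℝ) × (Site d → ℝ)) ℝ,
      Tendsto (fun n => ∫ p, f (mJ v p.1, mS v p.2) ∂(Q n) - ∫ p, f p ∂(Q n)) atTop (𝓝 0))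
    (hs : ∀ n, ∀ᵐ p ∂(Q n), ∀ x, p.2 x = 1 ∨ p.2 x = -1) (ha : Asymptotic Q)
    (g : BoundedContinuousFunction ((Bond d → ℝ) × (Site d → ℝ)) ℝ) :
    Tendsto (fun n => ∫ p, g p ∂(Q n) - ∫ p, g (p.1, -p.2) ∂(Q n)) atTop (𝓝 0) := by
  by_contra hno
  obtain ⟨K, hKp, hK1, hKinv, hKs, hKc, hKg⟩ :=
    limit_law hK d Set.univ _ Q hQ hmarg (fun v _ => hinv v) hs ha g hno
  apply hKg
  have hgs : ∀ᵐ p ∂K, IsGroundState p.1 p.2 := by
    have h1 := hN d hd μ hat
    rw [← hK1] at h1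
    have h2 := ae_of_ae_map measurable_fst.aemeasurable h1
    filter_upwards [h2, hKs, hKc] with p h2 h3 h4 using h2 p.2 h3 h4
  have hj := joint_all hB hC hM hR hG (fun v => inv_iid v μ hsym) K hK1 (fun v => hKinv v trivial) hgs
  have hm : Measurable fun p : (Bond d → ℝ) × (Site d → ℝ) => (p.1, -p.2) := by fun_prop
  conv_lhs => rw [← hj]
  rw [integral_map hm.aemeasurable g.continuous.aestronglyMeasurable]

end Pool.Agent.Zk83.SB
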