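import Pool.Agent.Zk83.SB.U6

/-!
# Further consequences; independent symmetric couplings
-/

set_option autoImplicit false

open MeasureTheory ProbabilityTheory Filter Topology
open scoped ENNReal

namespace Pool.Agent.Zk83.SB

variable {d : ℕ}

/-- The law `P` of the couplings is invariant under all gauge transformations `J_xy → ε_x J_xy ε_y`. -/
def GaugeInv (P : Measure (Bond d → ℝ)) : Prop :=
  ∀ ε : Site d → ℝ, (∀ x, ε x = 1 ∨ ε x = -1) → P.map (gJ ε) = P

/-- independent couplings with symmetric laws -/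
lemma gauge_indep (μ : Bond d → Measure ℝ) [∀ e, IsProbabilityMeasure (μ e)]
    (hs : ∀ e, (μ e).map (fun x => -x) = μ e) : GaugeInv (Measure.infinitePi μ) := by
  intro ε hε
  have h := Measure.infinitePi_map_pi (μ := μ) (X := fun _ => ℝ) (Y := fun _ => ℝ)
    (f := fun (e : Bond d) (x : ℝ) => x * (ε e.1 * ε (tip e))) (fun e => by fun_prop)
  have h2 : (fun e : Bond d => (μ e).map (fun x : ℝ => x * (ε e.1 * ε (tip e)))) = μ := by
    funext e
    rcases hε e.1 with h1 | h1 <;> rcases hε (tip e) with h3 | h3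
    · rw [h1, h3]; simp
    · rw [h1, h3]; simpa using hs e
    · rw [h1, h3]; simpa using hs e
    · rw [h1, h3]; simp
  have h4 : (fun (J : Bond d → ℝ) (e : Bond d) => J e * (ε e.1 * ε (tip e))) = gJ ε := rfl
  rw [← h4]
  rw [h]
  congr 1

/-- If there is almost surely at most one pair of ground states, then there is at most one translation invariant joint
law of couplings and ground states. -/
theorem unique_all (hB : StB) (hC : StC) (hM : StM) (hR : StR) (hG : StG) {P : Measure (Bond d → ℝ)}
    [IsProbabilityMeasure P] (hP : ∀ v : Site d, Inv v P)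
    (hone : ∀ᵐ J ∂P, ∃ σ, ∀ τ, IsGroundState J τ → τ = σ ∨ τ = -σ)
    (Q Q' : Measure ((Bond d → ℝ) × (Site d → ℝ))) [IsProbabilityMeasure Q] [IsProbabilityMeasure Q']
    (h1 : Q.map Prod.fst = P) (h1' : Q'.map Prod.fst = P)
    (hinv : ∀ v : Site d, Q.map (fun p => (mJ v p.1, mS v p.2)) = Q)
    (hinv' : ∀ v : Site d, Q'.map (fun p => (mJ v p.1, mS v p.2)) = Q')
    (hgs : ∀ᵐ p ∂Q, IsGroundState p.1 p.2) (hgs' : ∀ᵐ p ∂Q', IsGroundState p.1 p.2) : Q = Q' := by
  have e1 := uncond hB hC hM hR hG hP Q.condKernel (fun v => cond_cov (hP v) Q h1 (hinv v)) (cond_gs Q h1 hgs)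
  have e2 := uncond hB hC hM hR hG hP Q'.condKernel (fun v => cond_cov (hP v) Q' h1' (hinv' v)) (cond_gs Q' h1' hgs')
  have g1 := cond_gs Q h1 hgs
  have g2 := cond_gs Q' h1' hgs'
  have hk : ∀ᵐ J ∂P, Q.condKernel J = Q'.condKernel J := by
    filter_upwards [hone, e1, e2, g1, g2] with J ⟨σ, hσ⟩ e1 e2 g1 g2
    obtain ⟨τ, hτ⟩ := g1.exists
    have hne : σ ≠ -σ := by
      intro h0
      have h3 := congrFun h0 0
      have h4 : σ 0 = 0 := by
        simp only [Pi.neg_apply] at h3
        linarith
      have h5 : τ 0 = 0 := by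
        rcases hσ τ hτ with h | h
        · rw [h, h4]
        · rw [h, Pi.neg_apply, h4, neg_zero]
      rcases hτ.1 0 with h | h <;> rw [h5] at h <;> norm_num at h
    rw [pair_law (Q.condKernel J) σ hne (by filter_upwards [g1] with τ hτ using hσ τ hτ) e1,
      pair_law (Q'.condKernel J) σ hne (by filter_upwards [g2] with τ hτ using hσ τ hτ) e2]
  ext s hs
  rw [apply_eq Q h1 hs, apply_eq Q' h1' hs]
  refine lintegral_congr_ae ?_
  filter_upwards [hk] with J hJ
  rw [hJ]

/-- there is no measurable covariant choice of a ground state -/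
theorem no_choice (hB : StB) (hC : StC) (hM : StM) (hR : StR) (hG : StG) {P : Measure (Bond d → ℝ)}
    [IsProbabilityMeasure P] (hP : ∀ v : Site d, Inv v P) (S : (Bond d → ℝ) → (Site d → ℝ)) (hS : Measurable S)
    (hcov : ∀ v : Site d, ∀ᵐ J ∂P, S (mJ v J) = mS v (S J)) : ¬ ∀ᵐ J ∂P, IsGroundState J (S J) := by
  intro hgs
  have hmain := uncond hB hC hM hR hG hP (Kernel.deterministic S hS) ?_ ?_
  · obtain ⟨J, h0, hg⟩ := (hmain.and hgs).exists
    have hn : Measurable fun σ : Site d → ℝ => -σ := by fun_prop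
    rw [Kernel.deterministic_apply, Measure.map_dirac' hn] at h0
    have h1 : -S J = S J := by
      have := congrArg (fun m : Measure (Site d → ℝ) => m {S J}) h0
      by_contra hne
      simp only [Measure.dirac_apply' _ (measurableSet_singleton _), Set.indicator, Set.mem_singleton_iff, hne,
        if_false, if_true, Pi.one_apply] at this
      exact zero_ne_one this
    have h2 := congrFun h1 0
    rcases hg.1 0 with h | h <;> · rw [Pi.neg_apply, h] at h2; norm_num at h2
  · intro v
    filter_upwards [hcov v] with J hJ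
    rw [Kernel.deterministic_apply, Kernel.deterministic_apply, hJ, Measure.map_dirac' (measurable_mS v)]
  · filter_upwards [hgs] with J hJ
    rw [Kernel.deterministic_apply]
    rw [ae_dirac_eq]
    exact hJ

end Pool.Agent.Zk83.SB
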