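import Pool.Agent.Zk86.SB.Z
import Pool.Agent.Zk83.SB.Core

/-!
# The zero-one law for events of iid couplings which are invariant under one translation

Adapted from `Pool/Agent/Zk86/SB/Z.lean` (helper86).
-/

set_option autoImplicit false

open MeasureTheory ProbabilityTheory Filter Topology
open Pool.Agent.Zk69.SB Pool.Agent.Zk86.SB

namespace Pool.Agent.Zk83.SB

/-- a translation along `w` moving a finite set of bonds off itself -/
theorem exists_shift_along {d : ℕ} {w : Site d} (hw : w ≠ 0) (F : Set (Bond d)) (hF : F.Finite) :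
    ∃ n : ℕ, Disjoint F (shiftB (n • w) '' F) := by
  obtain ⟨i₀, hi₀⟩ := Function.ne_iff.1 hw
  obtain ⟨N, hN⟩ := (hF.image (fun e : Bond d => |e.1 i₀|)).bddAbove
  have hN' : ∀ e ∈ F, |e.1 i₀| ≤ N := fun e he => hN ⟨e, he, rfl⟩
  refine ⟨2 * N.natAbs + 1, Set.disjoint_left.2 ?_⟩
  rintro e he ⟨e', he', rfl⟩
  have h1 := hN' _ he
  have h2 := hN' _ he'
  have h3 : (shiftB ((2 * N.natAbs + 1) • w) e').1 i₀ = e'.1 i₀ + (2 * |N| + 1) * w i₀ := by
    change (e'.1 + (2 * N.natAbs + 1) • w) i₀ = _
    rw [Pi.add_apply, Pi.smul_apply, nsmul_eq_mul]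
    push_cast
    rfl
  rw [h3] at h1
  have h4 := le_abs_self N
  have h7 : 1 ≤ |w i₀| := Int.one_le_abs hi₀
  have h8 : |(2 * |N| + 1) * w i₀| ≤ 2 * N := by
    have e1 : (2 * |N| + 1) * w i₀ = (e'.1 i₀ + (2 * |N| + 1) * w i₀) - e'.1 i₀ := by ring
    rw [e1]
    exact (abs_sub _ _).trans (by linarith)
  rw [abs_mul, abs_of_nonneg (by positivity)] at h8
  nlinarith [abs_nonneg N]

theorem approx {d : ℕ} {w : Site d} (hw : w ≠ 0) (μ : Measure ℝ) [IsProbabilityMeasure μ] (f : (Bond d → ℝ) → ℝ)
    (hf : Measurable f) (hf1 : ∀ x, f x = 0 ∨ f x = 1)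
    (hinv : ∀ n : ℕ, (fun J => f (mJ (n • w) J)) =ᵐ[Measure.infinitePi fun _ : Bond d => μ] f)
    (ε : ℝ) (hε : 0 < ε) :
    |(∫ J, f J ∂(Measure.infinitePi fun _ : Bond d => μ)) -
      (∫ J, f J ∂(Measure.infinitePi fun _ : Bond d => μ)) *
        ∫ J, f J ∂(Measure.infinitePi fun _ : Bond d => μ)| ≤ 2 * ε := by
  have := Encodable.ofCountable (Bond d)
  set P := Measure.infinitePi fun _ : Bond d => μ with hP
  have hf0 : ∀ x, |f x| ≤ 1 := by
    intro x
    rcases hf1 x with h | h <;> rw [h] <;> norm_num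
  have hfm : StronglyMeasurable[⨆ n, (fil (Bond d)) n] f := by
    rw [iSup_fil]
    exact hf.stronglyMeasurable
  have hfi : Integrable f P := Integrable.of_bound hf.aestronglyMeasurable 1
    (Eventually.of_forall fun x => by rw [Real.norm_eq_abs]; exact hf0 x)
  have hlim := hfi.tendsto_eLpNorm_condExp (ℱ := fil (Bond d)) hfm
  have hε' : (0 : ENNReal) < ENNReal.ofReal ε := ENNReal.ofReal_pos.2 hε
  obtain ⟨n, hn⟩ := ((tendsto_order.1 hlim).2 _ hε').exists
  set h : (Bond d → ℝ) → ℝ := P[f|(fil (Bond d)) n] with hh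
  have hhm : StronglyMeasurable[(fil (Bond d)) n] h := stronglyMeasurable_condExp
  have hhi : Integrable h P := integrable_condExp
  have hle : (fil (Bond d)) n ≤ MeasurableSpace.pi := (fil (Bond d)).le n
  have hhm' : StronglyMeasurable h := hhm.mono hle
  have hh1 : ∀ᵐ x ∂P, |h x| ≤ 1 := by
    have := ae_bdd_condExp_of_ae_bdd (m := (fil (Bond d)) n) (μ := P) (R := 1) (f := f)
      (Eventually.of_forall fun x => by simpa using hf0 x)
    simpa using this
  have hd' : Integrable (fun x => |f x - h x|) P := (hfi.sub hhi).abs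
  have hsmall : ∫ x, |f x - h x| ∂P ≤ ε := by
    have h1 : eLpNorm (h - f) 1 P = ENNReal.ofReal (∫ x, |f x - h x| ∂P) := by
      rw [eLpNorm_one_eq_lintegral_enorm, ofReal_integral_eq_lintegral_ofReal hd'
        (Eventually.of_forall fun x => abs_nonneg _)]
      refine lintegral_congr fun x => ?_
      rw [Pi.sub_apply, ← ofReal_norm, Real.norm_eq_abs, abs_sub_comm]
    rw [h1] at hn
    exact (ENNReal.ofReal_lt_ofReal_iff hε).1 hn |>.le
  have hint : ∫ x, h x ∂P = ∫ x, f x ∂P := integral_condExp hle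
  obtain ⟨m, hv⟩ := exists_shift_along hw (Low (Bond d) n) (low_finite (Bond d) n)
  set v : Site d := m • w with hvdef
  have hT : MeasurePreserving (mJ v) P P := mp_iid μ v
  -- independence
  have hcomap : ∀ i : Bond d, MeasurableSpace.comap (fun x : Bond d → ℝ => x i) inferInstance ≤
      (MeasurableSpace.pi : MeasurableSpace (Bond d → ℝ)) := fun i => (measurable_pi_apply i).comap_le
  have hii : iIndep (fun i : Bond d => MeasurableSpace.comap (fun x : Bond d → ℝ => x i)
      (inferInstance : MeasurableSpace ℝ)) P := by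
    have h0 : iIndepFun (fun (i : Bond d) (x : Bond d → ℝ) => x i) P :=
      iIndepFun_infinitePi (P := fun _ : Bond d => μ) (X := fun _ x => x) (fun i => measurable_id)
    exact h0
  have hind : Indep ((fil (Bond d)) n) (⨆ i ∈ shiftB v '' Low (Bond d) n,
      MeasurableSpace.comap (fun x : Bond d → ℝ => x i) inferInstance) P :=
    indep_iSup_of_disjoint hcomap hii hv
  have hTm : MeasurableSpace.comap (mJ v) ((fil (Bond d)) n) ≤
      ⨆ i ∈ shiftB v '' Low (Bond d) n,
        MeasurableSpace.comap (fun x : Bond d → ℝ => x i) inferInstance := by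
    change MeasurableSpace.comap (mJ v) (⨆ i ∈ Low (Bond d) n,
      MeasurableSpace.comap (fun x : Bond d → ℝ => x i) inferInstance) ≤ _
    rw [MeasurableSpace.comap_iSup]
    refine iSup_le fun i => ?_
    rw [MeasurableSpace.comap_iSup]
    refine iSup_le fun hi => ?_
    rw [MeasurableSpace.comap_comp]
    exact le_iSup₂ (f := fun (j : Bond d) (_ : j ∈ shiftB v '' Low (Bond d) n) =>
      MeasurableSpace.comap (fun x : Bond d → ℝ => x j) inferInstance) (shiftB v i) ⟨i, hi, rfl⟩
  have hindf : IndepFun h (fun x => h (mJ v x)) P := by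
    have h1 : MeasurableSpace.comap h inferInstance ≤ (fil (Bond d)) n := hhm.measurable.comap_le
    have h2 : MeasurableSpace.comap (fun x => h (mJ v x)) inferInstance ≤
        ⨆ i ∈ shiftB v '' Low (Bond d) n,
          MeasurableSpace.comap (fun x : Bond d → ℝ => x i) inferInstance := by
      refine le_trans ?_ hTm
      change MeasurableSpace.comap (h ∘ mJ v) inferInstance ≤ _
      rw [← MeasurableSpace.comap_comp]
      exact MeasurableSpace.comap_mono h1
    exact indep_of_indep_of_le_left (indep_of_indep_of_le_right hind h2) h1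
  have hhT : Integrable (fun x => h (mJ v x)) P := hT.integrable_comp_of_integrable hhi
  have hprod : ∫ x, h x * h (mJ v x) ∂P = (∫ x, f x ∂P) * ∫ x, f x ∂P := by
    rw [hindf.integral_fun_mul_eq_mul_integral hhi.aestronglyMeasurable hhT.aestronglyMeasurable]
    have h3 : ∫ x, h (mJ v x) ∂P = ∫ x, h x ∂P := by
      have h2 := integral_map (μ := P) hT.measurable.aemeasurable
        (f := h) (by rw [hT.map_eq]; exact hhi.aestronglyMeasurable)
      rw [hT.map_eq] at h2
      exact h2.symm
    rw [h3, hint]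
  have hff : ∫ x, f x ∂P = ∫ x, f x * f (mJ v x) ∂P := by
    refine integral_congr_ae ?_
    filter_upwards [hinv m] with x hx
    rw [hx]
    rcases hf1 x with h | h <;> rw [h] <;> norm_num
  have hdT : Integrable (fun x => |f (mJ v x) - h (mJ v x)|) P :=
    hT.integrable_comp_of_integrable hd'
  have hTi : ∫ x, |f (mJ v x) - h (mJ v x)| ∂P = ∫ x, |f x - h x| ∂P := by
    have h2 := integral_map (μ := P) hT.measurable.aemeasurable
      (f := fun x => |f x - h x|) (by rw [hT.map_eq]; exact hd'.aestronglyMeasurable)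
    rw [hT.map_eq] at h2
    exact h2.symm
  have hfT : Integrable (fun x => f (mJ v x)) P := hT.integrable_comp_of_integrable hfi
  have hi1 : Integrable (fun x => f x * f (mJ v x)) P := by
    refine hfT.bdd_mul hfi.aestronglyMeasurable (c := 1) (Eventually.of_forall fun x => ?_)
    rw [Real.norm_eq_abs]; exact hf0 x
  have hi2 : Integrable (fun x => h x * h (mJ v x)) P := by
    refine hhT.bdd_mul hhi.aestronglyMeasurable (c := 1) ?_
    filter_upwards [hh1] with x hx
    rw [Real.norm_eq_abs]; exact hx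
  have hh1T : ∀ᵐ x ∂P, |h (mJ v x)| ≤ 1 := hT.quasiMeasurePreserving.ae hh1
  rw [← hprod]
  conv_lhs => rw [hff]
  rw [← integral_sub hi1 hi2]
  calc |∫ x, (f x * f (mJ v x) - h x * h (mJ v x)) ∂P|
      ≤ ∫ x, |f x * f (mJ v x) - h x * h (mJ v x)| ∂P := abs_integral_le_integral_abs
    _ ≤ ∫ x, (|f (mJ v x) - h (mJ v x)| + |f x - h x|) ∂P := by
        refine integral_mono_ae (hi1.sub hi2).abs (hdT.add hd') ?_
        filter_upwards [hh1T] with x hx
        have h1 : f x * f (mJ v x) - h x * h (mJ v x) =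
            f x * (f (mJ v x) - h (mJ v x)) + (f x - h x) * h (mJ v x) := by ring
        rw [h1]
        refine (abs_add_le _ _).trans ?_
        rw [abs_mul, abs_mul]
        have h2 : |f x| * |f (mJ v x) - h (mJ v x)| ≤ 1 * |f (mJ v x) - h (mJ v x)| :=
          mul_le_mul_of_nonneg_right (hf0 x) (abs_nonneg _)
        have h3 : |f x - h x| * |h (mJ v x)| ≤ |f x - h x| * 1 :=
          mul_le_mul_of_nonneg_left hx (abs_nonneg _)
        linarith
    _ = ∫ x, |f (mJ v x) - h (mJ v x)| ∂P + ∫ x, |f x - h x| ∂P := integral_add hdT hd'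
    _ ≤ 2 * ε := by rw [hTi]; linarith

/-- the zero-one law for one translation -/
theorem zero_one {d : ℕ} {w : Site d} (hw : w ≠ 0) (μ : Measure ℝ) [IsProbabilityMeasure μ]
    (A : Set (Bond d → ℝ)) (hA : MeasurableSet A)
    (hinv : ∀ n : ℕ, (mJ (n • w) ⁻¹' A : Set (Bond d → ℝ)) =ᵐ[Measure.infinitePi fun _ : Bond d => μ] A) :
    (Measure.infinitePi fun _ : Bond d => μ) A = 0 ∨ (Measure.infinitePi fun _ : Bond d => μ) A = 1 := by
  set P := Measure.infinitePi fun _ : Bond d => μ with hP
  let f : (Bond d → ℝ) → ℝ := A.indicator 1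
  have hf : Measurable f := measurable_one.indicator hA
  have hf1 : ∀ x, f x = 0 ∨ f x = 1 := by
    intro x
    by_cases hx : x ∈ A
    · exact Or.inr (Set.indicator_of_mem hx _)
    · exact Or.inl (Set.indicator_of_notMem hx _)
  have hfinv : ∀ n : ℕ, (fun J => f (mJ (n • w) J)) =ᵐ[P] f := by
    intro n
    filter_upwards [hinv n] with x hx
    set v : Site d := n • w with hvdef
    have hx' : (mJ v x ∈ A) = (x ∈ A) := hx
    by_cases h : x ∈ A
    · have h' : mJ v x ∈ A := by rw [hx']; exact h
      have e1 : f (mJ v x) = 1 := Set.indicator_of_mem h' _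
      have e2 : f x = 1 := Set.indicator_of_mem h _
      rw [e1, e2]
    · have h' : mJ v x ∉ A := by rw [hx']; exact h
      have e1 : f (mJ v x) = 0 := Set.indicator_of_notMem h' _
      have e2 : f x = 0 := Set.indicator_of_notMem h _
      rw [e1, e2]
  have hint : ∫ x, f x ∂P = P.real A := by
    rw [integral_indicator_one hA]
  have key : ∀ ε > 0, |P.real A - P.real A * P.real A| ≤ ε := by
    intro ε hε
    have := approx hw μ f hf hf1 hfinv (ε / 2) (half_pos hε)
    rw [← hP, hint] at this
    linarith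
  have h0 : P.real A - P.real A * P.real A = 0 := by
    have h1 : |P.real A - P.real A * P.real A| ≤ 0 := le_of_forall_pos_le_add fun ε hε => by
      rw [zero_add]; exact key ε hε
    exact abs_nonpos_iff.1 h1
  have h2 : P.real A * (1 - P.real A) = 0 := by linear_combination h0
  rcases mul_eq_zero.1 h2 with h3 | h3
  · left
    exact (measureReal_eq_zero_iff (measure_ne_top P A)).1 h3
  · right
    have h4 : P.real A = 1 := by linarith
    rw [measureReal_def] at h4
    rw [← ENNReal.ofReal_toReal (measure_ne_top P A), h4, ENNReal.ofReal_one]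

end Pool.Agent.Zk83.SB
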